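import Pool.Agent.Lib.MP_fc2a59_co.ALM.T.Stm

set_option autoImplicit false

/-!
# Project ALM, section S: the exact second moment

For two sets `A`, `A'` of vertices there are four classes, in cyclic order
`0 = A ∩ A'`, `1 = A \ A'`, `2 = (A ∪ A')ᶜ`, `3 = A' \ A`; the unions of consecutive classes are
`A, A'ᶜ, Aᶜ, A'`.  All four must induce trees.  First choose the forests inside the classes (`ρ`), then
the remaining pairing `τ` of the free points, which joins points of different classes.
Brute force over all pairings for `2m = 4, 6` confirms `∑ Y^2 = 54432, 629856000 = 2 N1 + N2`.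

Pieces: p_blk, p_SPL, p_lab, p_cfl, p_COMP, p_tr2, p_rec, p_crec, p_FOR, p_FORP, p_NAA, p_Y2.
-/

namespace Pool.Agent.ALM

open Finset
open scoped Classical

/-- the union of the classes `k` and `k+1` (mod 4) -/
noncomputable def two {V : Type} [Fintype V] (cl : V → Fin 4) (k : Fin 4) : Finset V :=
  univ.filter fun v => cl v = k ∨ cl v = k + 1

/-- the class of a component -/
noncomputable def clq {X V : Type} (b : X → V) (cl : V → Fin 4) (ρ : X → X) (K : Cm b ρ) : Fin 4 :=
  cl (Quot.out K)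

/-- class preserving forests -/
noncomputable def RF {X V : Type} [Fintype X] [Fintype V] (b : X → V) (cl : V → Fin 4) :
    Finset (X → X) :=
  univ.filter fun ρ => For b ρ ∧ ∀ x, cl (b (ρ x)) = cl (b x)

/-- pairings without a pair inside a class, such that consecutive classes span trees -/
noncomputable def CC {X V : Type} [Fintype X] [Fintype V] (b : X → V) (cl : V → Fin 4) :
    Finset (X → X) :=
  (prs X).filter fun τ => (∀ x, cl (b (τ x)) ≠ cl (b x)) ∧ ∀ k, TreeOn b τ (two cl k)

/-- RESTRICTION TO AN INVARIANT SET OF BLOCKS.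

Proof.  `A` is a union of components: `lk b ρ u v` implies `u ∈ A ↔ v ∈ A`, hence all elements of a class of
`Cm b ρ` are in `A` or none is (`Relation.EqvGen` induction, `Quot.eqvGen_exact`, `Quot.out_eq`).  So
`rs _ ρ` is just `ρ` on the points of `A`.  The bijection sends the class of `u` (with `u ∈ A`) to the class
of `u.1`: well defined; injective: a chain of links of `ρ` between two elements of `A` stays in `A`;
surjective by `Quot.out`. -/
def S_blk : Prop := ∀ (X V : Type) [Fintype X] [Fintype V] (b : X → V) (ρ : X → X) (A : Finset V),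
  Inv ρ → (∀ x, b (ρ x) ∈ A ↔ b x ∈ A) →
  (∀ x : {x : X // b x ∈ A}, (rs (fun x => b x ∈ A) ρ x).1 = ρ x.1) ∧
  Inv (rs (fun x => b x ∈ A) ρ) ∧
  mv (rs (fun x => b x ∈ A) ρ) = (univ.filter fun x => ρ x ≠ x ∧ b x ∈ A).card ∧
  (∀ v : V, Quot.out (Quot.mk (lk b ρ) v) ∈ A ↔ v ∈ A) ∧
  ∃ e : Cm (bl b A) (rs (fun x => b x ∈ A) ρ) ≃ {K : Cm b ρ // Quot.out K ∈ A},
    ∀ u, (e (Quot.mk _ u)).1 = Quot.mk _ u.1

/-- SPLITTING A PAIRING into the part inside the classes and the rest.

Proof.  (1) For a pairing `σ` let `ρ x = σ x` if `cl (b (σ x)) = cl (b x)` and `ρ x = x` otherwise: a class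
preserving involution with `Sub ρ σ`; `τ = rt ρ σ` is a pairing of `Fx ρ` (values `σ z ≠ z`) with
`cl (b (τ z)) ≠ cl (b z)`.  Conversely `(ρ, τ)`, `ρ` class preserving involution, `τ` pairing of `Fx ρ` changing
the class, gives `σ x = ρ x` if `ρ x ≠ x`, `σ x = τ x` otherwise; these maps are inverse to each other.
(2) `clq` of the class of `v` is `cl v` (as in `S_blk`, `ρ` preserves the class).
(3) Fix `k`, `A = two cl k`, `P = (b · ∈ A)`, `ρ_P = rs P ρ`, `σ_P = rs P σ`.  `A` is invariant under `ρ`, so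
`S_blk` applies; `Sub ρ_P σ_P`, both involutions.  By `S_2ST`:
`TreeOn b σ A ↔ For (bl b A) ρ_P ∧ Tre (qm (bl b A) ρ_P) (rt ρ_P σ_P)`.  By `S_inv` the second condition is
`TreeOn (qm b ρ) τ (two (clq b cl ρ) k)`: points `Fx ρ_P ≃ {z : Fx ρ // qm b ρ z ∈ two (clq b cl ρ) k}` (both are
the points `x` with `b x ∈ A`, `ρ x = x`), blocks by the bijection of `S_blk` (`Quot.out K ∈ A` iff
`K ∈ two (clq ..) k`), and `rs` of `τ` corresponds to `rt ρ_P σ_P` (both send a point `x` to `σ x` if
`b (σ x) ∈ A`, and fix it otherwise).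
(4) `For b ρ ↔ ∀ k, For (bl b (two cl k)) (rs _ ρ)`: the deficits
`d_k = mv (rs ρ) + 2 nc - 2 |two cl k| ≥ 0` (`S_ncle`) satisfy `∑_k d_k = 2 (mv ρ + 2 nc b ρ - 2|V|)`, because every
class belongs to exactly two of the sets `two cl k` and `mv`, `nc` count points and components with
class in `{k, k+1}` (`S_blk`).
(5) So `σ` satisfies the left condition iff `ρ ∈ RF b cl` and `τ ∈ CC (qm b ρ) (clq b cl ρ)`. -/
def S_SPL : Prop := ∀ (X V : Type) [Fintype X] [Fintype V] (b : X → V) (cl : V → Fin 4),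
  ((prs X).filter fun σ => ∀ k, TreeOn b σ (two cl k)).card =
    ∑ ρ ∈ RF b cl, (CC (qm b ρ) (clq b cl ρ)).card

/-- LABELLINGS.  Sum over the labellings of the points by `0, 1, 2` with `p` labels `0` and `p'` labels `1`
of the product over the blocks of (number of `0`) * (number of `1`).

Proof.  The left sum counts triples `(lam, f, g)`, `f K` a point of `K` with label `0`, `g K` a point of `K`
with label `1`.  Choose `(f, g)` first (`f K ≠ g K` in `K`: `∏ D_K (D_K - 1)`), then the other
`|X| - 2c` points get `p - c` labels `0`, `p' - c` labels `1` and the rest label `2`; the number is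
`(|X|-2c)!/((p-c)! (p'-c)! (|X|-p-p')!)`.  (If `|X| < 2c` or some `D_K ≤ 1` both sides are 0 or the hypotheses
fail.)  Alternatively induction on `|X|` or comparison of coefficients in
`∏_K (∑_(labellings of K) x^a y^b z^c a b) = ∏_K D_K (D_K - 1) x y (x+y+z)^(D_K - 2)`. -/
def S_lab : Prop := ∀ (X K : Type) [Fintype X] [Fintype K] (q : X → K) (p p' : ℕ),
  Fintype.card K ≤ p → Fintype.card K ≤ p' → p + p' ≤ Fintype.card X →
  (∑ l ∈ univ.filter (fun l : X → Fin 3 =>
      (univ.filter fun x => l x = 0).card = p ∧ (univ.filter fun x => l x = 1).card = p'),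
    ∏ k : K, (univ.filter fun x => q x = k ∧ l x = 0).card * (univ.filter fun x => q x = k ∧ l x = 1).card) *
    ((p - Fintype.card K).factorial * (p' - Fintype.card K).factorial *
      (Fintype.card X - (p + p')).factorial) =
  (∏ k : K, (univ.filter fun x => q x = k).card * ((univ.filter fun x => q x = k).card - 1)) *
    (Fintype.card X - 2 * Fintype.card K).factorial

/-- points of class `k` with label `j` -/
noncomputable def xk {X K : Type} [Fintype X] (q : X → K) (cl : K → Fin 4) (l : X → Fin 4) (k j : Fin 4) :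
    Finset X := univ.filter fun x => cl (q x) = k ∧ l x = j

/-- FIXED LABELS.  The label of `x` is the difference of the classes `cl (q (τ x)) - cl (q x) ∈ {1,2,3}`.

Proof.  `τ` with these labels is given by bijections `e_k : xk k 1 ≃ xk (k+1) 3` (with inverse on
`xk (k+1) 3`), `f_0 : xk 0 2 ≃ xk 2 2`, `f_1 : xk 1 2 ≃ xk 3 2`, and `TreeOn q τ (two cl k)` depends only on
`e_k`: in `two cl k` the pairs of `τ` are exactly the pairs `x, e_k x` (`rs` fixes the other points), so
`mv (rs τ) = 2 |xk k 1|`, and the components of `bl q (two cl k)` are the components of `rb` on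
`{K // cl K = k} ⊕ {K // cl K = k+1}` (blocks `≃`).  So it holds iff `|xk k 1| + 1 = c k + c (k+1)` and
`Nat.card (Quot (rb ..)) = 1`.  Apply `S_TB` for every `k`:
`∏_{cl K = k} #(label 1 in K) ∏_{cl K = k+1} #(label 3 in K) (c k - 1)! (c (k+1) - 1)!`; multiply over `k` (every
block appears once with label 1 and once with label 3; every `(c k - 1)!` twice).  Labels for which the
sizes do not fit give 0. -/
def S_cfl : Prop := ∀ (X K : Type) [Fintype X] [Fintype K] (q : X → K) (cl : K → Fin 4)
  (c : Fin 4 → ℕ) (l : X → Fin 4), (∀ k, (univ.filter fun K => cl K = k).card = c k) → (∀ k, 0 < c k) →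
  (∀ x, l x ≠ 0) →
  ((CC q cl).filter fun τ => ∀ x, cl (q (τ x)) = cl (q x) + l x).card =
    if (∀ k, (xk q cl l k 1).card + 1 = c k + c (k + 1) ∧ (xk q cl l (k + 1) 3).card + 1 = c k + c (k + 1)) ∧
        (xk q cl l 0 2).card = (xk q cl l 2 2).card ∧ (xk q cl l 1 2).card = (xk q cl l 3 2).card then
      (∏ k : K, (univ.filter fun x => q x = k ∧ l x = 1).card *
          (univ.filter fun x => q x = k ∧ l x = 3).card) *
        (∏ k : Fin 4, (c k - 1).factorial ^ 2) *
        ((xk q cl l 0 2).card.factorial * (xk q cl l 1 2).card.factorial)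
    else 0

/-- COMPLETIONS.

Proof.  Sum `S_cfl` over the labels `l` (every `τ` in `CC` has a label function, `cl (q (τ x)) - cl (q x) ≠ 0`).
The conditions say: in class `k` there are `p_k = c k + c (k+1) - 1` labels `1` and
`p'_k = c k + c (k-1) - 1` labels `3`; then the number of labels `2` in class `k` is
`u k + 2 c k - p_k - p'_k = u k + 2 - c (k+1) - c (k-1)`, i.e. `v + 2 - (c 1 + c 3)` in the classes 0 and 2, and
`w + 2 - (c 0 + c 2)` in the classes 1 and 3, so the last two conditions hold automatically (and if one of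
these numbers would be negative there is no such labelling: first claim).  The sum of
`∏_K (..)(..)` over these labellings is a product over the classes (a labelling of `X` is a labelling of
every class), and for each class `S_lab` (rename the labels `1,3,2` to `0,1,2`; `p_k - c k = c(k+1) - 1`,
`p'_k - c k = c (k-1) - 1`) gives `∏_{cl K = k} D(D-1) (u k)!/((c(k+1)-1)! (c(k-1)-1)! r_k!)`,
`r_0 = r_2 = v + 2 - (c 1 + c 3)`, `r_1 = r_3 = w + 2 - (c 0 + c 2)`.  The product over `k` of
`(c(k+1)-1)! (c(k-1)-1)!` is `∏ (c k - 1)!^2`, which cancels; one is left with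
`∏ D(D-1) v!^2 w!^2 r_0! r_1!/(r_0!^2 r_1!^2)`. -/
def S_COMP : Prop := ∀ (X K : Type) [Fintype X] [Fintype K] (q : X → K) (cl : K → Fin 4)
  (c u : Fin 4 → ℕ) (v w : ℕ), (∀ k, (univ.filter fun K => cl K = k).card = c k) → (∀ k, 0 < c k) →
  (∀ k, (univ.filter fun x => cl (q x) = k).card = u k + 2 * c k) →
  u 0 = v → u 1 = w → u 2 = v → u 3 = w →
  ((v + 2 < c 1 + c 3 ∨ w + 2 < c 0 + c 2) → (CC q cl).card = 0) ∧
  (c 1 + c 3 ≤ v + 2 → c 0 + c 2 ≤ w + 2 →
    (CC q cl).card * ((v + 2 - (c 1 + c 3)).factorial * (w + 2 - (c 0 + c 2)).factorial) =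
      (∏ k : K, (univ.filter fun x => q x = k).card * ((univ.filter fun x => q x = k).card - 1)) *
        (v.factorial ^ 2 * w.factorial ^ 2))

/-- weighted number of forests on `W` with `c` components: in every component two different free
points are marked (ordered) -/
noncomputable def FF (W : Type) [Fintype W] (c : ℕ) : ℕ :=
  ∑ ρ ∈ univ.filter (fun ρ : Pt W → Pt W => For Prod.fst ρ ∧ nc Prod.fst ρ = c),
    ∏ K : Cm Prod.fst ρ, fp Prod.fst ρ K * (fp Prod.fst ρ K - 1)

/-- TREES WITH THREE POINTS AT EVERY VERTEX.  Proof: `S_T` with `X = Pt W`, `|X| = 3s`, all blocks of size 3. -/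
def S_tr2 : Prop := ∀ (W : Type) [Fintype W], 0 < Fintype.card W →
  (univ.filter fun ρ : Pt W → Pt W => Tre Prod.fst ρ).card * (Fintype.card W + 2).factorial =
    3 ^ Fintype.card W * (2 * Fintype.card W).factorial

/-- RECURSION: remove the component of a vertex `w0`.

Proof.  For a forest `ρ` on `W` with `c + 1` components let `U` be the set of vertices in the component of
`w0`.  `U` and its complement are invariant; `ρ` is given by its restrictions to `Pt U` and `Pt Uᶜ`
(transport along `{x : Pt W // x.1 ∈ U} ≃ Pt {w // w ∈ U}` by `S_inv`), the first is a tree (`For` on `W`,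
and `S_ncle` on both parts, gives `For` on both parts; one component), the second a forest with `c`
components (`S_blk` for both parts gives the components).  The component `U` has
`3|U| - 2(|U| - 1) = |U| + 2` free points.  Conversely every such pair gives a forest. -/
def S_rec : Prop := ∀ (W : Type) [Fintype W] (w0 : W) (c : ℕ),
  FF W (c + 1) = ∑ U ∈ (univ : Finset (Finset W)).filter (fun U => w0 ∈ U),
    (univ.filter fun ρ : Pt {w : W // w ∈ U} → Pt {w : W // w ∈ U} => Tre Prod.fst ρ).card *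
      ((U.card + 2) * (U.card + 1)) * FF {w : W // w ∉ U} c

/-- RECURSION FOR THE COEFFICIENTS.  Proof: compare the coefficients of `X^(v-1)` in
`(phi^(c+1))' = (c+1) phi^c phi'` (`PowerSeries.derivative`, `derivation_pow`), `coeff (v-1) f' = v coeff v f`. -/
def S_crec : Prop := ∀ v c : ℕ,
  (v : ℝ) * co v (c + 1) =
    (c + 1) * ∑ s ∈ Icc 1 v, (s : ℝ) * (3 ^ s * (Nat.centralBinom s : ℝ)) * co (v - s) c

/-- FORESTS.

Proof.  Strong induction on `|W| = v`.  `c = 0`: `nc = 0` iff `W` is empty; `co v 0 = 1` if `v = 0`, else `0`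
(for `v = 0`: one `ρ`, empty product 1).  If `v = 0`, `c > 0`: no forest, `co 0 c = 0` (`phi` has constant
coefficient 0).  If `v > 0`: `S_rec` with some `w0` and `c + 1`; a set `U` of size `s` containing `w0`
(there are `C(v-1,s-1)`) contributes `T_s (s+2)(s+1) ff(v-s, c)`, `T_s (s+2)! = 3^s (2s)!` (`S_tr2`), so
`T_s (s+2)(s+1) = 3^s (2s)!/s! = s! 3^s C(2s,s)`, and by induction
`C(v-1,s-1) s! 3^s C(2s,s) (v-s)!/c! co(v-s,c) = ((v-1)!/c!) s 3^s C(2s,s) co(v-s,c)`.  The sum is
`((v-1)!/c!) v co(v,c+1)/(c+1)` by `S_crec`. -/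
def S_FOR : Prop := ∀ (W : Type) [Fintype W] (c : ℕ),
  (FF W c : ℝ) = (Fintype.card W).factorial / (c.factorial : ℝ) * co (Fintype.card W) c

/-- FORESTS IN FOUR CLASSES.

Proof.  A class preserving involution `ρ` of `Pt V` is the same as four involutions `ρ_k` of
`Pt {v // cl v = k}` (restrict; `{x : Pt V // cl x.1 = k} ≃ Pt {v // cl v = k}`, `S_inv`).  `For ρ` iff all
`For ρ_k` (`S_ncle` for every class and additivity of `mv`, `nc`, `|V|`), the components of class `k`
are the components of `ρ_k` (`S_blk`), with the same numbers of free points.  So the sum over `ρ` with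
`c k` components of class `k` is the product of the sums over `ρ_k` (`Finset.prod_univ_sum`,
`Fintype.piFinset`). -/
def S_FORP : Prop := ∀ (V : Type) [Fintype V] (cl : V → Fin 4) (c : Fin 4 → ℕ),
  (∑ ρ ∈ (RF (Prod.fst : Pt V → V) cl).filter
      (fun ρ => ∀ k, (univ.filter fun K => clq Prod.fst cl ρ K = k).card = c k),
    ∏ K : Cm Prod.fst ρ, fp Prod.fst ρ K * (fp Prod.fst ρ K - 1)) =
  ∏ k : Fin 4, FF {v : V // cl v = k} (c k)

/-- THE NUMBER OF PAIRINGS FOR WHICH `A` AND `A'` ARE BOTH GOOD.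

Proof.  `S_SPL`: sum over `ρ ∈ RF` of `|CC (qm ρ) (clq ρ)|`.  Let `c k` be the number of components of
class `k` (positive, as the classes are not empty).  The number of free points of class `k` is
`3 v_k - 2 (v_k - c k) = v_k + 2 c k` (`For` on every class: `S_ncle`, `S_blk`), `v_0 = v_2 = v`, `v_1 = v_3 = w`.  By
`S_COMP` (`D_K = fp K`) the summand is `∏ fp (fp - 1) v!^2 w!^2/((v+2-c1-c3)! (w+2-c0-c2)!)`, or `0` if
`c1 + c3 > v + 2` or `c0 + c2 > w + 2`.  Group by `c` and use `S_FORP` and `S_FOR`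
(`FF W c = v_k!/c! co v_k c`):
`v!^2 w!^2 ∑_{c0+c2 ≤ w+2} v!^2 co v c0 co v c2/(c0! c2! (w+2-c0-c2)!) ∑_{c1+c3 ≤ v+2} w!^2 co w c1 co w c3/(..)`,
and the two sums are `v!^2 BB (w+2) v/(w+2)!`, `w!^2 BB (v+2) w/(v+2)!`.  (Terms with some `c = 0`
vanish: `co v 0 = 0` for `v > 0`; all sums are finite, e.g. `c k ≤ |V|`, and `co v c = 0` for `c > v`.) -/
def S_NAA : Prop := ∀ (V : Type) [Fintype V] (cl : V → Fin 4) (v w : ℕ), 0 < v → 0 < w →
  (univ.filter fun x => cl x = 0).card = v → (univ.filter fun x => cl x = 1).card = w →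
  (univ.filter fun x => cl x = 2).card = v → (univ.filter fun x => cl x = 3).card = w →
  (((prs (Pt V)).filter fun σ => ∀ k, TreeOn Prod.fst σ (two cl k)).card : ℝ) =
    (v.factorial : ℝ) ^ 4 * (w.factorial : ℝ) ^ 4 / (((v + 2).factorial : ℝ) * ((w + 2).factorial : ℝ)) *
      BB (v + 2) w * BB (w + 2) v

/-- THE SECOND MOMENT.

Proof.  `∑ Y^2 = ∑_{A,A'} #{σ | Jp σ A ∧ Jp σ A'}`.  By `S_Jc` only `|A| = |A'| = m`.  `A' = A`: total `N1 m` (as
in `S_N1`, which may be used: `∑_A #{σ | Jp σ A} = ∑ Y`).  `A' = Aᶜ`: `Jp σ Aᶜ ↔ Jp σ A`, again `N1 m`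
(`A ≠ Aᶜ`).  Otherwise `v = |A ∩ A'|` is between `1` and `m - 1`; with the classes
`0 = A ∩ A'`, `1 = A \ A'`, `2 = (A ∪ A')ᶜ`, `3 = A' \ A` of sizes `v, m-v, v, m-v` the condition is
`∀ k, TreeOn σ (two cl k)`, `two cl k = A, A'ᶜ, Aᶜ, A'`; use `S_NAA`.  The number of pairs with
`|A ∩ A'| = v` is `C(2m,m) C(m,v) C(m,m-v) = (2m)!/(v!^2 (m-v)!^2)`. -/
def S_Y2 : Prop := ∀ m : ℕ, 0 < m →
  (∑ σ ∈ prs (Pt (Fin (2 * m))), (Y σ : ℝ) ^ 2) = 2 * N1 m + N2 m

end Pool.Agent.ALM
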