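import Pool.Agent.Lib.MP_fc2a59_co.ALM.S.Stm

set_option autoImplicit false

/-!
# Project ALM, piece p_COMP (helper54)
-/

namespace Pool.Agent.ALM

open Finset
open scoped Classical

namespace COMPX

theorem card_sub2 {X : Type} {P : X → Prop} (s : Finset {x : X // P x}) (t : Finset X)
    (h : ∀ x : {x : X // P x}, x ∈ s ↔ x.1 ∈ t) (hR : ∀ x ∈ t, P x) : s.card = t.card := by
  refine Finset.card_bij (fun x _ => x.1) ?_ ?_ ?_
  · intro x hx
    exact (h x).1 hx
  · intro x _ y _ hxy
    exact Subtype.ext hxy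
  · intro x hx
    exact ⟨⟨x, hR x hx⟩, (h _).2 hx, rfl⟩

theorem all4 (P : Fin 4 → Prop) : (∀ k, P k) ↔ P 0 ∧ P 1 ∧ P 2 ∧ P 3 := by
  constructor
  · intro h
    exact ⟨h 0, h 1, h 2, h 3⟩
  · rintro ⟨h0, h1, h2, h3⟩ k
    fin_cases k
    · exact h0
    · exact h1
    · exact h2
    · exact h3

/-- splitting a labelling into its restrictions to the classes -/
def eqv {X : Type} (κ : X → Fin 4) : (∀ k : Fin 4, ({x : X // κ x = k} → Fin 3)) ≃ (X → Fin 3) where
  toFun f x := f (κ x) ⟨x, rfl⟩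
  invFun l k x := l x.1
  left_inv f := by
    funext k x
    obtain ⟨x, hx⟩ := x
    subst hx
    rfl
  right_inv l := rfl

/-- sum over all labellings -/
noncomputable def SU {X : Type} [Fintype X] (f : (X → Fin 3) → ℕ) : ℕ := ∑ l : X → Fin 3, f l

theorem sum_split {X : Type} [Fintype X] (κ : X → Fin 4)
    (G : ∀ k : Fin 4, ({x : X // κ x = k} → Fin 3) → ℕ) :
    ∑ l : X → Fin 3, ∏ k, G k (fun x => l x.1) =
      ∏ k, SU (G k) := by
  unfold SU
  rw [Finset.prod_univ_sum]
  symm
  refine Finset.sum_nbij' (fun f x => f (κ x) ⟨x, rfl⟩) (fun l k x => l x.1) ?_ ?_ ?_ ?_ ?_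
  · intro f _
    exact mem_univ _
  · intro l _
    simp only [Fintype.mem_piFinset]
    intro k
    simp only [mem_univ]
  · intro f _
    exact (eqv κ).left_inv f
  · intro l _
    rfl
  · intro f _
    refine Finset.prod_congr rfl fun k _ => ?_
    congr 1
    funext x
    obtain ⟨x, hx⟩ := x
    subst hx
    rfl

/-- relabelling -/
def g : Fin 3 → Fin 4 := ![1, 3, 2]
def hh : Fin 4 → Fin 3 := ![0, 0, 2, 1]

theorem g_ne (j : Fin 3) : g j ≠ 0 := by
  revert j; decide

theorem g_hh (i : Fin 4) (h : i ≠ 0) : g (hh i) = i := by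
  revert i; decide

theorem hh_g (j : Fin 3) : hh (g j) = j := by
  revert j; decide

theorem g_eq1 (j : Fin 3) : g j = 1 ↔ j = 0 := by
  revert j; decide

theorem g_eq3 (j : Fin 3) : g j = 3 ↔ j = 1 := by
  revert j; decide

theorem g_eq2 (j : Fin 3) : g j = 2 ↔ j = 2 := by
  revert j; decide

/-- number of points of class `k` with label `j` -/
noncomputable def cn {X K : Type} [Fintype X] (q : X → K) (cl : K → Fin 4) (l : X → Fin 3) (k : Fin 4)
    (j : Fin 3) : ℕ := (univ.filter fun x => cl (q x) = k ∧ l x = j).card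

theorem cn_sum {X K : Type} [Fintype X] (q : X → K) (cl : K → Fin 4) (l : X → Fin 3) (k : Fin 4) :
    cn q cl l k 0 + cn q cl l k 1 + cn q cl l k 2 = (univ.filter fun x => cl (q x) = k).card := by
  have h := Finset.card_eq_sum_card_fiberwise (f := l) (s := univ.filter fun x => cl (q x) = k)
    (t := (univ : Finset (Fin 3))) (fun _ _ => Finset.mem_coe.2 (mem_univ _))
  rw [h, Fin.sum_univ_three]
  simp only [cn, Finset.filter_filter]

theorem xk1 {X K : Type} [Fintype X] (q : X → K) (cl : K → Fin 4) (l : X → Fin 3) (k : Fin 4) :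
    (xk q cl (fun x => g (l x)) k 1).card = cn q cl l k 0 := by
  simp only [xk, cn, g_eq1]

theorem xk3 {X K : Type} [Fintype X] (q : X → K) (cl : K → Fin 4) (l : X → Fin 3) (k : Fin 4) :
    (xk q cl (fun x => g (l x)) k 3).card = cn q cl l k 1 := by
  simp only [xk, cn, g_eq3]

theorem xk2 {X K : Type} [Fintype X] (q : X → K) (cl : K → Fin 4) (l : X → Fin 3) (k : Fin 4) :
    (xk q cl (fun x => g (l x)) k 2).card = cn q cl l k 2 := by
  simp only [xk, cn, g_eq2]

/-- the product over the blocks -/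
noncomputable def PR {X K : Type} [Fintype X] [Fintype K] (q : X → K) (l : X → Fin 3) : ℕ :=
  ∏ k : K, (univ.filter fun x => q x = k ∧ l x = 0).card * (univ.filter fun x => q x = k ∧ l x = 1).card

theorem CC_card {X K : Type} [Fintype X] [Fintype K] (q : X → K) (cl : K → Fin 4) :
    (CC q cl).card = ∑ l : X → Fin 3,
      ((CC q cl).filter fun τ => ∀ x, cl (q (τ x)) = cl (q x) + g (l x)).card := by
  rw [Finset.card_eq_sum_card_fiberwise (f := fun τ : X → X => fun x => hh (cl (q (τ x)) - cl (q x)))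
    (s := CC q cl) (t := (univ : Finset (X → Fin 3))) (fun _ _ => Finset.mem_coe.2 (mem_univ _))]
  refine Finset.sum_congr rfl fun l _ => ?_
  congr 1
  refine Finset.filter_congr fun τ hτ => ?_
  have hne : ∀ x, cl (q (τ x)) ≠ cl (q x) := by
    unfold CC at hτ
    exact (Finset.mem_filter.1 hτ).2.1
  constructor
  · intro h x
    have hx : hh (cl (q (τ x)) - cl (q x)) = l x := congrFun h x
    rw [← hx, g_hh _ (sub_ne_zero.2 (hne x))]
    abel
  · intro h
    funext x
    rw [h x, add_sub_cancel_left, hh_g]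

/-- the condition on the numbers of labels -/
def cond {X K : Type} [Fintype X] (q : X → K) (cl : K → Fin 4) (c : Fin 4 → ℕ) (l : X → Fin 3) : Prop :=
  ∀ k, cn q cl l k 0 + 1 = c k + c (k + 1) ∧ cn q cl l k 1 + 1 = c k + c (k + 3)

theorem cond_iff {X K : Type} [Fintype X] (q : X → K) (cl : K → Fin 4) (c : Fin 4 → ℕ) (l : X → Fin 3) :
    (∀ k, cn q cl l k 0 + 1 = c k + c (k + 1) ∧ cn q cl l (k + 1) 1 + 1 = c k + c (k + 1)) ↔
      cond q cl c l := by
  unfold cond
  rw [all4, all4]
  have e1 : (0 : Fin 4) + 1 = 1 := rfl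
  have e2 : (1 : Fin 4) + 1 = 2 := rfl
  have e3 : (2 : Fin 4) + 1 = 3 := rfl
  have e4 : (3 : Fin 4) + 1 = 0 := rfl
  have f1 : (0 : Fin 4) + 3 = 3 := rfl
  have f2 : (1 : Fin 4) + 3 = 0 := rfl
  have f3 : (2 : Fin 4) + 3 = 1 := rfl
  have f4 : (3 : Fin 4) + 3 = 2 := rfl
  rw [e1, e2, e3, e4, f1, f2, f3, f4]
  constructor
  · rintro ⟨⟨a0, b0⟩, ⟨a1, b1⟩, ⟨a2, b2⟩, ⟨a3, b3⟩⟩
    exact ⟨⟨a0, by omega⟩, ⟨a1, by omega⟩, ⟨a2, by omega⟩, ⟨a3, by omega⟩⟩
  · rintro ⟨⟨a0, b0⟩, ⟨a1, b1⟩, ⟨a2, b2⟩, ⟨a3, b3⟩⟩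
    exact ⟨⟨a0, by omega⟩, ⟨a1, by omega⟩, ⟨a2, by omega⟩, ⟨a3, by omega⟩⟩

/-- sizes of the third label -/
theorem cn2 {X K : Type} [Fintype X] (q : X → K) (cl : K → Fin 4) (c u : Fin 4 → ℕ)
    (hu : ∀ k, (univ.filter fun x => cl (q x) = k).card = u k + 2 * c k) (l : X → Fin 3)
    (hl : cond q cl c l) (k : Fin 4) : cn q cl l k 2 + (c (k + 1) + c (k + 3)) = u k + 2 := by
  have h1 := cn_sum q cl l k
  have h2 := hl k
  have h3 := hu k
  omega

/-- value of the fiber -/
theorem fib {X K : Type} [Fintype X] [Fintype K] (h1 : S_cfl) (q : X → K) (cl : K → Fin 4)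
    (c u : Fin 4 → ℕ) (v w : ℕ) (hc : ∀ k, (univ.filter fun K => cl K = k).card = c k)
    (hp : ∀ k, 0 < c k) (hu : ∀ k, (univ.filter fun x => cl (q x) = k).card = u k + 2 * c k)
    (u0 : u 0 = v) (u1 : u 1 = w) (u2 : u 2 = v) (u3 : u 3 = w) (l : X → Fin 3) :
    ((CC q cl).filter fun τ => ∀ x, cl (q (τ x)) = cl (q x) + g (l x)).card =
      if cond q cl c l then PR q l * (∏ k : Fin 4, (c k - 1).factorial ^ 2) *
        ((v + 2 - (c 1 + c 3)).factorial * (w + 2 - (c 0 + c 2)).factorial) else 0 := by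
  rw [h1 X K q cl c (fun x => g (l x)) hc hp (fun x => g_ne _)]
  simp only [xk1, xk3, xk2, g_eq1, g_eq3]
  by_cases hcd : cond q cl c l
  · have k0 := cn2 q cl c u hu l hcd 0
    have k1 := cn2 q cl c u hu l hcd 1
    have k2 := cn2 q cl c u hu l hcd 2
    have k3 := cn2 q cl c u hu l hcd 3
    have e1 : (0 : Fin 4) + 1 = 1 := rfl
    have e2 : (1 : Fin 4) + 1 = 2 := rfl
    have e3 : (2 : Fin 4) + 1 = 3 := rfl
    have e4 : (3 : Fin 4) + 1 = 0 := rfl
    have f1 : (0 : Fin 4) + 3 = 3 := rfl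
    have f2 : (1 : Fin 4) + 3 = 0 := rfl
    have f3 : (2 : Fin 4) + 3 = 1 := rfl
    have f4 : (3 : Fin 4) + 3 = 2 := rfl
    rw [e1, f1] at k0
    rw [e2, f2] at k1
    rw [e3, f3] at k2
    rw [e4, f4] at k3
    have q0 : cn q cl l 0 2 = v + 2 - (c 1 + c 3) := by omega
    have q1 : cn q cl l 1 2 = w + 2 - (c 0 + c 2) := by omega
    have q2 : cn q cl l 2 2 = v + 2 - (c 1 + c 3) := by omega
    have q3 : cn q cl l 3 2 = w + 2 - (c 0 + c 2) := by omega
    rw [if_pos hcd, if_pos ⟨(cond_iff q cl c l).2 hcd, by rw [q0, q2], by rw [q1, q3]⟩, q0, q1]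
    rfl
  · rw [if_neg hcd, if_neg fun h => hcd ((cond_iff q cl c l).1 h.1)]

/-- the generic factor -/
noncomputable def GF {X K : Type} [Fintype X] [Fintype K] (q : X → K) (p p' : ℕ) (m : X → Fin 3) : ℕ :=
  if (univ.filter fun x => m x = 0).card = p ∧ (univ.filter fun x => m x = 1).card = p' then PR q m else 0

theorem lab' (h2 : S_lab) {X K : Type} [Fintype X] [Fintype K] (q : X → K) (p p' : ℕ)
    (hp : Fintype.card K ≤ p) (hp' : Fintype.card K ≤ p') (h : p + p' ≤ Fintype.card X) :
    SU (GF q p p') * ((p - Fintype.card K).factorial * (p' - Fintype.card K).factorial *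
      (Fintype.card X - (p + p')).factorial) =
    (∏ k : K, (univ.filter fun x => q x = k).card * ((univ.filter fun x => q x = k).card - 1)) *
      (Fintype.card X - 2 * Fintype.card K).factorial := by
  have h3 := h2 X K q p p' hp hp' h
  unfold SU GF PR
  rw [← Finset.sum_filter]
  exact h3

/-- the factor of a class -/
noncomputable def GG {X K : Type} [Fintype X] [Fintype K] (q : X → K) (cl : K → Fin 4) (c : Fin 4 → ℕ)
    (k : Fin 4) (m : {x : X // cl (q x) = k} → Fin 3) : ℕ :=
  GF (fun x : {x : X // cl (q x) = k} => (⟨q x.1, x.2⟩ : {L : K // cl L = k}))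
    (c k + c (k + 1) - 1) (c k + c (k + 3) - 1) m

theorem prodGG {X K : Type} [Fintype X] [Fintype K] (q : X → K) (cl : K → Fin 4) (c : Fin 4 → ℕ)
    (hp : ∀ k, 0 < c k) (l : X → Fin 3) :
    ∏ k, GG q cl c k (fun x => l x.1) = if cond q cl c l then PR q l else 0 := by
  unfold GG GF
  rw [Finset.prod_ite_zero]
  have h0 : ∀ k : Fin 4, ∀ j : Fin 3,
      (univ.filter fun x : {x : X // cl (q x) = k} => l x.1 = j).card = cn q cl l k j := by
    intro k j
    unfold cn
    refine card_sub2 _ _ (fun x => ?_) (fun x hx => ?_)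
    · simp only [mem_filter, mem_univ, true_and]
      exact ⟨fun h => ⟨x.2, h⟩, fun h => h.2⟩
    · simp only [mem_filter, mem_univ, true_and] at hx
      exact hx.1
  have hcd : (∀ k ∈ (univ : Finset (Fin 4)),
      (univ.filter fun x : {x : X // cl (q x) = k} => l x.1 = 0).card = c k + c (k + 1) - 1 ∧
      (univ.filter fun x : {x : X // cl (q x) = k} => l x.1 = 1).card = c k + c (k + 3) - 1) ↔
      cond q cl c l := by
    unfold cond
    constructor
    · intro h k
      have h1 := h k (mem_univ _)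
      rw [h0, h0] at h1
      have := hp k
      omega
    · intro h k _
      have h1 := h k
      rw [h0, h0]
      have := hp k
      omega
  by_cases hh : cond q cl c l
  · rw [if_pos hh, if_pos (hcd.2 hh)]
    unfold PR
    rw [← Fintype.prod_fiberwise cl]
    refine Finset.prod_congr rfl fun k _ => Finset.prod_congr rfl fun L _ => ?_
    refine congrArg₂ (fun a b => a * b) ?_ ?_
    · refine card_sub2 _ _ (fun x => ?_) (fun x hx => ?_)
      · simp only [mem_filter, mem_univ, true_and]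
        rw [Subtype.ext_iff]
      · simp only [mem_filter, mem_univ, true_and] at hx
        rw [hx.1]; exact L.2
    · refine card_sub2 _ _ (fun x => ?_) (fun x hx => ?_)
      · simp only [mem_filter, mem_univ, true_and]
        rw [Subtype.ext_iff]
      · simp only [mem_filter, mem_univ, true_and] at hx
        rw [hx.1]; exact L.2
  · rw [if_neg hh, if_neg fun h => hh (hcd.1 h)]

/-- the number of points of a class -/
theorem card_cls {X : Type} [Fintype X] (P : X → Prop) [DecidablePred P] :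
    Fintype.card {x : X // P x} = (univ.filter P).card := Fintype.card_subtype P

/-- sum for one class -/
theorem sumGG {X K : Type} [Fintype X] [Fintype K] (h2 : S_lab) (q : X → K) (cl : K → Fin 4)
    (c u : Fin 4 → ℕ) (hc : ∀ k, (univ.filter fun K => cl K = k).card = c k)
    (hp : ∀ k, 0 < c k) (hu : ∀ k, (univ.filter fun x => cl (q x) = k).card = u k + 2 * c k)
    (k : Fin 4) (hk : c (k + 1) + c (k + 3) ≤ u k + 2) :
    SU (GG q cl c k) *
      ((c (k + 1) - 1).factorial * (c (k + 3) - 1).factorial *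
        (u k + 2 - (c (k + 1) + c (k + 3))).factorial) =
    (∏ L : {L : K // cl L = k}, (univ.filter fun x => q x = L.1).card *
        ((univ.filter fun x => q x = L.1).card - 1)) * (u k).factorial := by
  have p0 := hp k
  have p1 := hp (k + 1)
  have p3 := hp (k + 3)
  have cX : Fintype.card {x : X // cl (q x) = k} = u k + 2 * c k := by
    rw [card_cls]; exact hu k
  have cK : Fintype.card {L : K // cl L = k} = c k := by
    rw [card_cls]; exact hc k
  have h := lab' h2 (fun x : {x : X // cl (q x) = k} => (⟨q x.1, x.2⟩ : {L : K // cl L = k}))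
    (c k + c (k + 1) - 1) (c k + c (k + 3) - 1) (by rw [cK]; omega) (by rw [cK]; omega)
    (by rw [cX]; omega)
  rw [cX, cK] at h
  have a1 : c k + c (k + 1) - 1 - c k = c (k + 1) - 1 := by omega
  have a2 : c k + c (k + 3) - 1 - c k = c (k + 3) - 1 := by omega
  have a3 : u k + 2 * c k - (c k + c (k + 1) - 1 + (c k + c (k + 3) - 1)) =
      u k + 2 - (c (k + 1) + c (k + 3)) := by omega
  have a4 : u k + 2 * c k - 2 * c k = u k := by omega
  rw [a1, a2, a3, a4] at h
  refine Eq.trans h ?_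
  congr 1
  refine Finset.prod_congr rfl fun L _ => ?_
  have hL : ∀ (s : Finset {x : X // cl (q x) = k}) (t : Finset X),
      (∀ x, x ∈ s ↔ (⟨q x.1, x.2⟩ : {L : K // cl L = k}) = L) → (∀ x, x ∈ t ↔ q x = L.1) →
      s.card = t.card := by
    intro s t hs ht
    refine card_sub2 s t (fun x => ?_) (fun x hx => ?_)
    · rw [hs, ht, Subtype.ext_iff]
    · rw [(ht x).1 hx]; exact L.2
  refine congrArg₂ (fun a b => a * (b - 1)) ?_ ?_
  · exact hL _ _ (fun x => by simp only [mem_filter, mem_univ, true_and])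
      (fun x => by simp only [mem_filter, mem_univ, true_and])
  · exact hL _ _ (fun x => by simp only [mem_filter, mem_univ, true_and])
      (fun x => by simp only [mem_filter, mem_univ, true_and])

end COMPX

open COMPX in
theorem p_COMP (h1 : S_cfl) (h2 : S_lab) : S_COMP := by
  intro X K _ _ q cl c u v w hc hp hu u0 u1 u2 u3
  have e1 : (0 : Fin 4) + 1 = 1 := rfl
  have e2 : (1 : Fin 4) + 1 = 2 := rfl
  have e3 : (2 : Fin 4) + 1 = 3 := rfl
  have e4 : (3 : Fin 4) + 1 = 0 := rfl
  have f1 : (0 : Fin 4) + 3 = 3 := rfl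
  have f2 : (1 : Fin 4) + 3 = 0 := rfl
  have f3 : (2 : Fin 4) + 3 = 1 := rfl
  have f4 : (3 : Fin 4) + 3 = 2 := rfl
  have hcard := CC_card q cl
  rw [Finset.sum_congr rfl fun l _ => fib h1 q cl c u v w hc hp hu u0 u1 u2 u3 l] at hcard
  constructor
  · intro hbad
    rw [hcard]
    refine Finset.sum_eq_zero fun l _ => ?_
    rw [if_neg]
    intro hcd
    have k0 := cn2 q cl c u hu l hcd 0
    have k1 := cn2 q cl c u hu l hcd 1
    rw [e1, f1] at k0
    rw [e2, f2] at k1
    omega
  · intro hv hw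
    have hs : (CC q cl).card = (∏ k, SU (GG q cl c k)) *
        ((∏ k : Fin 4, (c k - 1).factorial ^ 2) *
        ((v + 2 - (c 1 + c 3)).factorial * (w + 2 - (c 0 + c 2)).factorial)) := by
      rw [hcard, ← sum_split (fun x => cl (q x)) (fun k => GG q cl c k), Finset.sum_mul]
      refine Finset.sum_congr rfl fun l _ => ?_
      rw [prodGG q cl c hp l]
      by_cases hcd : cond q cl c l
      · rw [if_pos hcd, if_pos hcd]; ring
      · rw [if_neg hcd, if_neg hcd]; ring
    have g0 := sumGG h2 q cl c u hc hp hu 0 (by rw [e1, f1, u0]; exact hv)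
    have g1 := sumGG h2 q cl c u hc hp hu 1 (by rw [e2, f2, u1]; omega)
    have g2 := sumGG h2 q cl c u hc hp hu 2 (by rw [e3, f3, u2]; omega)
    have g3 := sumGG h2 q cl c u hc hp hu 3 (by rw [e4, f4, u3]; exact hw)
    rw [e1, f1, u0] at g0
    rw [e2, f2, u1] at g1
    rw [e3, f3, u2] at g2
    rw [e4, f4, u3] at g3
    have r1 : w + 2 - (c 2 + c 0) = w + 2 - (c 0 + c 2) := by omega
    have r2 : v + 2 - (c 3 + c 1) = v + 2 - (c 1 + c 3) := by omega
    rw [r1] at g1
    rw [r2] at g2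
    have hD : (∏ k : K, (univ.filter fun x => q x = k).card * ((univ.filter fun x => q x = k).card - 1)) =
        ∏ k : Fin 4, ∏ L : {L : K // cl L = k}, (univ.filter fun x => q x = L.1).card *
          ((univ.filter fun x => q x = L.1).card - 1) :=
      (Fintype.prod_fiberwise cl _).symm
    rw [hs, hD, Fin.prod_univ_four, Fin.prod_univ_four, Fin.prod_univ_four]
    generalize SU (GG q cl c 0) = s0 at *
    generalize SU (GG q cl c 1) = s1 at *
    generalize SU (GG q cl c 2) = s2 at *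
    generalize SU (GG q cl c 3) = s3 at *
    calc s0 * s1 * s2 * s3 * ((c 0 - 1).factorial ^ 2 * (c 1 - 1).factorial ^ 2 *
          (c 2 - 1).factorial ^ 2 * (c 3 - 1).factorial ^ 2 *
          ((v + 2 - (c 1 + c 3)).factorial * (w + 2 - (c 0 + c 2)).factorial)) *
          ((v + 2 - (c 1 + c 3)).factorial * (w + 2 - (c 0 + c 2)).factorial)
        = (s0 * ((c 1 - 1).factorial * (c 3 - 1).factorial * (v + 2 - (c 1 + c 3)).factorial)) *
          (s1 * ((c 2 - 1).factorial * (c 0 - 1).factorial * (w + 2 - (c 0 + c 2)).factorial)) *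
          (s2 * ((c 3 - 1).factorial * (c 1 - 1).factorial * (v + 2 - (c 1 + c 3)).factorial)) *
          (s3 * ((c 0 - 1).factorial * (c 2 - 1).factorial * (w + 2 - (c 0 + c 2)).factorial)) := by
            ring
      _ = _ := by
            rw [g0, g1, g2, g3]
            ring

end Pool.Agent.ALM
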