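import Pool.Agent.Lib.MP_fc2a59_co.ALM.S.Stm

set_option autoImplicit false

/-!
Project ALM, piece p_FORP: forests in four classes.  The data are transported along
equivalences `e : X ≃ Σ k, X k` (points) and `f : W ≃ Σ k, W k` (blocks).
-/

namespace Pool.Agent.ALM

open Finset
open scoped Classical

namespace FORPX

section glue

variable {I : Type} {X : Type} {Xk : I → Type} {W : Type} {Wk : I → Type} {b : X → W}
  {bk : ∀ k, Xk k → Wk k} {ρ : X → X} {ρk : ∀ k, Xk k → Xk k}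

/-- the components of a disjoint union -/
noncomputable def cmE (e : X ≃ Σ k, Xk k) (f : W ≃ Σ k, Wk k)
    (hb : ∀ x, Sigma.map id bk (e x) = f (b x)) (hρ : ∀ x, Sigma.map id ρk (e x) = e (ρ x)) :
    Cm b ρ ≃ Σ k, Cm (bk k) (ρk k) where
  toFun := Quot.lift (fun w => ⟨(f w).1, Quot.mk (lk (bk (f w).1) (ρk (f w).1)) (f w).2⟩) (by
    rintro u v ⟨x, rfl, rfl⟩
    rw [← hb, ← hb, ← hρ]
    rcases e x with ⟨k, y⟩
    exact congrArg (Sigma.mk k) (Quot.sound ⟨y, rfl, rfl⟩))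
  invFun := fun K => Quot.lift (fun w1 : Wk K.1 => Quot.mk (lk b ρ) (f.symm ⟨K.1, w1⟩)) (by
      rintro u v ⟨y, rfl, rfl⟩
      refine Quot.sound ⟨e.symm ⟨K.1, y⟩, ?_, ?_⟩
      · apply f.injective
        rw [← hb, Equiv.apply_symm_apply, Equiv.apply_symm_apply]; rfl
      · apply f.injective
        rw [← hb, ← hρ, Equiv.apply_symm_apply, Equiv.apply_symm_apply]; rfl) K.2
  left_inv := by
    intro K
    induction K using Quot.ind with
    | mk w =>
      change Quot.mk (lk b ρ) (f.symm ⟨(f w).1, (f w).2⟩) = _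
      rw [Sigma.eta, Equiv.symm_apply_apply]
  right_inv := by
    rintro ⟨k, K⟩
    induction K using Quot.ind with
    | mk w =>
      change (⟨(f (f.symm ⟨k, w⟩)).1, Quot.mk _ (f (f.symm ⟨k, w⟩)).2⟩ : Σ k, Cm (bk k) (ρk k)) = _
      rw [Equiv.apply_symm_apply]

theorem cmE_mk (e : X ≃ Σ k, Xk k) (f : W ≃ Σ k, Wk k)
    (hb : ∀ x, Sigma.map id bk (e x) = f (b x)) (hρ : ∀ x, Sigma.map id ρk (e x) = e (ρ x)) (w : W) :
    cmE e f hb hρ (Quot.mk _ w) = ⟨(f w).1, Quot.mk _ (f w).2⟩ := rfl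

theorem nc_eq [Fintype I] [Finite W] [∀ k, Finite (Wk k)] (e : X ≃ Σ k, Xk k)
    (f : W ≃ Σ k, Wk k)
    (hb : ∀ x, Sigma.map id bk (e x) = f (b x)) (hρ : ∀ x, Sigma.map id ρk (e x) = e (ρ x)) :
    nc b ρ = ∑ k, nc (bk k) (ρk k) := by
  unfold nc
  rw [Nat.card_congr (cmE e f hb hρ)]
  exact Nat.card_sigma

theorem mv_eq [Fintype I] [Fintype X] [∀ k, Fintype (Xk k)] (e : X ≃ Σ k, Xk k)
    (hρ : ∀ x, Sigma.map id ρk (e x) = e (ρ x)) : mv ρ = ∑ k, mv (ρk k) := by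
  unfold mv
  simp_rw [← Fintype.card_subtype]
  rw [← Fintype.card_sigma]
  refine Fintype.card_congr ?_
  have h1 : ∀ x, ρ x ≠ x ↔ Sigma.map id ρk (e x) ≠ e x := by
    intro x; rw [hρ]; exact not_congr e.injective.eq_iff.symm
  refine (Equiv.subtypeEquiv e h1 : _ ≃ {y : Σ k, Xk k // Sigma.map id ρk y ≠ y}).trans ?_
  refine
    { toFun := fun y => ⟨y.1.1, ⟨y.1.2, fun h' => y.2 (by
        rcases y with ⟨⟨k, z⟩, h⟩
        exact congrArg (Sigma.mk k) h')⟩⟩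
      invFun := fun y => ⟨⟨y.1, y.2.1⟩, fun h' => y.2.2 (by
        rcases y with ⟨k, z, h⟩
        exact eq_of_heq (Sigma.mk.inj_iff.1 h').2)⟩
      left_inv := ?_
      right_inv := ?_ }
  · rintro ⟨⟨k, z⟩, h⟩; rfl
  · rintro ⟨k, z, h⟩; rfl

theorem inv_iff (e : X ≃ Σ k, Xk k)
    (hρ : ∀ x, Sigma.map id ρk (e x) = e (ρ x)) : Inv ρ ↔ ∀ k, Inv (ρk k) := by
  constructor
  · intro h k y
    have h1 := h (e.symm ⟨k, y⟩)
    have h2 : Sigma.map id ρk (Sigma.map id ρk ⟨k, y⟩) = ⟨k, y⟩ := by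
      have := congrArg e h1
      rwa [← hρ, ← hρ, Equiv.apply_symm_apply] at this
    exact eq_of_heq (Sigma.mk.inj_iff.1 h2).2
  · intro h x
    apply e.injective
    rw [← hρ, ← hρ]
    rcases e x with ⟨k, y⟩
    exact congrArg (Sigma.mk k) (h k y)

theorem fp_eq [Fintype X] [∀ k, Fintype (Xk k)] (e : X ≃ Σ k, Xk k) (f : W ≃ Σ k, Wk k)
    (hb : ∀ x, Sigma.map id bk (e x) = f (b x)) (hρ : ∀ x, Sigma.map id ρk (e x) = e (ρ x))
    (K : Cm b ρ) (k : I) (K1 : Cm (bk k) (ρk k)) (hK : cmE e f hb hρ K = ⟨k, K1⟩) :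
    fp b ρ K = fp (bk k) (ρk k) K1 := by
  unfold fp
  symm
  refine Finset.card_bij (fun y _ => ⟨e.symm ⟨k, y.1⟩, ?_⟩) ?_ ?_ ?_
  · apply e.injective
    rw [← hρ, Equiv.apply_symm_apply]
    exact congrArg (Sigma.mk k) y.2
  · intro y hy
    rw [mem_filter] at hy ⊢
    refine ⟨mem_univ _, (cmE e f hb hρ).injective ?_⟩
    unfold qm
    rw [hK, cmE_mk, ← hb, Equiv.apply_symm_apply]
    exact congrArg (Sigma.mk k) hy.2
  · intro y _ y' _ h
    have h1 := congrArg (fun z : Fx ρ => e z.1) h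
    simp only [Equiv.apply_symm_apply] at h1
    exact Subtype.ext (eq_of_heq (Sigma.mk.inj_iff.1 h1).2)
  · intro x hx
    rw [mem_filter] at hx
    have h1 := hx.2
    have h2 : (⟨(f (b x.1)).1, Quot.mk _ (f (b x.1)).2⟩ : Σ k, Cm (bk k) (ρk k)) = ⟨k, K1⟩ := by
      rw [← hK, ← h1]; rfl
    rw [← hb] at h2
    rcases hy : e x.1 with ⟨l, y⟩
    rw [hy] at h2
    obtain ⟨h4, h5⟩ := Sigma.mk.inj_iff.1 h2
    change l = k at h4
    subst h4
    have h3 : ρk l y = y := by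
      have := hρ x.1
      rw [x.2, hy] at this
      exact eq_of_heq (Sigma.mk.inj_iff.1 this).2
    refine ⟨⟨y, h3⟩, ?_, ?_⟩
    · rw [mem_filter]
      exact ⟨mem_univ _, eq_of_heq h5⟩
    · apply Subtype.ext
      change e.symm ⟨l, y⟩ = x.1
      rw [← hy, Equiv.symm_apply_apply]

/-- the weight of a forest -/
noncomputable def wt {X W : Type} [Fintype X] [Finite W] (b : X → W) (ρ : X → X) : ℕ :=
  ∏ K : Cm b ρ, fp b ρ K * (fp b ρ K - 1)

theorem wt_eq [Fintype I] [Fintype X] [∀ k, Fintype (Xk k)] [Finite W] [∀ k, Finite (Wk k)]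
    (e : X ≃ Σ k, Xk k) (f : W ≃ Σ k, Wk k)
    (hb : ∀ x, Sigma.map id bk (e x) = f (b x)) (hρ : ∀ x, Sigma.map id ρk (e x) = e (ρ x)) :
    wt b ρ = ∏ k, wt (bk k) (ρk k) := by
  unfold wt
  rw [Fintype.prod_equiv (cmE e f hb hρ) (fun K => fp b ρ K * (fp b ρ K - 1))
    (fun K => fp (bk K.1) (ρk K.1) K.2 * (fp (bk K.1) (ρk K.1) K.2 - 1)) ?_]
  · rw [← Finset.univ_sigma_univ, Finset.prod_sigma]
  · intro K
    rw [fp_eq e f hb hρ K (cmE e f hb hρ K).1 (cmE e f hb hρ K).2 rfl]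

/-- the number of components of class `k` -/
theorem card_clq [Fintype X] [Finite W] [∀ k, Finite (Wk k)]
    (e : X ≃ Σ k, Xk k) (f : W ≃ Σ k, Wk k)
    (hb : ∀ x, Sigma.map id bk (e x) = f (b x)) (hρ : ∀ x, Sigma.map id ρk (e x) = e (ρ x))
    (cl : W → I) (hcl : ∀ w, (f w).1 = cl w) (k : I) :
    Nat.card {K : Cm b ρ // cl (Quot.out K) = k} = nc (bk k) (ρk k) := by
  unfold nc
  refine Nat.card_congr ?_
  have h1 : ∀ K : Cm b ρ, cl (Quot.out K) = k ↔ (cmE e f hb hρ K).1 = k := by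
    intro K
    have h2 : cmE e f hb hρ K = ⟨(f (Quot.out K)).1, Quot.mk _ (f (Quot.out K)).2⟩ := by
      rw [← cmE_mk e f hb hρ, Quot.out_eq]
    rw [h2, ← hcl]
  refine (Equiv.subtypeEquiv (cmE e f hb hρ) h1 :
    _ ≃ {y : Σ k, Cm (bk k) (ρk k) // y.1 = k}).trans ?_
  exact
    { toFun := fun y => y.2 ▸ y.1.2
      invFun := fun y => ⟨⟨k, y⟩, rfl⟩
      left_inv := by rintro ⟨⟨l, z⟩, h⟩; change l = k at h; subst h; rfl
      right_inv := fun y => rfl }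

/-- forests -/
theorem for_iff (h3 : S_ncle) [Fintype I] [Fintype X] [∀ k, Fintype (Xk k)] [Fintype W]
    [∀ k, Fintype (Wk k)]
    (e : X ≃ Σ k, Xk k) (f : W ≃ Σ k, Wk k)
    (hb : ∀ x, Sigma.map id bk (e x) = f (b x)) (hρ : ∀ x, Sigma.map id ρk (e x) = e (ρ x)) :
    For b ρ ↔ ∀ k, For (bk k) (ρk k) := by
  have hnc := nc_eq e f hb hρ
  have hmv := mv_eq e hρ
  have hcard : Fintype.card W = ∑ k, Fintype.card (Wk k) := by
    rw [Fintype.card_congr f, Fintype.card_sigma]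
  unfold For
  rw [inv_iff e hρ, hnc, hmv, hcard, mul_sum, mul_sum, ← sum_add_distrib]
  constructor
  · rintro ⟨h1, h2⟩
    have h4 : ∀ k ∈ (univ : Finset I), 2 * Fintype.card (Wk k) ≤ mv (ρk k) + 2 * nc (bk k) (ρk k) :=
      fun k _ => h3 _ _ (bk k) (ρk k) (h1 k)
    have h5 := (Finset.sum_eq_sum_iff_of_le h4).1 h2.symm
    exact fun k => ⟨h1 k, (h5 k (mem_univ k)).symm⟩
  · intro h
    exact ⟨fun k => (h k).1, sum_congr rfl fun k _ => (h k).2⟩

end glue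

/-- the forests with `c` components -/
noncomputable def FT (W : Type) [Fintype W] (c : ℕ) : Finset (Pt W → Pt W) :=
  univ.filter fun ρ : Pt W → Pt W => For Prod.fst ρ ∧ nc Prod.fst ρ = c

theorem mem_FT {W : Type} [Fintype W] {c : ℕ} {ρ : Pt W → Pt W} :
    ρ ∈ FT W c ↔ For Prod.fst ρ ∧ nc Prod.fst ρ = c := by
  rw [FT, mem_filter]
  exact ⟨fun h => h.2, fun h => ⟨mem_univ _, h⟩⟩

theorem FF_eq (W : Type) [Fintype W] (c : ℕ) : FF W c = ∑ ρ ∈ FT W c, wt Prod.fst ρ := rfl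

end FORPX

open FORPX in
theorem p_FORP (_h1 : S_blk) (_h2 : S_inv) (h3 : S_ncle) : S_FORP := by
  intro V _ cl c
  let f : V ≃ Σ k, {v : V // cl v = k} := (Equiv.sigmaFiberEquiv cl).symm
  have hcl : ∀ v, (f v).1 = cl v := fun v => rfl
  have hf : ∀ v, f v = ⟨cl v, ⟨v, rfl⟩⟩ := fun v => rfl
  let e : Pt V ≃ Σ k, Pt {v : V // cl v = k} :=
    { toFun := fun x => ⟨cl x.1, (⟨x.1, rfl⟩, x.2)⟩
      invFun := fun y => (y.2.1.1, y.2.2)
      left_inv := fun x => rfl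
      right_inv := by
        rintro ⟨k, ⟨v, hv⟩, i⟩
        subst hv
        rfl }
  have hb : ∀ x : Pt V, Sigma.map id (fun k => (Prod.fst : Pt {v : V // cl v = k} → _)) (e x)
      = f x.1 := fun x => rfl
  let gl : (∀ k, Pt {v : V // cl v = k} → Pt {v : V // cl v = k}) → (Pt V → Pt V) :=
    fun p x => e.symm (Sigma.map id p (e x))
  have hgl : ∀ p x, Sigma.map id p (e x) = e (gl p x) := by
    intro p x
    exact (e.apply_symm_apply _).symm
  rw [Finset.prod_congr rfl fun k _ => FF_eq {v : V // cl v = k} (c k), Finset.prod_univ_sum]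
  symm
  refine Finset.sum_bij (fun p _ => gl p) ?_ ?_ ?_ ?_
  · intro p hp
    rw [Fintype.mem_piFinset] at hp
    have hp' : ∀ k, For Prod.fst (p k) ∧ nc Prod.fst (p k) = c k := fun k => mem_FT.1 (hp k)
    rw [mem_filter, RF, mem_filter]
    refine ⟨⟨@Finset.mem_univ _ (_) _, (for_iff h3 e f hb (hgl p)).2 fun k => (hp' k).1, fun x => ?_⟩, fun k => ?_⟩
    · have h1 : (e (gl p x)).1 = (e x).1 := by rw [← hgl]; rfl
      exact h1
    · rw [← (hp' k).2, ← Fintype.card_subtype, ← Nat.card_eq_fintype_card]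
      exact card_clq e f hb (hgl p) cl hcl k
  · intro p _ p' _ h
    funext k y
    have h1 := congrArg e (congrFun h (e.symm ⟨k, y⟩))
    rw [← hgl, ← hgl, Equiv.apply_symm_apply] at h1
    exact eq_of_heq (Sigma.mk.inj_iff.1 h1).2
  · intro ρ hρ0
    rw [mem_filter, RF, mem_filter] at hρ0
    obtain ⟨⟨_, hF, hc⟩, hn⟩ := hρ0
    let p : ∀ k, Pt {v : V // cl v = k} → Pt {v : V // cl v = k} := fun k y =>
      (⟨(ρ (y.1.1, y.2)).1, (hc (y.1.1, y.2)).trans y.1.2⟩, (ρ (y.1.1, y.2)).2)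
    have hp : ∀ x, Sigma.map id p (e x) = e (ρ x) := by
      intro x
      have h1 : cl (ρ x).1 = cl x.1 := hc x
      show (⟨cl x.1, (⟨(ρ x).1, _⟩, (ρ x).2)⟩ : Σ k, Pt {v : V // cl v = k})
        = ⟨cl (ρ x).1, (⟨(ρ x).1, rfl⟩, (ρ x).2)⟩
      apply e.symm.injective
      rfl
    refine ⟨p, ?_, ?_⟩
    · rw [Fintype.mem_piFinset]
      intro k
      rw [mem_FT]
      refine ⟨(for_iff h3 e f hb hp).1 hF k, ?_⟩
      have h6 := hn k
      rw [← Fintype.card_subtype, ← Nat.card_eq_fintype_card] at h6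
      exact (card_clq e f hb hp cl hcl k).symm.trans h6
    · funext x
      change e.symm (Sigma.map id p (e x)) = ρ x
      rw [hp, Equiv.symm_apply_apply]
  · intro p hp
    exact (wt_eq e f hb (hgl p)).symm

end Pool.Agent.ALM
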