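import Pool.Agent.Lib.MP_fc2a59_co.ALM.S.Stm

set_option autoImplicit false

namespace Pool.Agent.ALM

open Finset
open scoped Classical

namespace NAAX

variable {V : Type} [Fintype V]

/-- the vertices of class `k` -/
noncomputable def Ak (cl : V → Fin 4) (k : Fin 4) : Finset V := univ.filter fun x => cl x = k

/-- number of components of class `k` -/
noncomputable def ck (cl : V → Fin 4) (ρ : Pt V → Pt V) (k : Fin 4) : ℕ :=
  (univ.filter fun K => clq Prod.fst cl ρ K = k).card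

lemma mem_Ak (cl : V → Fin 4) (k : Fin 4) (x : V) : x ∈ Ak cl k ↔ cl x = k := by simp [Ak]

lemma inv_Ak {cl : V → Fin 4} {ρ : Pt V → Pt V} (hρ : ρ ∈ RF (Prod.fst : Pt V → V) cl) (k : Fin 4)
    (x : Pt V) : (ρ x).1 ∈ Ak cl k ↔ x.1 ∈ Ak cl k := by
  have h := (mem_filter.mp hρ).2.2 x
  rw [mem_Ak, mem_Ak, h]

lemma clq_mk (h5 : S_blk) {cl : V → Fin 4} {ρ : Pt V → Pt V}
    (hρ : ρ ∈ RF (Prod.fst : Pt V → V) cl) (x : V) :
    clq Prod.fst cl ρ (Quot.mk _ x) = cl x := by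
  have hF := (mem_filter.mp hρ).2.1
  have h := (h5 (Pt V) V Prod.fst ρ (Ak cl (cl x)) hF.1 (fun y => inv_Ak hρ _ y)).2.2.2.1 x
  rw [mem_Ak, mem_Ak] at h
  exact h.mpr rfl

lemma nc_Ak (h5 : S_blk) {cl : V → Fin 4} {ρ : Pt V → Pt V}
    (hρ : ρ ∈ RF (Prod.fst : Pt V → V) cl) (k : Fin 4) :
    nc (bl Prod.fst (Ak cl k)) (rs (fun x : Pt V => x.1 ∈ Ak cl k) ρ) = ck cl ρ k := by
  have hF := (mem_filter.mp hρ).2.1
  obtain ⟨-, -, -, -, ⟨e, -⟩⟩ := h5 (Pt V) V Prod.fst ρ (Ak cl k) hF.1 (fun y => inv_Ak hρ _ y)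
  unfold nc
  rw [Nat.card_congr e, Nat.card_eq_fintype_card, Fintype.card_subtype]
  unfold ck clq
  congr 1
  ext K
  simp [mem_Ak]

/-- number of moved points of class `k` -/
noncomputable def mk (cl : V → Fin 4) (ρ : Pt V → Pt V) (k : Fin 4) : ℕ :=
  (univ.filter fun x : Pt V => ρ x ≠ x ∧ x.1 ∈ Ak cl k).card

lemma sum_fib {Y : Type} [Fintype Y] (g : Y → Fin 4) (P : Y → Prop) :
    ∑ k : Fin 4, (univ.filter fun y => P y ∧ g y = k).card = (univ.filter fun y => P y).card := by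
  rw [Finset.card_eq_sum_card_fiberwise (f := g) (t := univ) (s := univ.filter fun y => P y)
    (fun _ _ => mem_coe.mpr (mem_univ _))]
  refine sum_congr rfl fun k _ => ?_
  rw [filter_filter]

lemma key (h5 : S_blk) (h6 : S_ncle) {cl : V → Fin 4} {ρ : Pt V → Pt V}
    (hρ : ρ ∈ RF (Prod.fst : Pt V → V) cl) (k : Fin 4) :
    mk cl ρ k + 2 * ck cl ρ k = 2 * (Ak cl k).card := by
  have hF := (mem_filter.mp hρ).2.1
  have hle : ∀ k, 2 * (Ak cl k).card ≤ mk cl ρ k + 2 * ck cl ρ k := by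
    intro k
    obtain ⟨-, hI, hm, -, -⟩ := h5 (Pt V) V Prod.fst ρ (Ak cl k) hF.1 (fun y => inv_Ak hρ _ y)
    have h := h6 {x : Pt V // x.1 ∈ Ak cl k} {v : V // v ∈ Ak cl k} (bl Prod.fst (Ak cl k))
      (rs (fun x : Pt V => x.1 ∈ Ak cl k) ρ) hI
    rw [nc_Ak h5 hρ k, hm] at h
    simpa [mk, Fintype.card_coe] using h
  have hs1 : ∑ k, (Ak cl k).card = Fintype.card V := by
    have := sum_fib (Y := V) cl (fun _ => True)
    simpa [Ak] using this
  have hs2 : ∑ k, mk cl ρ k = mv ρ := by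
    have := sum_fib (Y := Pt V) (fun x => cl x.1) (fun x => ρ x ≠ x)
    simpa [mk, mv, Ak] using this
  have hs3 : ∑ k, ck cl ρ k = nc Prod.fst ρ := by
    have := sum_fib (Y := Cm (Prod.fst : Pt V → V) ρ) (fun K => clq Prod.fst cl ρ K) (fun _ => True)
    rw [nc, Nat.card_eq_fintype_card]
    simpa [ck] using this
  have htot : ∑ k, (mk cl ρ k + 2 * ck cl ρ k) = ∑ k, 2 * (Ak cl k).card := by
    rw [sum_add_distrib, ← mul_sum, ← mul_sum, hs1, hs2, hs3]
    exact hF.2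
  have := (Finset.sum_eq_sum_iff_of_le (s := univ) (fun k _ => hle k)).mp htot.symm
  exact (this k (mem_univ k)).symm

/-- free points of class `k` -/
lemma free (h5 : S_blk) (h6 : S_ncle) {cl : V → Fin 4} {ρ : Pt V → Pt V}
    (hρ : ρ ∈ RF (Prod.fst : Pt V → V) cl) (k : Fin 4) :
    (univ.filter fun x : Fx ρ => clq Prod.fst cl ρ (qm Prod.fst ρ x) = k).card =
      (Ak cl k).card + 2 * ck cl ρ k := by
  have h1 : (univ.filter fun x : Fx ρ => clq Prod.fst cl ρ (qm Prod.fst ρ x) = k).card =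
      (univ.filter fun x : Pt V => ρ x = x ∧ x.1 ∈ Ak cl k).card := by
    refine card_bij (fun x _ => x.1) ?_ ?_ ?_
    · intro x hx
      have hx' := (mem_filter.mp hx).2
      have : clq Prod.fst cl ρ (qm Prod.fst ρ x) = cl x.1.1 := clq_mk h5 hρ _
      rw [this] at hx'
      simp only [mem_filter, mem_univ, true_and, mem_Ak]
      exact ⟨x.2, hx'⟩
    · intro x _ y _ h
      exact Subtype.ext h
    · intro x hx
      obtain ⟨h1, h2⟩ := (mem_filter.mp hx).2
      refine ⟨⟨x, h1⟩, ?_, rfl⟩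
      simp only [mem_filter, mem_univ, true_and]
      have : clq Prod.fst cl ρ (qm Prod.fst ρ ⟨x, h1⟩) = cl x.1 := clq_mk h5 hρ _
      rw [this]
      exact (mem_Ak _ _ _).mp h2
  have h2 : (univ.filter fun x : Pt V => ρ x = x ∧ x.1 ∈ Ak cl k).card + mk cl ρ k =
      3 * (Ak cl k).card := by
    unfold mk
    have h3 : (univ.filter fun x : Pt V => x.1 ∈ Ak cl k).card = 3 * (Ak cl k).card := by
      have : (univ.filter fun x : Pt V => x.1 ∈ Ak cl k) = (Ak cl k) ×ˢ (univ : Finset (Fin 3)) := by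
        ext x; simp
      rw [this, card_product]; simp [mul_comm]
    rw [← h3, ← card_union_of_disjoint]
    · congr 1
      ext x
      simp only [mem_union, mem_filter, mem_univ, true_and]
      tauto
    · rw [disjoint_filter]
      intro x _ h h'
      exact h'.1 h.1
  have h3 := key h5 h6 hρ k
  rw [h1]
  omega

/-- the class sizes as a function -/
def uu (v w : ℕ) : Fin 4 → ℕ := ![v, w, v, w]

lemma card_Ak {cl : V → Fin 4} {v w : ℕ}
    (e0 : (univ.filter fun x => cl x = 0).card = v) (e1 : (univ.filter fun x => cl x = 1).card = w)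
    (e2 : (univ.filter fun x => cl x = 2).card = v) (e3 : (univ.filter fun x => cl x = 3).card = w)
    (k : Fin 4) : (Ak cl k).card = uu v w k := by
  fin_cases k
  · exact e0
  · exact e1
  · exact e2
  · exact e3

/-- the weight of a forest -/
noncomputable def wt (ρ : Pt V → Pt V) : ℕ :=
  ∏ K : Cm (Prod.fst : Pt V → V) ρ, fp Prod.fst ρ K * (fp Prod.fst ρ K - 1)

/-- the factor depending on the numbers of components -/
noncomputable def GG (v w : ℕ) (t : (ℕ × ℕ) × (ℕ × ℕ)) : ℝ :=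
  (if t.1.1 + t.1.2 ≤ w + 2 then (v.factorial : ℝ) ^ 2 / ((w + 2 - (t.1.1 + t.1.2)).factorial : ℝ) else 0) *
  (if t.2.1 + t.2.2 ≤ v + 2 then (w.factorial : ℝ) ^ 2 / ((v + 2 - (t.2.1 + t.2.2)).factorial : ℝ) else 0)

/-- numbers of components as a quadruple -/
noncomputable def gt (cl : V → Fin 4) (ρ : Pt V → Pt V) : (ℕ × ℕ) × (ℕ × ℕ) :=
  ((ck cl ρ 0, ck cl ρ 2), (ck cl ρ 1, ck cl ρ 3))

lemma summand (h2 : S_COMP) (h5 : S_blk) (h6 : S_ncle) {cl : V → Fin 4} {ρ : Pt V → Pt V}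
    (hρ : ρ ∈ RF (Prod.fst : Pt V → V) cl) {v w : ℕ} (hv : 0 < v) (hw : 0 < w)
    (hA : ∀ k, (Ak cl k).card = uu v w k) :
    ((CC (qm Prod.fst ρ) (clq Prod.fst cl ρ)).card : ℝ) = GG v w (gt cl ρ) * (wt ρ : ℝ) := by
  have hpos : ∀ k, 0 < ck cl ρ k := by
    intro k
    have h0 : 0 < (Ak cl k).card := by
      rw [hA k]; fin_cases k <;> simp [uu, hv, hw]
    obtain ⟨x, hx⟩ := card_pos.mp h0
    rw [mem_Ak] at hx
    refine card_pos.mpr ⟨Quot.mk _ x, ?_⟩
    simp only [mem_filter, mem_univ, true_and]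
    rw [clq_mk h5 hρ, hx]
  have hfree : ∀ k, (univ.filter fun x : Fx ρ => clq Prod.fst cl ρ (qm Prod.fst ρ x) = k).card =
      uu v w k + 2 * ck cl ρ k := by
    intro k; rw [free h5 h6 hρ k, hA k]
  obtain ⟨hz, hf⟩ := h2 (Fx ρ) (Cm (Prod.fst : Pt V → V) ρ) (qm Prod.fst ρ) (clq Prod.fst cl ρ)
    (ck cl ρ) (uu v w) v w (fun k => rfl) hpos hfree rfl rfl rfl rfl
  unfold GG gt
  by_cases c1 : ck cl ρ 0 + ck cl ρ 2 ≤ w + 2
  · by_cases c2 : ck cl ρ 1 + ck cl ρ 3 ≤ v + 2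
    · have h := hf c2 c1
      have hwt : (∏ k : Cm (Prod.fst : Pt V → V) ρ, (univ.filter fun x => qm Prod.fst ρ x = k).card *
          ((univ.filter fun x => qm Prod.fst ρ x = k).card - 1)) = wt ρ := by
        unfold wt fp
        refine Finset.prod_congr rfl fun K _ => ?_
        refine congrArg (fun k : ℕ => k * (k - 1)) (congrArg Finset.card ?_)
        ext x
        simp
      rw [hwt] at h
      have h' : ((CC (qm Prod.fst ρ) (clq Prod.fst cl ρ)).card : ℝ) *
          (((v + 2 - (ck cl ρ 1 + ck cl ρ 3)).factorial : ℝ) *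
            ((w + 2 - (ck cl ρ 0 + ck cl ρ 2)).factorial : ℝ)) =
          (wt ρ : ℝ) * ((v.factorial : ℝ) ^ 2 * (w.factorial : ℝ) ^ 2) := by exact_mod_cast h
      simp only [c1, c2, if_true]
      have e1 : ((v + 2 - (ck cl ρ 1 + ck cl ρ 3)).factorial : ℝ) ≠ 0 := by positivity
      have e2 : ((w + 2 - (ck cl ρ 0 + ck cl ρ 2)).factorial : ℝ) ≠ 0 := by positivity
      field_simp
      linarith
    · rw [hz (Or.inl (by omega))]
      simp [c2]
  · rw [hz (Or.inr (by omega))]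
    simp [c1]

lemma tri (N R : ℕ) (hR : N < R) (f : ℕ → ℕ → ℝ) :
    ∑ t ∈ range R ×ˢ range R, (if t.1 + t.2 ≤ N then f t.1 t.2 else 0) =
      ∑ c ∈ range (N + 1), ∑ c' ∈ range (N + 1 - c), f c c' := by
  rw [sum_product]
  have h1 : range (N + 1) ⊆ range R := by
    intro x hx; rw [mem_range] at *; omega
  rw [← sum_subset h1]
  · refine sum_congr rfl fun c hc => ?_
    rw [mem_range] at hc
    have h2 : range (N + 1 - c) ⊆ range R := by
      intro x hx; rw [mem_range] at *; omega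
    rw [← sum_subset h2]
    · refine sum_congr rfl fun c' hc' => ?_
      rw [mem_range] at hc'
      rw [if_pos (by omega)]
    · intro c' _ hc'
      rw [mem_range, not_lt] at hc'
      exact if_neg (by simp only; omega)
  · intro c _ hc
    rw [mem_range, not_lt] at hc
    refine sum_eq_zero fun c' _ => if_neg (by simp only; omega)

lemma BB_eq (N w R : ℕ) (hR : N < R) :
    BB N w = ∑ t ∈ range R ×ˢ range R, (if t.1 + t.2 ≤ N then
      (N.factorial : ℝ) / ((t.1.factorial : ℝ) * (t.2.factorial : ℝ) * ((N - t.1 - t.2).factorial : ℝ)) *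
      co w t.1 * co w t.2 else 0) := by
  rw [tri N R hR (fun c c' => (N.factorial : ℝ) / ((c.factorial : ℝ) * (c'.factorial : ℝ) *
    ((N - c - c').factorial : ℝ)) * co w c * co w c')]
  rfl

/-- independence of the instances -/
theorem CC_inst {X V : Type} (i j : Fintype X) (k l : Fintype V) (b : X → V) (cl : V → Fin 4) :
    (@CC X V i k b cl).card = (@CC X V j l b cl).card := by
  have h1 : i = j := Subsingleton.elim _ _
  have h2 : k = l := Subsingleton.elim _ _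
  subst h1
  subst h2
  rfl

end NAAX

open NAAX

theorem p_NAA (h1 : S_SPL) (h2 : S_COMP) (h3 : S_FORP) (h4 : S_FOR) (h5 : S_blk) (h6 : S_ncle) :
    S_NAA := by
  intro V _ cl v w hv hw e0 e1 e2 e3
  have hA : ∀ k, (Ak cl k).card = uu v w k := card_Ak e0 e1 e2 e3
  rw [h1 (Pt V) V Prod.fst cl, Nat.cast_sum]
  trans ∑ ρ ∈ RF (Prod.fst : Pt V → V) cl, GG v w (gt cl ρ) * (wt ρ : ℝ)
  · refine sum_congr rfl fun ρ hρ => ?_
    rw [← summand h2 h5 h6 hρ hv hw hA]
    refine congrArg (fun k : ℕ => (k : ℝ)) ?_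
    exact CC_inst _ _ _ _ _ _
  set R : ℕ := Fintype.card V + v + w + 3 with hR
  have hck : ∀ (ρ : Pt V → Pt V) k, ck cl ρ k ≤ Fintype.card V := by
    intro ρ k
    refine (card_le_univ _).trans ?_
    exact Fintype.card_le_of_surjective (Quot.mk (lk Prod.fst ρ)) Quot.mk_surjective
  have hmaps : ∀ ρ ∈ RF (Prod.fst : Pt V → V) cl,
      gt cl ρ ∈ (range R ×ˢ range R) ×ˢ (range R ×ˢ range R) := by
    intro ρ _
    have := hck ρ
    simp only [gt, mem_product, mem_range]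
    refine ⟨⟨?_, ?_⟩, ⟨?_, ?_⟩⟩
    · have := hck ρ 0; omega
    · have := hck ρ 2; omega
    · have := hck ρ 1; omega
    · have := hck ρ 3; omega
  rw [← sum_fiberwise_of_maps_to hmaps]
  have hin : ∀ t ∈ (range R ×ˢ range R) ×ˢ (range R ×ˢ range R),
      ∑ ρ ∈ (RF (Prod.fst : Pt V → V) cl).filter (fun ρ => gt cl ρ = t), GG v w (gt cl ρ) * (wt ρ : ℝ) =
      (if t.1.1 + t.1.2 ≤ w + 2 then
        (v.factorial : ℝ) ^ 4 / ((w + 2).factorial : ℝ) *
        (((w + 2).factorial : ℝ) / ((t.1.1.factorial : ℝ) * (t.1.2.factorial : ℝ) *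
          ((w + 2 - t.1.1 - t.1.2).factorial : ℝ)) * co v t.1.1 * co v t.1.2) else 0) *
      (if t.2.1 + t.2.2 ≤ v + 2 then
        (w.factorial : ℝ) ^ 4 / ((v + 2).factorial : ℝ) *
        (((v + 2).factorial : ℝ) / ((t.2.1.factorial : ℝ) * (t.2.2.factorial : ℝ) *
          ((v + 2 - t.2.1 - t.2.2).factorial : ℝ)) * co w t.2.1 * co w t.2.2) else 0) := by
    intro t _
    have s1 : ∑ ρ ∈ (RF (Prod.fst : Pt V → V) cl).filter (fun ρ => gt cl ρ = t),
        GG v w (gt cl ρ) * (wt ρ : ℝ) =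
        GG v w t * ∑ ρ ∈ (RF (Prod.fst : Pt V → V) cl).filter (fun ρ => gt cl ρ = t), (wt ρ : ℝ) := by
      rw [mul_sum]
      refine sum_congr rfl fun ρ hρ => ?_
      rw [(mem_filter.mp hρ).2]
    have s2 : (RF (Prod.fst : Pt V → V) cl).filter (fun ρ => gt cl ρ = t) =
        (RF (Prod.fst : Pt V → V) cl).filter
          (fun ρ => ∀ k, (univ.filter fun K => clq Prod.fst cl ρ K = k).card =
            (![t.1.1, t.2.1, t.1.2, t.2.2] : Fin 4 → ℕ) k) := by
      refine filter_congr fun ρ _ => ?_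
      obtain ⟨⟨a, b⟩, ⟨c, d⟩⟩ := t
      simp only [gt, ck, Prod.mk.injEq]
      constructor
      · rintro ⟨⟨ha, hb⟩, ⟨hc, hd⟩⟩ k
        fin_cases k
        · exact ha
        · exact hc
        · exact hb
        · exact hd
      · intro h
        exact ⟨⟨h 0, h 2⟩, ⟨h 1, h 3⟩⟩
    have s3 : (∑ ρ ∈ (RF (Prod.fst : Pt V → V) cl).filter (fun ρ => gt cl ρ = t), (wt ρ : ℝ)) =
        ∏ k : Fin 4, ((uu v w k).factorial : ℝ) /
          (((![t.1.1, t.2.1, t.1.2, t.2.2] : Fin 4 → ℕ) k).factorial : ℝ) *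
          co (uu v w k) ((![t.1.1, t.2.1, t.1.2, t.2.2] : Fin 4 → ℕ) k) := by
      have h := h3 V cl ![t.1.1, t.2.1, t.1.2, t.2.2]
      have h' : (∑ ρ ∈ (RF (Prod.fst : Pt V → V) cl).filter
          (fun ρ => ∀ k, (univ.filter fun K => clq Prod.fst cl ρ K = k).card =
            (![t.1.1, t.2.1, t.1.2, t.2.2] : Fin 4 → ℕ) k), (wt ρ : ℝ)) =
          ∏ k : Fin 4, (FF {v : V // cl v = k} ((![t.1.1, t.2.1, t.1.2, t.2.2] : Fin 4 → ℕ) k) : ℝ) := by
        rw [← Nat.cast_sum, ← Nat.cast_prod]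
        exact_mod_cast h
      rw [s2, h']
      refine prod_congr rfl fun k _ => ?_
      rw [h4 {v : V // cl v = k}]
      have hc : Fintype.card {v : V // cl v = k} = uu v w k := by
        rw [Fintype.card_subtype, ← hA k]; rfl
      rw [hc]
    rw [s1, s3]
    rw [Fin.prod_univ_four]
    obtain ⟨⟨a, b⟩, ⟨c, d⟩⟩ := t
    simp only [uu, GG]
    change _ * (((v.factorial : ℝ) / (a.factorial : ℝ) * co v a) *
      ((w.factorial : ℝ) / (c.factorial : ℝ) * co w c) *
      ((v.factorial : ℝ) / (b.factorial : ℝ) * co v b) *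
      ((w.factorial : ℝ) / (d.factorial : ℝ) * co w d)) = _
    have q1 : ((w + 2).factorial : ℝ) ≠ 0 := by positivity
    have q2 : ((v + 2).factorial : ℝ) ≠ 0 := by positivity
    by_cases c1 : a + b ≤ w + 2
    · by_cases c2 : c + d ≤ v + 2
      · simp only [c1, c2, if_true]
        rw [Nat.sub_sub, Nat.sub_sub]
        field_simp
      · simp [c2]
    · simp [c1]
  rw [sum_congr rfl hin, sum_product]
  simp only
  rw [← sum_mul_sum]
  rw [BB_eq (v + 2) w R (by omega), BB_eq (w + 2) v R (by omega)]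
  have f1 : ∑ t ∈ range R ×ˢ range R, (if t.1 + t.2 ≤ w + 2 then
        (v.factorial : ℝ) ^ 4 / ((w + 2).factorial : ℝ) *
        (((w + 2).factorial : ℝ) / ((t.1.factorial : ℝ) * (t.2.factorial : ℝ) *
          ((w + 2 - t.1 - t.2).factorial : ℝ)) * co v t.1 * co v t.2) else 0) =
      (v.factorial : ℝ) ^ 4 / ((w + 2).factorial : ℝ) *
      ∑ t ∈ range R ×ˢ range R, (if t.1 + t.2 ≤ w + 2 then
        ((w + 2).factorial : ℝ) / ((t.1.factorial : ℝ) * (t.2.factorial : ℝ) *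
          ((w + 2 - t.1 - t.2).factorial : ℝ)) * co v t.1 * co v t.2 else 0) := by
    rw [mul_sum]
    refine sum_congr rfl fun t _ => ?_
    split_ifs <;> simp
  have f2 : ∑ t ∈ range R ×ˢ range R, (if t.1 + t.2 ≤ v + 2 then
        (w.factorial : ℝ) ^ 4 / ((v + 2).factorial : ℝ) *
        (((v + 2).factorial : ℝ) / ((t.1.factorial : ℝ) * (t.2.factorial : ℝ) *
          ((v + 2 - t.1 - t.2).factorial : ℝ)) * co w t.1 * co w t.2) else 0) =
      (w.factorial : ℝ) ^ 4 / ((v + 2).factorial : ℝ) *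
      ∑ t ∈ range R ×ˢ range R, (if t.1 + t.2 ≤ v + 2 then
        ((v + 2).factorial : ℝ) / ((t.1.factorial : ℝ) * (t.2.factorial : ℝ) *
          ((v + 2 - t.1 - t.2).factorial : ℝ)) * co w t.1 * co w t.2 else 0) := by
    rw [mul_sum]
    refine sum_congr rfl fun t _ => ?_
    split_ifs <;> simp
  rw [f1, f2]
  ring

end Pool.Agent.ALM
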