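import Pool.Agent.Lib.MP_fc2a59_co.ALM.S.Stm

set_option autoImplicit false

namespace Pool.Agent.ALM

open Finset
open scoped Classical

namespace SPLX

private lemma mf {A : Type} (p : A → Prop) (i : DecidablePred p) (s : Finset A) (a : A) :
    a ∈ @Finset.filter A p i s ↔ a ∈ s ∧ p a := @Finset.mem_filter A p i s a

private lemma mu {A : Type} (i : Fintype A) (a : A) : a ∈ @Finset.univ A i ↔ True :=
  ⟨fun _ => trivial, fun _ => @Finset.mem_univ A i a⟩

private lemma mem_two {V : Type} [Fintype V] {cl : V → Fin 4} {k : Fin 4} {v : V} :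
    v ∈ two cl k ↔ cl v = k ∨ cl v = k + 1 := by
  rw [two, mf, mu, true_and]

private lemma mem_prs' {X : Type} [Fintype X] {σ : X → X} : σ ∈ prs X ↔ IsPr σ := by
  rw [prs, mf, mu, true_and]

private lemma mem_RF {X V : Type} [Fintype X] [Fintype V] {b : X → V} {cl : V → Fin 4}
    {ρ : X → X} : ρ ∈ RF b cl ↔ For b ρ ∧ ∀ x, cl (b (ρ x)) = cl (b x) := by
  rw [RF, mf, mu, true_and]

private lemma mem_CC {X V : Type} [Fintype X] [Fintype V] {b : X → V} {cl : V → Fin 4}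
    {τ : X → X} : τ ∈ CC b cl ↔
      IsPr τ ∧ (∀ x, cl (b (τ x)) ≠ cl (b x)) ∧ ∀ k, TreeOn b τ (two cl k) := by
  rw [CC, mf, mem_prs']

private lemma treInv (h3 : S_inv) {X W X' W' : Type} (i1 : Fintype X) (i2 : Fintype W)
    (i3 : Fintype X') (i4 : Fintype W') (b : X → W) (b' : X' → W') (ρ : X → X) (ρ' : X' → X')
    (e : X ≃ X') (f : W ≃ W') (hb : ∀ x, b' (e x) = f (b x)) (hr : ∀ x, ρ' (e x) = e (ρ x)) :
    @Tre X W i1 i2 b ρ ↔ @Tre X' W' i3 i4 b' ρ' :=
  (@h3 X W X' W' i1 i2 i3 i4 b b' ρ ρ' e f hb hr).2.2.2.2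

private lemma inv_rs {X : Type} (P : X → Prop) (σ : X → X) (h : Inv σ) : Inv (rs P σ) := by
  intro x
  by_cases hx : P (σ x.1)
  · have e1 : rs P σ x = ⟨σ x.1, hx⟩ := by rw [rs, dif_pos hx]
    rw [e1]
    have h2 : P (σ (σ x.1)) := by
      rw [h]
      exact x.2
    rw [rs, dif_pos h2]
    exact Subtype.ext (h x.1)
  · have e1 : rs P σ x = x := by rw [rs, dif_neg hx]
    rw [e1, e1]

/-- the class of a component -/
private lemma clq_mk (h1 : S_blk) {X V : Type} [Fintype X] [Fintype V] (b : X → V)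
    (cl : V → Fin 4) (ρ : X → X) (hρ : Inv ρ) (hc : ∀ x, cl (b (ρ x)) = cl (b x)) (v : V) :
    clq b cl ρ (Quot.mk _ v) = cl v := by
  have h := (h1 X V b ρ (univ.filter fun u => cl u = cl v) hρ (by
    intro x
    rw [mf, mf, mu, mu, hc])).2.2.2.1 v
  rw [mf, mf, mu, mu, true_and, true_and] at h
  exact h.2 rfl

private lemma key (h1 : S_blk) (h2 : S_2ST) (h3 : S_inv) {X V : Type} [Fintype X] [Fintype V]
    (b : X → V) (cl : V → Fin 4) (ρ σ : X → X) (hρ : Inv ρ) (hσ : Inv σ) (hs : Sub ρ σ)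
    (hc : ∀ x, cl (b (ρ x)) = cl (b x)) (k : Fin 4) :
    TreeOn b σ (two cl k) ↔ For (bl b (two cl k)) (rs (fun x => b x ∈ two cl k) ρ) ∧
      TreeOn (qm b ρ) (rt ρ σ) (two (clq b cl ρ) k) := by
  have hA : ∀ x, b (ρ x) ∈ two cl k ↔ b x ∈ two cl k := by
    intro x
    rw [mem_two, mem_two, hc]
  obtain ⟨b1, b2, -, b4, e', he'⟩ := h1 X V b ρ (two cl k) hρ hA
  have hσP : Inv (rs (fun x => b x ∈ two cl k) σ) := inv_rs _ _ hσ
  have hsub : Sub (rs (fun x => b x ∈ two cl k) ρ) (rs (fun x => b x ∈ two cl k) σ) := by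
    intro x hx
    have e1 : ρ x.1 ≠ x.1 := by
      intro h
      apply hx
      apply Subtype.ext
      rw [b1, h]
    have e2 := hs x.1 e1
    have e3 : b (σ x.1) ∈ two cl k := by
      rw [e2, hA]
      exact x.2
    apply Subtype.ext
    rw [b1, rs, dif_pos e3]
    exact e2
  obtain ⟨-, c2, -, -, c5⟩ := h2 _ _ (bl b (two cl k)) (rs (fun x => b x ∈ two cl k) ρ)
    (rs (fun x => b x ∈ two cl k) σ) b2 hσP hsub
  obtain ⟨-, d2, -, -, -⟩ := h2 X V b ρ σ hρ hσ hs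
  have hmem : ∀ z : Fx ρ, qm b ρ z ∈ two (clq b cl ρ) k ↔ b z.1 ∈ two cl k := by
    intro z
    rw [← b4 (b z.1), mem_two, mem_two]
    exact Iff.rfl
  have hfix : ∀ x : {x // b x ∈ two cl k},
      rs (fun x => b x ∈ two cl k) ρ x = x ↔ ρ x.1 = x.1 := by
    intro x
    rw [← b1 x]
    exact Subtype.ext_iff
  have hq : ∀ K : Cm b ρ, Quot.out K ∈ two cl k ↔ K ∈ two (clq b cl ρ) k := by
    intro K
    rw [mem_two, mem_two]
    exact Iff.rfl
  refine c5.trans (and_congr_right fun _ => ?_)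
  let e : Fx (rs (fun x => b x ∈ two cl k) ρ) ≃ {z : Fx ρ // qm b ρ z ∈ two (clq b cl ρ) k} :=
    { toFun := fun x => ⟨⟨x.1.1, (hfix x.1).1 x.2⟩, (hmem _).2 x.1.2⟩
      invFun := fun y => ⟨⟨y.1.1, (hmem _).1 y.2⟩, (hfix _).2 y.1.2⟩
      left_inv := fun x => rfl
      right_inv := fun y => rfl }
  let f : Cm (bl b (two cl k)) (rs (fun x => b x ∈ two cl k) ρ) ≃
      {K : Cm b ρ // K ∈ two (clq b cl ρ) k} := e'.trans (Equiv.subtypeEquivRight hq)
  refine treInv h3 _ _ _ _ _ _ _ _ e f ?_ ?_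
  · intro x
    apply Subtype.ext
    exact (he' (bl b (two cl k) x.1)).symm
  · intro x
    apply Subtype.ext
    apply Subtype.ext
    have r1 : (e (rt (rs (fun x => b x ∈ two cl k) ρ) (rs (fun x => b x ∈ two cl k) σ) x)).1.1 =
        (rs (fun x => b x ∈ two cl k) σ x.1).1 := congrArg Subtype.val (c2 x)
    rw [r1]
    have r2 : (rt ρ σ (e x).1).1 = σ x.1.1 := d2 _
    by_cases h : b (σ x.1.1) ∈ two cl k
    · have h' : qm b ρ (rt ρ σ (e x).1) ∈ two (clq b cl ρ) k := by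
        rw [hmem, r2]
        exact h
      rw [rs, dif_pos h', rs, dif_pos h]
      exact r2
    · have h' : ¬ qm b ρ (rt ρ σ (e x).1) ∈ two (clq b cl ρ) k := by
        rw [hmem, r2]
        exact h
      rw [rs, dif_neg h', rs, dif_neg h]
      exact rfl

private lemma four (j : Fin 4) :
    (∑ k : Fin 4, if j = k ∨ j = k + 1 then 1 else 0) = 2 := by
  rw [Fin.sum_univ_four]
  fin_cases j <;> simp

/-- number of elements with class `k` or `k + 1` -/
private noncomputable def cF {T : Type} [Fintype T] (p : T → Prop) (c : T → Fin 4) (k : Fin 4) : ℕ :=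
  (univ.filter fun t => p t ∧ (c t = k ∨ c t = k + 1)).card

private noncomputable def cP {T : Type} [Fintype T] (p : T → Prop) : ℕ :=
  (univ.filter fun t => p t).card

private lemma cnt4 {T : Type} [Fintype T] (p : T → Prop) (c : T → Fin 4) :
    ∑ k : Fin 4, cF p c k = 2 * cP p := by
  have h : ∀ k : Fin 4, cF p c k =
      ∑ t ∈ (univ.filter fun t => p t), if c t = k ∨ c t = k + 1 then 1 else 0 := by
    intro k
    rw [cF, ← Finset.filter_filter, Finset.card_filter]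
  rw [Finset.sum_congr rfl (fun k _ => h k), Finset.sum_comm,
    Finset.sum_congr rfl (fun t _ => four (c t)), Finset.sum_const, smul_eq_mul, mul_comm, cP]

private lemma cP_true {T : Type} [Fintype T] : cP (fun _ : T => True) = Fintype.card T := by
  rw [cP, ← Finset.card_univ]
  refine congrArg Finset.card (Finset.ext fun t => ?_)
  rw [mf, mu, true_and]

private lemma forSplit (h1 : S_blk) (h4 : S_ncle) {X V : Type} [Fintype X] [Fintype V]
    (b : X → V) (cl : V → Fin 4) (ρ : X → X) (hρ : Inv ρ) (hc : ∀ x, cl (b (ρ x)) = cl (b x)) :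
    For b ρ ↔ ∀ k, For (bl b (two cl k)) (rs (fun x => b x ∈ two cl k) ρ) := by
  have hA : ∀ k x, b (ρ x) ∈ two cl k ↔ b x ∈ two cl k := by
    intro k x
    rw [mem_two, mem_two, hc]
  have hI : ∀ k, Inv (rs (fun x => b x ∈ two cl k) ρ) := fun k => inv_rs _ _ hρ
  have hm : ∑ k : Fin 4, mv (rs (fun x => b x ∈ two cl k) ρ) = 2 * mv ρ := by
    have e : ∀ k : Fin 4, mv (rs (fun x => b x ∈ two cl k) ρ) =
        cF (fun x => ρ x ≠ x) (fun x => cl (b x)) k := by
      intro k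
      rw [(h1 X V b ρ (two cl k) hρ (hA k)).2.2.1, cF]
      refine congrArg Finset.card (Finset.ext fun x => ?_)
      rw [mf, mf, mu, mem_two]
    have e2 : cP (fun x => ρ x ≠ x) = mv ρ := by
      rw [cP, mv]
      refine congrArg Finset.card (Finset.ext fun x => ?_)
      rw [mf, mf]
    rw [Finset.sum_congr rfl (fun k _ => e k), cnt4, e2]
  have hn : ∑ k : Fin 4, nc (bl b (two cl k)) (rs (fun x => b x ∈ two cl k) ρ) =
      2 * nc b ρ := by
    have e : ∀ k : Fin 4, nc (bl b (two cl k)) (rs (fun x => b x ∈ two cl k) ρ) =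
        cF (fun _ : Cm b ρ => True) (fun K => cl (Quot.out K)) k := by
      intro k
      obtain ⟨e', -⟩ := (h1 X V b ρ (two cl k) hρ (hA k)).2.2.2.2
      rw [nc, Nat.card_congr e', Nat.card_eq_fintype_card, Fintype.card_subtype, cF]
      refine congrArg Finset.card (Finset.ext fun K => ?_)
      rw [mf, mf, mu, mem_two, true_and, true_and]
    rw [Finset.sum_congr rfl (fun k _ => e k), cnt4, cP_true, nc, Nat.card_eq_fintype_card]
  have hv : ∑ k : Fin 4, Fintype.card {v // v ∈ two cl k} = 2 * Fintype.card V := by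
    have e : ∀ k : Fin 4, Fintype.card {v // v ∈ two cl k} = cF (fun _ : V => True) cl k := by
      intro k
      rw [Fintype.card_coe, two, cF]
      refine congrArg Finset.card (Finset.ext fun v => ?_)
      rw [mf, mf, true_and]
    rw [Finset.sum_congr rfl (fun k _ => e k), cnt4, cP_true]
  have hle : ∀ k ∈ (univ : Finset (Fin 4)), 2 * Fintype.card {v // v ∈ two cl k} ≤
      mv (rs (fun x => b x ∈ two cl k) ρ) +
        2 * nc (bl b (two cl k)) (rs (fun x => b x ∈ two cl k) ρ) :=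
    fun k _ => h4 _ _ (bl b (two cl k)) _ (hI k)
  have hiff := Finset.sum_eq_sum_iff_of_le hle
  rw [← Finset.mul_sum, Finset.sum_add_distrib, ← Finset.mul_sum, hm, hn, hv] at hiff
  constructor
  · rintro ⟨-, h⟩ k
    exact ⟨hI k, (hiff.1 (by omega) k (mem_univ _)).symm⟩
  · intro h
    refine ⟨hρ, ?_⟩
    have := hiff.2 (fun k _ => (h k).2.symm)
    omega

/-- the pairs inside the classes -/
private noncomputable def rr {X V : Type} (b : X → V) (cl : V → Fin 4) (σ : X → X) (x : X) : X :=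
  if cl (b (σ x)) = cl (b x) then σ x else x

/-- glueing -/
private noncomputable def jj {X : Type} (ρ : X → X) (τ : Fx ρ → Fx ρ) (x : X) : X :=
  if h : ρ x = x then (τ ⟨x, h⟩).1 else ρ x

private lemma rr_pres {X V : Type} (b : X → V) (cl : V → Fin 4) (σ : X → X) (x : X) :
    cl (b (rr b cl σ x)) = cl (b x) := by
  rw [rr]
  by_cases h : cl (b (σ x)) = cl (b x)
  · rw [if_pos h, h]
  · rw [if_neg h]

private lemma rr_inv {X V : Type} (b : X → V) (cl : V → Fin 4) (σ : X → X) (hσ : Inv σ) :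
    Inv (rr b cl σ) := by
  intro x
  by_cases h : cl (b (σ x)) = cl (b x)
  · have e1 : rr b cl σ x = σ x := by rw [rr, if_pos h]
    have h2 : cl (b (σ (σ x))) = cl (b (σ x)) := by rw [hσ x, h]
    rw [e1, rr, if_pos h2, hσ x]
  · have e1 : rr b cl σ x = x := by rw [rr, if_neg h]
    rw [e1, e1]

private lemma rr_sub {X V : Type} (b : X → V) (cl : V → Fin 4) (σ : X → X) :
    Sub (rr b cl σ) σ := by
  intro x hx
  by_cases h : cl (b (σ x)) = cl (b x)
  · rw [rr, if_pos h]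
  · exfalso
    apply hx
    rw [rr, if_neg h]

private lemma jj_pos {X : Type} {ρ : X → X} {τ : Fx ρ → Fx ρ} {x : X} (h : ρ x = x) :
    jj ρ τ x = (τ ⟨x, h⟩).1 := by rw [jj, dif_pos h]

private lemma jj_neg {X : Type} {ρ : X → X} {τ : Fx ρ → Fx ρ} {x : X} (h : ρ x ≠ x) :
    jj ρ τ x = ρ x := by rw [jj, dif_neg h]

private lemma jj_pr {X : Type} {ρ : X → X} {τ : Fx ρ → Fx ρ} (hρ : Inv ρ) (hτ : IsPr τ) :
    IsPr (jj ρ τ) := by
  intro x
  by_cases h : ρ x = x
  · have h2 : ρ (τ ⟨x, h⟩).1 = (τ ⟨x, h⟩).1 := (τ ⟨x, h⟩).2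
    rw [jj_pos h]
    constructor
    · rw [jj_pos h2]
      exact congrArg Subtype.val (hτ ⟨x, h⟩).1
    · intro h3
      exact (hτ ⟨x, h⟩).2 (Subtype.ext h3)
  · have h2 : ρ (ρ x) ≠ ρ x := by
      rw [hρ x]
      exact fun h3 => h h3.symm
    rw [jj_neg h]
    exact ⟨by rw [jj_neg h2, hρ x], h⟩

private lemma jj_sub {X : Type} {ρ : X → X} {τ : Fx ρ → Fx ρ} : Sub ρ (jj ρ τ) :=
  fun _ h => jj_neg h

end SPLX

theorem p_SPL (h1 : S_blk) (h2 : S_2ST) (h3 : S_inv) (h4 : S_ncle) : S_SPL := by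
  intro X V _ _ b cl
  have e1 : ((prs X).filter fun σ => ∀ k, TreeOn b σ (two cl k)).card =
      ∑ ρ ∈ RF b cl, (((prs X).filter fun σ => ∀ k, TreeOn b σ (two cl k)).filter
        fun σ => SPLX.rr b cl σ = ρ).card := by
    apply card_eq_sum_card_fiberwise
    intro σ hσ
    rw [Finset.mem_coe, SPLX.mf, SPLX.mem_prs'] at hσ
    obtain ⟨hσ, hT⟩ := hσ
    have hσi : Inv σ := fun x => (hσ x).1
    have hc := SPLX.rr_pres b cl σ
    have hi := SPLX.rr_inv b cl σ hσi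
    rw [Finset.mem_coe, SPLX.mem_RF]
    refine ⟨?_, hc⟩
    rw [SPLX.forSplit h1 h4 b cl _ hi hc]
    intro k
    exact ((SPLX.key h1 h2 h3 b cl _ σ hi hσi (SPLX.rr_sub b cl σ) hc k).1 (hT k)).1
  rw [e1]
  apply Finset.sum_congr rfl
  intro ρ hρ
  rw [SPLX.mem_RF] at hρ
  obtain ⟨hF, hc⟩ := hρ
  have hρ : Inv ρ := hF.1
  have hFk := (SPLX.forSplit h1 h4 b cl ρ hρ hc).1 hF
  have hq : ∀ z : Fx ρ, clq b cl ρ (qm b ρ z) = cl (b z.1) :=
    fun z => SPLX.clq_mk h1 b cl ρ hρ hc (b z.1)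
  apply Finset.card_nbij' (fun σ => rt ρ σ) (fun τ => SPLX.jj ρ τ)
  · intro σ hσ
    rw [Finset.mem_coe, SPLX.mf, SPLX.mf, SPLX.mem_prs'] at hσ
    obtain ⟨⟨hσ, hT⟩, hr⟩ := hσ
    have hσi : Inv σ := fun x => (hσ x).1
    have hs : Sub ρ σ := by
      rw [← hr]
      exact SPLX.rr_sub b cl σ
    obtain ⟨-, d2, -, -, -⟩ := h2 X V b ρ σ hρ hσi hs
    rw [Finset.mem_coe, SPLX.mem_CC]
    refine ⟨fun z => ⟨?_, ?_⟩, fun z => ?_, fun k => ?_⟩
    · apply Subtype.ext
      rw [d2, d2]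
      exact hσi z.1
    · intro h
      have h' := congrArg Subtype.val h
      rw [d2] at h'
      exact (hσ z.1).2 h'
    · rw [hq, hq, d2]
      intro h
      have h5 := congrFun hr z.1
      rw [SPLX.rr, if_pos h, z.2] at h5
      exact (hσ z.1).2 h5
    · exact ((SPLX.key h1 h2 h3 b cl ρ σ hρ hσi hs hc k).1 (hT k)).2
  · intro τ hτ
    rw [Finset.mem_coe, SPLX.mem_CC] at hτ
    obtain ⟨hτ, hd, hT⟩ := hτ
    have hσ := SPLX.jj_pr hρ hτ
    have hσi : Inv (SPLX.jj ρ τ) := fun x => (hσ x).1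
    have hs : Sub ρ (SPLX.jj ρ τ) := SPLX.jj_sub
    obtain ⟨-, d2, -, -, -⟩ := h2 X V b ρ (SPLX.jj ρ τ) hρ hσi hs
    have hrt : rt ρ (SPLX.jj ρ τ) = τ := by
      funext z
      apply Subtype.ext
      rw [d2, SPLX.jj_pos z.2]
    rw [Finset.mem_coe, SPLX.mf, SPLX.mf, SPLX.mem_prs']
    refine ⟨⟨hσ, fun k => ?_⟩, ?_⟩
    · rw [SPLX.key h1 h2 h3 b cl ρ _ hρ hσi hs hc k, hrt]
      exact ⟨hFk k, hT k⟩
    · funext x
      show SPLX.rr b cl (SPLX.jj ρ τ) x = ρ x
      by_cases h : ρ x = x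
      · have h5 := hd ⟨x, h⟩
        rw [hq, hq] at h5
        have h6 : ¬ cl (b (SPLX.jj ρ τ x)) = cl (b x) := by
          rw [SPLX.jj_pos h]
          exact h5
        rw [SPLX.rr, if_neg h6, h]
      · have h6 : cl (b (SPLX.jj ρ τ x)) = cl (b x) := by
          rw [SPLX.jj_neg h, hc]
        rw [SPLX.rr, if_pos h6, SPLX.jj_neg h]
  · intro σ hσ
    rw [Finset.mem_coe, SPLX.mf, SPLX.mf, SPLX.mem_prs'] at hσ
    obtain ⟨⟨hσ, hT⟩, hr⟩ := hσ
    have hσi : Inv σ := fun x => (hσ x).1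
    have hs : Sub ρ σ := by
      rw [← hr]
      exact SPLX.rr_sub b cl σ
    obtain ⟨-, d2, -, -, -⟩ := h2 X V b ρ σ hρ hσi hs
    funext x
    by_cases h : ρ x = x
    · simp only
      rw [SPLX.jj_pos h, d2]
    · simp only
      rw [SPLX.jj_neg h, hs x h]
  · intro τ hτ
    rw [Finset.mem_coe, SPLX.mem_CC] at hτ
    obtain ⟨hτ, hd, hT⟩ := hτ
    have hσ := SPLX.jj_pr hρ hτ
    have hσi : Inv (SPLX.jj ρ τ) := fun x => (hσ x).1
    have hs : Sub ρ (SPLX.jj ρ τ) := SPLX.jj_sub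
    obtain ⟨-, d2, -, -, -⟩ := h2 X V b ρ (SPLX.jj ρ τ) hρ hσi hs
    funext z
    apply Subtype.ext
    simp only
    rw [d2, SPLX.jj_pos z.2]

end Pool.Agent.ALM
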