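import Pool.Agent.Lib.MP_fc2a59_co.ALM.S.Stm

set_option autoImplicit false

namespace Pool.Agent.ALM

open Finset
open scoped Classical

namespace Y2X

variable {V : Type} [Fintype V]

/-- number of pairings for which both `A` and `B` are good -/
noncomputable def nn (A B : Finset V) : ℕ :=
  ((prs (Pt V)).filter fun σ => Jp σ A ∧ Jp σ B).card

lemma Jp_compl (σ : Pt V → Pt V) (A : Finset V) : Jp σ Aᶜ ↔ Jp σ A := by
  unfold Jp
  rw [compl_compl]
  exact and_comm

lemma Y_eq (σ : Pt V → Pt V) : (Y σ : ℝ) = ∑ A : Finset V, if Jp σ A then (1 : ℝ) else 0 := by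
  unfold Y
  rw [Finset.sum_boole]

lemma nn_eq (A B : Finset V) :
    (nn A B : ℝ) = ∑ σ ∈ prs (Pt V), if Jp σ A ∧ Jp σ B then (1 : ℝ) else 0 := by
  unfold nn
  rw [Finset.sum_boole]

lemma sumY2 : (∑ σ ∈ prs (Pt V), (Y σ : ℝ) ^ 2) =
    ∑ A : Finset V, ∑ B : Finset V, (nn A B : ℝ) := by
  have h : ∀ σ ∈ prs (Pt V), (Y σ : ℝ) ^ 2 =
      ∑ A : Finset V, ∑ B : Finset V, if Jp σ A ∧ Jp σ B then (1 : ℝ) else 0 := by
    intro σ _
    rw [pow_two, Y_eq, sum_mul_sum]
    refine sum_congr rfl fun A _ => sum_congr rfl fun B _ => ?_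
    by_cases hA : Jp σ A <;> by_cases hB : Jp σ B <;> simp [hA, hB]
  rw [sum_congr rfl h, sum_comm]
  refine sum_congr rfl fun A _ => ?_
  rw [sum_comm]
  refine sum_congr rfl fun B _ => ?_
  rw [nn_eq]

lemma sumY : (∑ σ ∈ prs (Pt V), (Y σ : ℝ)) = ∑ A : Finset V, (nn A A : ℝ) := by
  have h : ∀ σ ∈ prs (Pt V), (Y σ : ℝ) =
      ∑ A : Finset V, if Jp σ A ∧ Jp σ A then (1 : ℝ) else 0 := by
    intro σ _
    rw [Y_eq]
    refine sum_congr rfl fun A _ => ?_
    simp
  rw [sum_congr rfl h, sum_comm]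
  refine sum_congr rfl fun A _ => ?_
  rw [nn_eq]

lemma nn_compl (A : Finset V) : nn A Aᶜ = nn A A := by
  unfold nn
  congr 1
  refine filter_congr fun σ _ => ?_
  rw [Jp_compl]

lemma nn_zero (h3 : S_Jc) {m : ℕ} (hV : Fintype.card V = 2 * m) {A B : Finset V}
    (h : ¬ (A.card = m ∧ B.card = m)) : nn A B = 0 := by
  unfold nn
  rw [card_eq_zero, filter_eq_empty_iff]
  rintro σ hσ ⟨hA, hB⟩
  apply h
  have hs : IsPr σ := (mem_filter.mp hσ).2
  have a1 := (h3 V σ A hs hA).1
  have b1 := (h3 V σ B hs hB).1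
  have a2 := card_add_card_compl A
  have b2 := card_add_card_compl B
  omega

/-- the class function of two sets -/
noncomputable def cf (A B : Finset V) (x : V) : Fin 4 :=
  if x ∈ A then (if x ∈ B then 0 else 1) else (if x ∈ B then 3 else 2)

lemma two0 (A B : Finset V) : two (cf A B) 0 = A := by
  ext x
  simp only [two, mem_filter, mem_univ, true_and, cf]
  by_cases ha : x ∈ A <;> by_cases hb : x ∈ B <;> simp [ha, hb]

lemma two1 (A B : Finset V) : two (cf A B) 1 = Bᶜ := by
  ext x
  simp only [two, mem_filter, mem_univ, true_and, cf, mem_compl]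
  by_cases ha : x ∈ A <;> by_cases hb : x ∈ B <;> simp [ha, hb]

lemma two2 (A B : Finset V) : two (cf A B) 2 = Aᶜ := by
  ext x
  simp only [two, mem_filter, mem_univ, true_and, cf, mem_compl]
  by_cases ha : x ∈ A <;> by_cases hb : x ∈ B <;> simp [ha, hb]

lemma two3 (A B : Finset V) : two (cf A B) 3 = B := by
  ext x
  simp only [two, mem_filter, mem_univ, true_and, cf]
  by_cases ha : x ∈ A <;> by_cases hb : x ∈ B <;> simp [ha, hb]

lemma nn_two (A B : Finset V) :
    nn A B = ((prs (Pt V)).filter fun σ => ∀ k, TreeOn Prod.fst σ (two (cf A B) k)).card := by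
  unfold nn
  congr 1
  refine filter_congr fun σ _ => ?_
  unfold Jp
  constructor
  · rintro ⟨⟨a, b⟩, ⟨c, d⟩⟩ k
    fin_cases k
    · change TreeOn Prod.fst σ (two (cf A B) 0); rw [two0]; exact a
    · change TreeOn Prod.fst σ (two (cf A B) 1); rw [two1]; exact d
    · change TreeOn Prod.fst σ (two (cf A B) 2); rw [two2]; exact b
    · change TreeOn Prod.fst σ (two (cf A B) 3); rw [two3]; exact c
  · intro h
    have q0 := h 0
    have q1 := h 1
    have q2 := h 2
    have q3 := h 3
    rw [two0] at q0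
    rw [two1] at q1
    rw [two2] at q2
    rw [two3] at q3
    exact ⟨⟨q0, q2⟩, ⟨q3, q1⟩⟩

lemma cl0 (A B : Finset V) : (univ.filter fun x => cf A B x = 0) = A ∩ B := by
  ext x
  simp only [mem_filter, mem_univ, true_and, cf, mem_inter]
  by_cases ha : x ∈ A <;> by_cases hb : x ∈ B <;> simp [ha, hb]

lemma cl1 (A B : Finset V) : (univ.filter fun x => cf A B x = 1) = A \ B := by
  ext x
  simp only [mem_filter, mem_univ, true_and, cf, mem_sdiff]
  by_cases ha : x ∈ A <;> by_cases hb : x ∈ B <;> simp [ha, hb]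

lemma cl2 (A B : Finset V) : (univ.filter fun x => cf A B x = 2) = (A ∪ B)ᶜ := by
  ext x
  simp only [mem_filter, mem_univ, true_and, cf, mem_compl, mem_union]
  by_cases ha : x ∈ A <;> by_cases hb : x ∈ B <;> simp [ha, hb]

lemma cl3 (A B : Finset V) : (univ.filter fun x => cf A B x = 3) = B \ A := by
  ext x
  simp only [mem_filter, mem_univ, true_and, cf, mem_sdiff]
  by_cases ha : x ∈ A <;> by_cases hb : x ∈ B <;> simp [ha, hb]

/-- the value for intersection size `v` -/
noncomputable def vl (m v : ℕ) : ℝ :=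
  (v.factorial : ℝ) ^ 4 * ((m - v).factorial : ℝ) ^ 4 /
    (((v + 2).factorial : ℝ) * ((m - v + 2).factorial : ℝ)) * BB (v + 2) (m - v) * BB (m - v + 2) v

lemma nn_val (h1 : S_NAA) {m : ℕ} (hV : Fintype.card V = 2 * m) {A B : Finset V}
    (hA : A.card = m) (hB : B.card = m) (h0 : 0 < (A ∩ B).card) (hm : (A ∩ B).card < m) :
    (nn A B : ℝ) = vl m (A ∩ B).card := by
  have e1 : (A \ B).card = m - (A ∩ B).card := by
    have := card_sdiff_add_card_inter A B; omega
  have e3 : (B \ A).card = m - (A ∩ B).card := by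
    have := card_sdiff_add_card_inter B A
    rw [inter_comm B A] at this; omega
  have e2 : (A ∪ B)ᶜ.card = (A ∩ B).card := by
    have := card_add_card_compl (A ∪ B)
    have := card_union_add_card_inter A B
    omega
  have h := h1 V (cf A B) (A ∩ B).card (m - (A ∩ B).card) h0 (by omega)
    (by rw [cl0]) (by rw [cl1, e1]) (by rw [cl2, e2]) (by rw [cl3, e3])
  rw [nn_two, h]
  rfl

/-- number of pairs with given intersection -/
lemma card_pairs (A : Finset V) {m v : ℕ} (hV : Fintype.card V = 2 * m) (hA : A.card = m)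
    (hv : v ≤ m) :
    ((univ : Finset (Finset V)).filter fun B => B.card = m ∧ (A ∩ B).card = v).card =
      m.choose v * m.choose (m - v) := by
  have hAc : Aᶜ.card = m := by
    have := card_add_card_compl A; omega
  have p1 : (powersetCard v A).card = m.choose v := by rw [card_powersetCard, hA]
  have p2 : (powersetCard (m - v) Aᶜ).card = m.choose (m - v) := by rw [card_powersetCard, hAc]
  rw [← p1, ← p2, ← card_product]
  refine card_bij' (fun B _ => (A ∩ B, B \ A)) (fun t _ => t.1 ∪ t.2) ?_ ?_ ?_ ?_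
  · intro B hB
    obtain ⟨-, h1, h2⟩ := mem_filter.mp hB
    rw [mem_product, mem_powersetCard, mem_powersetCard]
    refine ⟨⟨inter_subset_left, h2⟩, ⟨?_, ?_⟩⟩
    · intro x hx
      rw [mem_compl]; exact (mem_sdiff.mp hx).2
    · have := card_sdiff_add_card_inter B A
      rw [inter_comm B A] at this
      simp only
      omega
  · intro t ht
    rw [mem_product, mem_powersetCard, mem_powersetCard] at ht
    obtain ⟨⟨a1, a2⟩, ⟨b1, b2⟩⟩ := ht
    have hd : Disjoint t.1 t.2 := by
      rw [disjoint_left]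
      intro x h1 h2
      exact (mem_compl.mp (b1 h2)) (a1 h1)
    rw [mem_filter]
    refine ⟨mem_univ _, ?_, ?_⟩
    · rw [card_union_of_disjoint hd]; omega
    · have : A ∩ (t.1 ∪ t.2) = t.1 := by
        ext x
        rw [mem_inter, mem_union]
        constructor
        · rintro ⟨h1, h2 | h2⟩
          · exact h2
          · exact absurd h1 (mem_compl.mp (b1 h2))
        · intro h
          exact ⟨a1 h, Or.inl h⟩
      rw [this]; exact a2
  · intro B hB
    simp only
    ext x
    rw [mem_union, mem_inter, mem_sdiff]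
    tauto
  · intro t ht
    rw [mem_product, mem_powersetCard, mem_powersetCard] at ht
    obtain ⟨⟨a1, a2⟩, ⟨b1, b2⟩⟩ := ht
    refine Prod.ext ?_ ?_
    · ext x
      simp only [mem_inter, mem_union]
      constructor
      · rintro ⟨h1, h2 | h2⟩
        · exact h2
        · exact absurd h1 (mem_compl.mp (b1 h2))
      · intro h
        exact ⟨a1 h, Or.inl h⟩
    · ext x
      simp only [mem_sdiff, mem_union]
      constructor
      · rintro ⟨h1 | h1, h2⟩
        · exact absurd (a1 h1) h2
        · exact h1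
      · intro h
        exact ⟨Or.inr h, mem_compl.mp (b1 h)⟩

/-- the inner sum for a set of the right size -/
lemma inner (h1 : S_NAA) (h3 : S_Jc) {m : ℕ} (hm : 0 < m) (hV : Fintype.card V = 2 * m)
    {A : Finset V} (hA : A.card = m) :
    ∑ B : Finset V, (nn A B : ℝ) = 2 * (nn A A : ℝ) +
      ∑ v ∈ Ico 1 m, ((m.choose v : ℝ) * (m.choose (m - v) : ℝ)) * vl m v := by
  have hAc : Aᶜ.card = m := by
    have := card_add_card_compl A; omega
  have hne : A ≠ Aᶜ := by
    intro h
    obtain ⟨x, hx⟩ := card_pos.mp (by omega : 0 < A.card)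
    have := hx
    rw [h, mem_compl] at this
    exact this hx
  set Q : Finset (Finset V) := (univ : Finset (Finset V)).filter fun B => B.card = m ∧
    (A ∩ B).card ∈ Ico 1 m with hQ
  have hsplit : ∑ B : Finset V, (nn A B : ℝ) = (nn A A : ℝ) + (nn A Aᶜ : ℝ) + ∑ B ∈ Q, (nn A B : ℝ) := by
    have hd1 : Disjoint ({A, Aᶜ} : Finset (Finset V)) Q := by
      rw [disjoint_left]
      intro B hB hB'
      obtain ⟨-, -, h⟩ := mem_filter.mp hB'
      rw [mem_Ico] at h
      rw [mem_insert, mem_singleton] at hB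
      rcases hB with rfl | rfl
      · rw [inter_self] at h; omega
      · rw [inter_compl, card_empty] at h; omega
    rw [← sum_pair (f := fun B => (nn A B : ℝ)) hne, ← sum_union hd1]
    refine (sum_subset (subset_univ _) ?_).symm
    intro B _ hB
    rw [mem_union, not_or] at hB
    obtain ⟨hB1, hB2⟩ := hB
    by_cases hc : B.card = m
    · exfalso
      have h4 : (A ∩ B).card ∉ Ico 1 m := by
        intro h
        exact hB2 (mem_filter.mpr ⟨mem_univ _, hc, h⟩)
      rw [mem_Ico] at h4
      have h5 : (A ∩ B).card ≤ m := hA ▸ card_le_card inter_subset_left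
      apply hB1
      rw [mem_insert, mem_singleton]
      by_cases h6 : (A ∩ B).card = m
      · left
        have h7 : A ∩ B = A := eq_of_subset_of_card_le inter_subset_left (by omega)
        have h8 : A ⊆ B := inter_eq_left.mp h7
        exact (eq_of_subset_of_card_le h8 (by omega)).symm
      · right
        have h7 : (A ∩ B).card = 0 := by omega
        rw [card_eq_zero] at h7
        have h8 : B ⊆ Aᶜ := by
          intro x hx
          rw [mem_compl]
          intro hx'
          have : x ∈ A ∩ B := mem_inter.mpr ⟨hx', hx⟩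
          rw [h7] at this
          simp at this
        exact eq_of_subset_of_card_le h8 (by omega)
    · have : nn A B = 0 := nn_zero h3 hV (fun h => hc h.2)
      rw [this]; simp
  rw [hsplit, nn_compl]
  have hQsum : ∑ B ∈ Q, (nn A B : ℝ) =
      ∑ v ∈ Ico 1 m, ((m.choose v : ℝ) * (m.choose (m - v) : ℝ)) * vl m v := by
    have hmaps : ∀ B ∈ Q, (A ∩ B).card ∈ Ico 1 m := fun B hB => (mem_filter.mp hB).2.2
    rw [← sum_fiberwise_of_maps_to hmaps]
    refine sum_congr rfl fun v hv => ?_
    rw [mem_Ico] at hv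
    have hf : Q.filter (fun B => (A ∩ B).card = v) =
        (univ : Finset (Finset V)).filter fun B => B.card = m ∧ (A ∩ B).card = v := by
      rw [hQ, filter_filter]
      refine filter_congr fun B _ => ?_
      constructor
      · rintro ⟨⟨h1, -⟩, h2⟩
        exact ⟨h1, h2⟩
      · rintro ⟨h1, h2⟩
        exact ⟨⟨h1, by rw [h2, mem_Ico]; exact hv⟩, h2⟩
    rw [hf]
    have hc : ∀ B ∈ (univ : Finset (Finset V)).filter (fun B => B.card = m ∧ (A ∩ B).card = v),
        (nn A B : ℝ) = vl m v := by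
      intro B hB
      obtain ⟨-, b1, b2⟩ := mem_filter.mp hB
      rw [nn_val h1 hV hA b1 (by omega) (by omega), b2]
    rw [sum_congr rfl hc, sum_const, card_pairs A hV hA (by omega), nsmul_eq_mul]
    push_cast
    ring
  rw [hQsum]
  ring

end Y2X

open Y2X

theorem p_Y2 (h1 : S_NAA) (h2 : S_N1) (h3 : S_Jc) : S_Y2 := by
  intro m hm
  have hV : Fintype.card (Fin (2 * m)) = 2 * m := Fintype.card_fin _
  have hN := h2 m hm
  rw [sumY] at hN
  rw [sumY2]
  set P : Finset (Finset (Fin (2 * m))) := powersetCard m univ with hP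
  have hPc : P.card = (2 * m).choose m := by
    rw [hP, card_powersetCard, card_univ, hV]
  have r1 : ∑ A : Finset (Fin (2 * m)), ∑ B : Finset (Fin (2 * m)), (nn A B : ℝ) =
      ∑ A ∈ P, ∑ B : Finset (Fin (2 * m)), (nn A B : ℝ) := by
    refine (sum_subset (subset_univ _) ?_).symm
    intro A _ hA
    rw [hP, mem_powersetCard_univ] at hA
    refine sum_eq_zero fun B _ => ?_
    rw [nn_zero h3 hV (fun h => hA h.1)]
    simp
  have r2 : ∑ A : Finset (Fin (2 * m)), (nn A A : ℝ) = ∑ A ∈ P, (nn A A : ℝ) := by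
    refine (sum_subset (subset_univ _) ?_).symm
    intro A _ hA
    rw [hP, mem_powersetCard_univ] at hA
    rw [nn_zero h3 hV (fun h => hA h.1)]
    simp
  rw [r2] at hN
  rw [r1]
  have r3 : ∑ A ∈ P, ∑ B : Finset (Fin (2 * m)), (nn A B : ℝ) =
      ∑ A ∈ P, (2 * (nn A A : ℝ) +
        ∑ v ∈ Ico 1 m, ((m.choose v : ℝ) * (m.choose (m - v) : ℝ)) * vl m v) := by
    refine sum_congr rfl fun A hA => ?_
    rw [hP, mem_powersetCard_univ] at hA
    exact inner h1 h3 hm hV hA
  rw [r3, sum_add_distrib, ← mul_sum, hN, sum_const, hPc, nsmul_eq_mul]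
  congr 1
  unfold N2
  rw [mul_sum, mul_sum]
  refine sum_congr rfl fun v hv => ?_
  rw [mem_Ico] at hv
  unfold vl
  have c1 : ((2 * m).choose m : ℝ) = ((2 * m).factorial : ℝ) / ((m.factorial : ℝ) * (m.factorial : ℝ)) := by
    rw [Nat.cast_choose ℝ (by omega : m ≤ 2 * m)]
    congr 2
    rw [show 2 * m - m = m by omega]
  have c2 : (m.choose v : ℝ) = (m.factorial : ℝ) / ((v.factorial : ℝ) * ((m - v).factorial : ℝ)) :=
    Nat.cast_choose ℝ (by omega)
  have c3 : (m.choose (m - v) : ℝ) =
      (m.factorial : ℝ) / ((v.factorial : ℝ) * ((m - v).factorial : ℝ)) := by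
    rw [Nat.choose_symm (by omega : v ≤ m)]; exact c2
  rw [c1, c2, c3]
  have q1 : (m.factorial : ℝ) ≠ 0 := by positivity
  have q2 : (v.factorial : ℝ) ≠ 0 := by positivity
  have q3 : ((m - v).factorial : ℝ) ≠ 0 := by positivity
  have q4 : ((v + 2).factorial : ℝ) ≠ 0 := by positivity
  have q5 : ((m - v + 2).factorial : ℝ) ≠ 0 := by positivity
  field_simp

end Pool.Agent.ALM
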