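import Pool.Agent.Lib.MP_fc2a59_co.ALM.S.Stm

set_option autoImplicit false

/-! Piece p_blk of project ALM (helper84): restriction of an involution to an invariant set of blocks. -/

namespace Pool.Agent.ALM

open Finset
open scoped Classical

namespace blkX

theorem lk_inv {X V : Type} {b : X → V} {ρ : X → X} {A : Finset V}
    (hA : ∀ x, b (ρ x) ∈ A ↔ b x ∈ A) {u v : V} (h : Relation.EqvGen (lk b ρ) u v) :
    u ∈ A ↔ v ∈ A := by
  induction h with
  | rel x y h =>
    obtain ⟨p, rfl, rfl⟩ := h
    exact (hA p).symm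
  | refl x => exact Iff.rfl
  | symm x y _ ih => exact ih.symm
  | trans x y z _ _ ih1 ih2 => exact ih1.trans ih2

end blkX

theorem p_blk : S_blk := by
  intro X V _ _ b ρ A hρ hA
  have h1 : ∀ x : {x : X // b x ∈ A}, (rs (fun x => b x ∈ A) ρ x).1 = ρ x.1 := by
    intro x
    have hx : b (ρ x.1) ∈ A := (hA x.1).2 x.2
    unfold rs
    rw [dif_pos hx]
  have h2 : Inv (rs (fun x => b x ∈ A) ρ) := by
    intro x
    apply Subtype.ext
    rw [h1, h1]
    exact hρ x.1
  have h4 : ∀ v : V, Quot.out (Quot.mk (lk b ρ) v) ∈ A ↔ v ∈ A := by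
    intro v
    exact blkX.lk_inv hA (Quot.eqvGen_exact (Quot.out_eq (Quot.mk (lk b ρ) v)))
  refine ⟨h1, h2, ?_, h4, ?_⟩
  · unfold mv
    refine Finset.card_bij (fun x _ => x.1) ?_ ?_ ?_
    · intro x hx
      have hx2 : rs (fun x => b x ∈ A) ρ x ≠ x := by simpa using hx
      simp only [Finset.mem_filter, Finset.mem_univ, true_and]
      refine ⟨?_, x.2⟩
      intro h
      apply hx2
      apply Subtype.ext
      rw [h1]
      exact h
    · intro x _ y _ h
      exact Subtype.ext h
    · intro y hy
      simp only [Finset.mem_filter, Finset.mem_univ, true_and] at hy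
      have hne : rs (fun x => b x ∈ A) ρ ⟨y, hy.2⟩ ≠ ⟨y, hy.2⟩ := by
        intro h
        apply hy.1
        have h' := congrArg Subtype.val h
        rw [h1] at h'
        exact h'
      exact ⟨⟨y, hy.2⟩, by simpa using hne, rfl⟩
  · -- the bijection
    let f : Cm (bl b A) (rs (fun x => b x ∈ A) ρ) → {K : Cm b ρ // Quot.out K ∈ A} :=
      Quot.lift (fun u => (⟨Quot.mk (lk b ρ) u.1, (h4 u.1).2 u.2⟩ : {K : Cm b ρ // Quot.out K ∈ A})) (by
        intro u v h
        obtain ⟨x, hx1, hx2⟩ := h
        apply Subtype.ext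
        apply Quot.sound
        refine ⟨x.1, ?_, ?_⟩
        · rw [← hx1]
          rfl
        · rw [← hx2, ← h1 x]
          rfl)
    have key : ∀ u v : V, Relation.EqvGen (lk b ρ) u v → ∀ (hu : u ∈ A) (hv : v ∈ A),
        (Quot.mk _ (⟨u, hu⟩ : {v : V // v ∈ A}) : Cm (bl b A) (rs (fun x => b x ∈ A) ρ)) =
          Quot.mk _ ⟨v, hv⟩ := by
      intro u v h
      induction h with
      | rel x y h =>
        intro hu hv
        obtain ⟨p, hp1, hp2⟩ := h
        apply Quot.sound
        have hpA : b p ∈ A := by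
          rw [hp1]
          exact hu
        refine ⟨⟨p, hpA⟩, ?_, ?_⟩
        · apply Subtype.ext
          exact hp1
        · apply Subtype.ext
          change b (rs (fun x => b x ∈ A) ρ ⟨p, hpA⟩).1 = y
          rw [h1]
          exact hp2
      | refl x => intro _ _; rfl
      | symm x y _ ih => intro hu hv; exact (ih hv hu).symm
      | trans x y z hxy _ ih1 ih2 =>
        intro hu hv
        have hy : y ∈ A := (blkX.lk_inv hA hxy).1 hu
        exact (ih1 hu hy).trans (ih2 hy hv)
    have hf : Function.Bijective f := by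
      constructor
      · intro K L
        induction K using Quot.ind with
        | mk u =>
        induction L using Quot.ind with
        | mk v =>
        intro h
        have h' : Quot.mk (lk b ρ) u.1 = Quot.mk (lk b ρ) v.1 := congrArg Subtype.val h
        exact key u.1 v.1 (Quot.eqvGen_exact h') u.2 v.2
      · rintro ⟨K, hK⟩
        refine ⟨Quot.mk _ ⟨Quot.out K, hK⟩, ?_⟩
        apply Subtype.ext
        exact Quot.out_eq K
    exact ⟨Equiv.ofBijective f hf, fun u => rfl⟩

end Pool.Agent.ALM
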