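import Pool.Agent.Lib.MP_fc2a59_co.ALM.S.Stm

set_option autoImplicit false

/-! # [ALM S cfl] completions with fixed labels -/

namespace Pool.Agent.ALM

open Finset
open scoped Classical

namespace cflX

/-! ## Pairings of given type -/

section gen

variable {X T R : Type} (t : X → T) (ι : T → T) (s : R → T)

/-- pairings of given type -/
def PT (τ : X → X) : Prop := IsPr τ ∧ ∀ x, t (τ x) = ι (t x)

/-- the pairing given by bijections -/
noncomputable def bk (e : ∀ r, {x // t x = s r} ≃ {x // t x = ι (s r)}) (x : X) : X :=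
  if h : ∃ r, t x = s r then (e h.choose ⟨x, h.choose_spec⟩).1
  else if h : ∃ r, t x = ι (s r) then ((e h.choose).symm ⟨x, h.choose_spec⟩).1 else x

variable {t ι s}

theorem bk_fst (hs : Function.Injective s) (e : ∀ r, {x // t x = s r} ≃ {x // t x = ι (s r)})
    {r : R} {x : X} (h : t x = s r) : bk t ι s e x = (e r ⟨x, h⟩).1 := by
  have hex : ∃ r, t x = s r := ⟨r, h⟩
  have hr : hex.choose = r := hs (hex.choose_spec.symm.trans h)
  have key : ∀ r' (h' : t x = s r'), r' = r → (e r' ⟨x, h'⟩).1 = (e r ⟨x, h⟩).1 := by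
    rintro r' h' rfl
    rfl
  unfold bk
  rw [dif_pos hex]
  exact key _ _ hr

theorem bk_snd (hs : Function.Injective s) (hι : ∀ u, ι (ι u) = u)
    (hd : ∀ r r', s r ≠ ι (s r')) (e : ∀ r, {x // t x = s r} ≃ {x // t x = ι (s r)})
    {r : R} {x : X} (h : t x = ι (s r)) : bk t ι s e x = ((e r).symm ⟨x, h⟩).1 := by
  have hno : ¬ ∃ r, t x = s r := by
    rintro ⟨r', h'⟩
    exact hd r' r (h'.symm.trans h)
  have hex : ∃ r, t x = ι (s r) := ⟨r, h⟩
  have hr : hex.choose = r := by
    apply hs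
    have h1 : ι (s hex.choose) = ι (s r) := hex.choose_spec.symm.trans h
    have h2 := congrArg ι h1
    rwa [hι, hι] at h2
  have key : ∀ r' (h' : t x = ι (s r')), r' = r → ((e r').symm ⟨x, h'⟩).1 = ((e r).symm ⟨x, h⟩).1 := by
    rintro r' h' rfl
    rfl
  unfold bk
  rw [dif_neg hno, dif_pos hex]
  exact key _ _ hr

theorem bk_PT (hs : Function.Injective s) (hι : ∀ u, ι (ι u) = u)
    (hd : ∀ r r', s r ≠ ι (s r')) (hc : ∀ x, (∃ r, t x = s r) ∨ ∃ r, t x = ι (s r))
    (e : ∀ r, {x // t x = s r} ≃ {x // t x = ι (s r)}) : PT t ι (bk t ι s e) := by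
  have key : ∀ x, (bk t ι s e (bk t ι s e x) = x) ∧ t (bk t ι s e x) = ι (t x) := by
    intro x
    rcases hc x with ⟨r, h⟩ | ⟨r, h⟩
    · rw [bk_fst hs e h, bk_snd hs hι hd e (e r ⟨x, h⟩).2]
      refine ⟨?_, ?_⟩
      · have : (⟨(e r ⟨x, h⟩).1, (e r ⟨x, h⟩).2⟩ : {x // t x = ι (s r)}) = e r ⟨x, h⟩ := rfl
        rw [this, Equiv.symm_apply_apply]
      · rw [(e r ⟨x, h⟩).2, h]
    · rw [bk_snd hs hι hd e h, bk_fst hs e ((e r).symm ⟨x, h⟩).2]
      refine ⟨?_, ?_⟩
      · have : (⟨((e r).symm ⟨x, h⟩).1, ((e r).symm ⟨x, h⟩).2⟩ : {x // t x = s r}) =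
          (e r).symm ⟨x, h⟩ := rfl
        rw [this, Equiv.apply_symm_apply]
      · rw [((e r).symm ⟨x, h⟩).2, h, hι]
  refine ⟨fun x => ⟨(key x).1, fun h0 => ?_⟩, fun x => (key x).2⟩
  have h1 := (key x).2
  rw [h0] at h1
  rcases hc x with ⟨r, h⟩ | ⟨r, h⟩
  · rw [h] at h1
    exact hd r r h1
  · rw [h, hι] at h1
    exact hd r r h1.symm

/-- the bijections of a pairing -/
def fw (hι : ∀ u, ι (ι u) = u) (τ : {τ : X → X // PT t ι τ}) (r : R) :
    {x // t x = s r} ≃ {x // t x = ι (s r)} where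
  toFun := fun x => ⟨τ.1 x.1, by rw [τ.2.2, x.2]⟩
  invFun := fun y => ⟨τ.1 y.1, by rw [τ.2.2, y.2, hι]⟩
  left_inv := fun x => Subtype.ext (τ.2.1 x.1).1
  right_inv := fun y => Subtype.ext (τ.2.1 y.1).1

/-- pairings of given type are families of bijections -/
noncomputable def EE (hs : Function.Injective s) (hι : ∀ u, ι (ι u) = u)
    (hd : ∀ r r', s r ≠ ι (s r')) (hc : ∀ x, (∃ r, t x = s r) ∨ ∃ r, t x = ι (s r)) :
    {τ : X → X // PT t ι τ} ≃ ∀ r, ({x // t x = s r} ≃ {x // t x = ι (s r)}) where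
  toFun τ r := fw hι τ r
  invFun e := ⟨bk t ι s e, bk_PT hs hι hd hc e⟩
  left_inv τ := by
    apply Subtype.ext
    funext x
    rcases hc x with ⟨r, h⟩ | ⟨r, h⟩
    · exact bk_fst hs (fw hι τ) h
    · exact bk_snd hs hι hd (fw hι τ) h
  right_inv e := by
    funext r
    ext x
    exact bk_fst hs e x.2

theorem EE_apply (hs : Function.Injective s) (hι : ∀ u, ι (ι u) = u)
    (hd : ∀ r r', s r ≠ ι (s r')) (hc : ∀ x, (∃ r, t x = s r) ∨ ∃ r, t x = ι (s r))
    (τ : {τ : X → X // PT t ι τ}) (r : R) (x : {x // t x = s r}) :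
    (EE hs hι hd hc τ r x).1 = τ.1 x.1 := rfl

end gen

theorem quot_card {A B : Type} (r : A → A → Prop) (r' : B → B → Prop) (g : A → B)
    (hg : Function.Bijective g) (h1 : ∀ a a', r a a' → Quot.mk r' (g a) = Quot.mk r' (g a'))
    (h2 : ∀ a a', r' (g a) (g a') → Quot.mk r a = Quot.mk r a') :
    Nat.card (Quot r) = Nat.card (Quot r') := by
  let f : A ≃ B := Equiv.ofBijective g hg
  refine Nat.card_congr ⟨Quot.lift (fun a => Quot.mk r' (g a)) h1,
    Quot.lift (fun b => Quot.mk r (f.symm b)) ?_, ?_, ?_⟩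
  · intro b b' hb
    obtain ⟨a, rfl⟩ := hg.2 b
    obtain ⟨a', rfl⟩ := hg.2 b'
    have e1 : f.symm (g a) = a := f.symm_apply_apply a
    have e2 : f.symm (g a') = a' := f.symm_apply_apply a'
    show Quot.mk r (f.symm (g a)) = Quot.mk r (f.symm (g a'))
    rw [e1, e2]
    exact h2 a a' hb
  · rintro ⟨a⟩
    show Quot.mk r (f.symm (g a)) = Quot.mk r a
    have e1 : f.symm (g a) = a := f.symm_apply_apply a
    rw [e1]
  · rintro ⟨b⟩
    show Quot.mk r' (g (f.symm b)) = Quot.mk r' b
    have e1 : g (f.symm b) = b := f.apply_symm_apply b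
    rw [e1]

theorem inv_rs {X : Type} (P : X → Prop) {τ : X → X} (h : IsPr τ) : Inv (rs P τ) := by
  intro x
  by_cases hx : P (τ x.1)
  · have e1 : rs P τ x = ⟨τ x.1, hx⟩ := dif_pos hx
    have hx' : P (τ (τ x.1)) := by rw [(h x.1).1]; exact x.2
    have e2 : rs P τ ⟨τ x.1, hx⟩ = ⟨τ (τ x.1), hx'⟩ := dif_pos hx'
    rw [e1, e2]
    exact Subtype.ext (h x.1).1
  · have e1 : rs P τ x = x := dif_neg hx
    rw [e1, e1]

/-! ## Labels -/

/-- the involution of the types -/
def io (u : Fin 4 × Fin 4) : Fin 4 × Fin 4 := (u.1 + u.2, -u.2)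

/-- representatives of the types -/
def st (r : Fin 4 ⊕ Fin 2) : Fin 4 × Fin 4 :=
  Sum.elim (fun k => (k, 1)) (fun i => (if i = 0 then 0 else 1, 2)) r

theorem io_io (u : Fin 4 × Fin 4) : io (io u) = u := by
  revert u
  decide

theorem st_inj : Function.Injective st := by
  unfold Function.Injective
  decide

theorem st_io : ∀ r r', st r ≠ io (st r') := by decide

theorem st_cov : ∀ u : Fin 4 × Fin 4, u.2 ≠ 0 → (∃ r, u = st r) ∨ ∃ r, u = io (st r) := by decide

theorem cl_two : ∀ k a j : Fin 4, j ≠ 0 → (a = k ∨ a = k + 1) →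
    ((a + j = k ∨ a + j = k + 1) ↔ (a = k ∧ j = 1) ∨ (a = k + 1 ∧ j = 3)) := by decide

section tree

variable {X K : Type} [Fintype X] [Fintype K] {q : X → K} {cl : K → Fin 4} {l : X → Fin 4}

theorem mem_two {k : Fin 4} {v : K} : v ∈ two cl k ↔ cl v = k ∨ cl v = k + 1 := by
  rw [two, mem_filter]
  exact ⟨fun h => h.2, fun h => ⟨mem_univ _, h⟩⟩

/-- the type of a point -/
def ty (q : X → K) (cl : K → Fin 4) (l : X → Fin 4) (x : X) : Fin 4 × Fin 4 := (cl (q x), l x)

omit [Fintype X] [Fintype K] in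
theorem ty_eq {x : X} {k j : Fin 4} : ty q cl l x = (k, j) ↔ cl (q x) = k ∧ l x = j := by
  rw [ty, Prod.mk.injEq]

/-- block maps -/
def b1 (q : X → K) (cl : K → Fin 4) (l : X → Fin 4) (k : Fin 4)
    (x : {x // ty q cl l x = st (Sum.inl k)}) : {v : K // cl v = k} :=
  ⟨q x.1, (ty_eq.1 x.2).1⟩

def b2 (q : X → K) (cl : K → Fin 4) (l : X → Fin 4) (k : Fin 4)
    (x : {x // ty q cl l x = io (st (Sum.inl k))}) : {v : K // cl v = k + 1} :=
  ⟨q x.1, (ty_eq.1 x.2).1⟩

theorem tree_iff (hl : ∀ x, l x ≠ 0) (τ : {τ : X → X // PT (ty q cl l) io τ})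
    (hc : ∀ x, (∃ r, ty q cl l x = st r) ∨ ∃ r, ty q cl l x = io (st r)) (k : Fin 4) :
    TreeOn q τ.1 (two cl k) ↔
      Nat.card (Quot (rb (b1 q cl l k) (b2 q cl l k) (EE st_inj io_io st_io hc τ (Sum.inl k)))) = 1 ∧
        (xk q cl l k 1).card + 1 =
          (univ.filter fun v => cl v = k).card + (univ.filter fun v => cl v = k + 1).card := by
  obtain ⟨τ, hτ, hτ'⟩ := τ
  have hne : ∀ k : Fin 4, k ≠ k + 1 := by decide
  have hcl : ∀ x, cl (q (τ x)) = cl (q x) + l x := fun x => congrArg Prod.fst (hτ' x)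
  have hlb : ∀ x, l (τ x) = - l x := fun x => congrArg Prod.snd (hτ' x)
  set A := two cl k with hA
  set P : X → Prop := fun x => q x ∈ A with hP
  have hPi : ∀ x, P x ↔ cl (q x) = k ∨ cl (q x) = k + 1 := fun x => mem_two
  have hmv : ∀ x : {x // P x}, P (τ x.1) ↔ (cl (q x.1) = k ∧ l x.1 = 1) ∨
      (cl (q x.1) = k + 1 ∧ l x.1 = 3) := by
    intro x
    rw [hPi, hcl]
    exact cl_two _ _ _ (hl _) ((hPi _).1 x.2)
  have hrs : ∀ x : {x // P x}, rs P τ x ≠ x ↔ P (τ x.1) := by
    intro x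
    by_cases hx : P (τ x.1)
    · have e1 : rs P τ x = ⟨τ x.1, hx⟩ := dif_pos hx
      refine ⟨fun _ => hx, fun _ h0 => ?_⟩
      rw [e1] at h0
      exact (hτ x.1).2 (congrArg Subtype.val h0)
    · have e1 : rs P τ x = x := dif_neg hx
      exact ⟨fun h => (h e1).elim, fun h => (hx h).elim⟩
  -- number of moved points
  have hmv' : mv (rs P τ) = (xk q cl l k 1).card + (xk q cl l (k + 1) 3).card := by
    have hd : Disjoint (xk q cl l k 1) (xk q cl l (k + 1) 3) := by
      rw [disjoint_left]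
      intro x hx hx'
      rw [xk, mem_filter] at hx hx'
      exact hne k (hx.2.1.symm.trans hx'.2.1)
    rw [← card_union_of_disjoint hd, mv, ← card_map (Function.Embedding.subtype _)]
    congr 1
    ext x
    rw [mem_map, mem_union, xk, xk, mem_filter, mem_filter]
    constructor
    · rintro ⟨y, hy, rfl⟩
      simp only [mem_filter, mem_univ, true_and, hrs, hmv] at hy
      rcases hy with h | h
      · exact Or.inl ⟨mem_univ _, h⟩
      · exact Or.inr ⟨mem_univ _, h⟩
    · rintro (⟨-, h⟩ | ⟨-, h⟩)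
      · refine ⟨⟨x, (hPi x).2 (Or.inl h.1)⟩, ?_, rfl⟩
        simp only [mem_filter, mem_univ, true_and, hrs, hmv]
        exact Or.inl h
      · refine ⟨⟨x, (hPi x).2 (Or.inr h.1)⟩, ?_, rfl⟩
        simp only [mem_filter, mem_univ, true_and, hrs, hmv]
        exact Or.inr h
  have hcard : (xk q cl l (k + 1) 3).card = (xk q cl l k 1).card := by
    have h3 : ∀ k : Fin 4, k + 1 + 3 = k := by decide
    have h31 : (-3 : Fin 4) = 1 := by decide
    have h13 : (-1 : Fin 4) = 3 := by decide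
    refine card_nbij' τ τ ?_ ?_ ?_ ?_
    · intro x hx
      rw [mem_coe, xk, mem_filter] at hx ⊢
      rw [hcl, hlb, hx.2.1, hx.2.2]
      exact ⟨mem_univ _, h3 k, h31⟩
    · intro x hx
      rw [mem_coe, xk, mem_filter] at hx ⊢
      rw [hcl, hlb, hx.2.1, hx.2.2]
      exact ⟨mem_univ _, rfl, h13⟩
    · intro x _
      exact (hτ x).1
    · intro x _
      exact (hτ x).1
  have hAc : Fintype.card {v // v ∈ A} =
      (univ.filter fun v => cl v = k).card + (univ.filter fun v => cl v = k + 1).card := by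
    rw [Fintype.card_coe, hA, two, filter_or, card_union_of_disjoint]
    rw [disjoint_left]
    intro v hv hv'
    rw [mem_filter] at hv hv'
    exact hne k (hv.2.symm.trans hv'.2)
  -- components
  have hnc : Nat.card (Quot (rb (b1 q cl l k) (b2 q cl l k)
      (EE st_inj io_io st_io hc ⟨τ, hτ, hτ'⟩ (Sum.inl k)))) = nc (bl q A) (rs P τ) := by
    let g : {v : K // cl v = k} ⊕ {v : K // cl v = k + 1} → {v // v ∈ A} :=
      Sum.elim (fun w => ⟨w.1, mem_two.2 (Or.inl w.2)⟩) (fun z => ⟨z.1, mem_two.2 (Or.inr z.2)⟩)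
    have hg : Function.Injective g := by
      rintro (a | a) (b | b) hab
      · have h1 : a.1 = b.1 := congrArg (fun v : {v // v ∈ A} => v.1) hab
        exact congrArg Sum.inl (Subtype.ext h1)
      · have h1 : a.1 = b.1 := congrArg Subtype.val hab
        exact (hne k (by rw [← b.2, ← h1, a.2])).elim
      · have h1 : a.1 = b.1 := congrArg Subtype.val hab
        exact (hne k (by rw [← a.2, h1, b.2])).elim
      · have h1 : a.1 = b.1 := congrArg (fun v : {v // v ∈ A} => v.1) hab
        exact congrArg Sum.inr (Subtype.ext h1)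
    refine quot_card _ _ g ⟨hg, ?_⟩ ?_ ?_
    · rintro ⟨v, hv⟩
      rcases mem_two.1 hv with h | h
      · exact ⟨Sum.inl ⟨v, h⟩, rfl⟩
      · exact ⟨Sum.inr ⟨v, h⟩, rfl⟩
    · rintro _ _ ⟨x, rfl, rfl⟩
      apply Quot.sound
      have hx := ty_eq.1 x.2
      have hPx : P x.1 := (hPi _).2 (Or.inl hx.1)
      have hPτ : P (τ x.1) := (hmv ⟨x.1, hPx⟩).2 (Or.inl hx)
      refine ⟨⟨x.1, hPx⟩, rfl, ?_⟩
      have e1 : rs P τ ⟨x.1, hPx⟩ = ⟨τ x.1, hPτ⟩ := dif_pos hPτ
      rw [e1]
      rfl
    · rintro a a' ⟨x, hx, hx'⟩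
      by_cases h : P (τ x.1)
      · have e1 : rs P τ x = ⟨τ x.1, h⟩ := dif_pos h
        rw [e1] at hx'
        rcases (hmv x).1 h with h1 | h1
        · have ht : ty q cl l x.1 = st (Sum.inl k) := ty_eq.2 h1
          apply Quot.sound
          refine ⟨⟨x.1, ht⟩, ?_, ?_⟩
          · apply hg
            rw [← hx]
            rfl
          · apply hg
            rw [← hx']
            rfl
        · have h3 : ∀ k : Fin 4, k + 1 + 3 = k := by decide
          have h31 : (-3 : Fin 4) = 1 := by decide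
          have ht : ty q cl l (τ x.1) = st (Sum.inl k) := by
            apply ty_eq.2
            rw [hcl, hlb, h1.1, h1.2]
            exact ⟨h3 k, h31⟩
          symm
          apply Quot.sound
          refine ⟨⟨τ x.1, ht⟩, ?_, ?_⟩
          · apply hg
            rw [← hx']
            rfl
          · apply hg
            rw [← hx]
            apply Subtype.ext
            show q x.1 = q (τ (τ x.1))
            rw [(hτ x.1).1]
      · have e1 : rs P τ x = x := dif_neg h
        rw [e1, hx] at hx'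
        rw [hg hx']
  rw [hnc]
  constructor
  · rintro ⟨-, h1, h2⟩
    refine ⟨h1, ?_⟩
    rw [hmv', hcard, hAc] at h2
    omega
  · rintro ⟨h1, h2⟩
    refine ⟨inv_rs P hτ, h1, ?_⟩
    rw [hmv', hcard, hAc]
    omega

omit [Fintype K] in
theorem card_fib (r : Fin 4 × Fin 4) :
    Fintype.card {x // ty q cl l x = r} = (xk q cl l r.1 r.2).card := by
  rw [Fintype.card_subtype]
  congr 1
  ext x
  rw [mem_filter, xk, mem_filter, ← ty_eq]

omit [Fintype K] in
theorem card_b1 (k : Fin 4) (w : {v : K // cl v = k}) [DecidablePred fun x => b1 q cl l k x = w] :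
    (univ.filter fun x => b1 q cl l k x = w).card = (univ.filter fun x => q x = w.1 ∧ l x = 1).card := by
  rw [← card_map (Function.Embedding.subtype _)]
  congr 1
  ext x
  simp only [mem_map, mem_filter, mem_univ, true_and, Function.Embedding.coe_subtype, Subtype.exists,
    exists_and_right, exists_eq_right]
  constructor
  · rintro ⟨h1, h2⟩
    exact ⟨congrArg Subtype.val h2, (ty_eq.1 h1).2⟩
  · rintro ⟨h1, h2⟩
    refine ⟨ty_eq.2 ⟨?_, h2⟩, Subtype.ext h1⟩
    rw [h1]
    exact w.2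

omit [Fintype K] in
theorem card_b2 (k : Fin 4) (w : {v : K // cl v = k + 1})
    [DecidablePred fun x => b2 q cl l k x = w] :
    (univ.filter fun x => b2 q cl l k x = w).card = (univ.filter fun x => q x = w.1 ∧ l x = 3).card := by
  rw [← card_map (Function.Embedding.subtype _)]
  congr 1
  ext x
  simp only [mem_map, mem_filter, mem_univ, true_and, Function.Embedding.coe_subtype, Subtype.exists,
    exists_and_right, exists_eq_right]
  constructor
  · rintro ⟨h1, h2⟩
    exact ⟨congrArg Subtype.val h2, (ty_eq.1 h1).2⟩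
  · rintro ⟨h1, h2⟩
    refine ⟨ty_eq.2 ⟨?_, h2⟩, Subtype.ext h1⟩
    rw [h1]
    exact w.2

/-- the admissible bijections -/
noncomputable def Cr (q : X → K) (cl : K → Fin 4) (l : X → Fin 4) (c : Fin 4 → ℕ) :
    ∀ r : Fin 4 ⊕ Fin 2, Finset ({x // ty q cl l x = st r} ≃ {x // ty q cl l x = io (st r)})
  | Sum.inl k => univ.filter fun e => Nat.card (Quot (rb (b1 q cl l k) (b2 q cl l k) e)) = 1 ∧
      (xk q cl l k 1).card + 1 = c k + c (k + 1)
  | Sum.inr _ => univ

theorem count (hl : ∀ x, l x ≠ 0) {c : Fin 4 → ℕ} (hc : ∀ k, (univ.filter fun K => cl K = k).card = c k) :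
    ((CC q cl).filter fun τ => ∀ x, cl (q (τ x)) = cl (q x) + l x).card =
      (Fintype.piFinset (Cr q cl l c)).card := by
  have hcov : ∀ x, (∃ r, ty q cl l x = st r) ∨ ∃ r, ty q cl l x = io (st r) :=
    fun x => st_cov _ (hl x)
  have h0 : ∀ a b : Fin 4, b ≠ 0 → a + b ≠ a := by decide
  have h00 : ∀ a b b' : Fin 4, a = a + b + b' → b' = -b := by decide
  have e1 : ((CC q cl).filter fun τ => ∀ x, cl (q (τ x)) = cl (q x) + l x) =
      (univ.filter fun τ : {τ : X → X // PT (ty q cl l) io τ} => ∀ k, TreeOn q τ.1 (two cl k)).map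
        (Function.Embedding.subtype _) := by
    ext τ
    simp only [CC, prs, mem_map, mem_filter, mem_univ, true_and, Function.Embedding.coe_subtype,
      Subtype.exists, exists_and_right, exists_eq_right]
    constructor
    · rintro ⟨⟨h1, h2, h3⟩, h4⟩
      refine ⟨⟨h1, fun x => ?_⟩, h3⟩
      have h5 := h4 (τ x)
      rw [(h1 x).1, h4 x] at h5
      exact Prod.ext (h4 x) (h00 _ _ _ h5)
    · rintro ⟨⟨h1, h2⟩, h3⟩
      have h4 : ∀ x, cl (q (τ x)) = cl (q x) + l x := fun x => congrArg Prod.fst (h2 x)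
      refine ⟨⟨h1, fun x => ?_, h3⟩, h4⟩
      rw [h4]
      exact h0 _ _ (hl x)
  rw [e1, card_map]
  refine Finset.card_equiv (EE st_inj io_io st_io hcov) fun τ => ?_
  rw [Fintype.mem_piFinset, mem_filter]
  constructor
  · rintro ⟨-, h⟩
    rintro (k | i)
    · have h1 := (tree_iff hl τ hcov k).1 (h k)
      rw [hc, hc] at h1
      show _ ∈ univ.filter _
      rw [mem_filter]
      exact ⟨mem_univ _, h1⟩
    · exact mem_univ _
  · intro h
    refine ⟨mem_univ _, fun k => ?_⟩
    rw [tree_iff hl τ hcov k, hc, hc]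
    have h1 := h (Sum.inl k)
    exact (mem_filter.1 h1).2

theorem card_eq {A B : Type} [Fintype A] [Fintype B] [i : Fintype (A ≃ B)]
    (h : Fintype.card A = Fintype.card B) :
    (univ : Finset (A ≃ B)).card = (Fintype.card A).factorial := by
  have h1 := Fintype.card_equiv (Fintype.equivOfCardEq h)
  have h2 : i = Equiv.instFintype := Subsingleton.elim _ _
  rw [h2]
  exact h1

theorem card_ne {A B : Type} [Fintype A] [Fintype B] (h : Fintype.card A ≠ Fintype.card B)
    (S : Finset (A ≃ B)) : S.card = 0 := by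
  rw [card_eq_zero]
  by_contra h1
  obtain ⟨e, -⟩ := nonempty_of_ne_empty h1
  exact h (Fintype.card_congr e)

end tree

end cflX

theorem p_cfl (h1 : S_TB) : S_cfl := by
  intro X K _ _ q cl c l hc hpos hl
  rw [cflX.count hl hc, Fintype.card_piFinset, Fintype.prod_sum_type, Fin.prod_univ_two]
  have hk : ∀ k, Fintype.card {v : K // cl v = k} = c k := by
    intro k
    rw [Fintype.card_subtype, hc]
  have f1 : ∀ k, Fintype.card {x // cflX.ty q cl l x = cflX.st (Sum.inl k)} = (xk q cl l k 1).card :=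
    fun k => cflX.card_fib _
  have f2 : ∀ k, Fintype.card {x // cflX.ty q cl l x = cflX.io (cflX.st (Sum.inl k))} =
      (xk q cl l (k + 1) 3).card := fun k => cflX.card_fib _
  have f3 : Fintype.card {x // cflX.ty q cl l x = cflX.st (Sum.inr 0)} = (xk q cl l 0 2).card :=
    cflX.card_fib _
  have f4 : Fintype.card {x // cflX.ty q cl l x = cflX.io (cflX.st (Sum.inr 0))} =
      (xk q cl l 2 2).card := cflX.card_fib _
  have f5 : Fintype.card {x // cflX.ty q cl l x = cflX.st (Sum.inr 1)} = (xk q cl l 1 2).card :=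
    cflX.card_fib _
  have f6 : Fintype.card {x // cflX.ty q cl l x = cflX.io (cflX.st (Sum.inr 1))} =
      (xk q cl l 3 2).card := cflX.card_fib _
  split_ifs with hcond
  · obtain ⟨g1, g2, g3⟩ := hcond
    have e1 : ∀ k : Fin 4, (cflX.Cr q cl l c (Sum.inl k)).card =
        ((∏ w : {v : K // cl v = k}, (univ.filter fun x => q x = w.1 ∧ l x = 1).card) *
          (∏ w : {v : K // cl v = k + 1}, (univ.filter fun x => q x = w.1 ∧ l x = 3).card)) *
          ((c k - 1).factorial * (c (k + 1) - 1).factorial) := by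
      intro k
      have h2 := h1 _ _ _ _ (cflX.b1 q cl l k) (cflX.b2 q cl l k)
        (by rw [f1, f2]; have := g1 k; omega) (by rw [hk]; exact hpos k)
        (by rw [hk]; exact hpos (k + 1)) (by rw [f1, hk, hk]; exact (g1 k).1)
      rw [hk, hk] at h2
      simp only [cflX.card_b1, cflX.card_b2] at h2
      rw [← h2]
      show (univ.filter _).card = _
      congr 1
      ext e
      simp only [mem_filter, mem_univ, true_and, (g1 k).1, and_true]
    have e2 : (cflX.Cr q cl l c (Sum.inr 0)).card = (xk q cl l 0 2).card.factorial :=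
      (cflX.card_eq (by rw [f3, f4, g2])).trans (by rw [f3])
    have e3 : (cflX.Cr q cl l c (Sum.inr 1)).card = (xk q cl l 1 2).card.factorial :=
      (cflX.card_eq (by rw [f5, f6, g3])).trans (by rw [f5])
    rw [prod_congr rfl fun k _ => e1 k, e2, e3, prod_mul_distrib, prod_mul_distrib, prod_mul_distrib]
    congr 1
    have p1 : ∏ k : Fin 4, ∏ w : {v : K // cl v = k}, (univ.filter fun x => q x = w.1 ∧ l x = 1).card =
        ∏ v : K, (univ.filter fun x => q x = v ∧ l x = 1).card :=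
      Fintype.prod_fiberwise cl fun v => (univ.filter fun x => q x = v ∧ l x = 1).card
    have p2 : ∏ k : Fin 4, ∏ w : {v : K // cl v = k}, (univ.filter fun x => q x = w.1 ∧ l x = 3).card =
        ∏ v : K, (univ.filter fun x => q x = v ∧ l x = 3).card :=
      Fintype.prod_fiberwise cl fun v => (univ.filter fun x => q x = v ∧ l x = 3).card
    have p3 : ∏ k : Fin 4, ∏ w : {v : K // cl v = k + 1},
        (univ.filter fun x => q x = w.1 ∧ l x = 3).card =
        ∏ k : Fin 4, ∏ w : {v : K // cl v = k}, (univ.filter fun x => q x = w.1 ∧ l x = 3).card :=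
      Equiv.prod_comp (Equiv.addRight (1 : Fin 4)) fun k =>
        ∏ w : {v : K // cl v = k}, (univ.filter fun x => q x = w.1 ∧ l x = 3).card
    have p4 : ∏ k : Fin 4, (c (k + 1) - 1).factorial = ∏ k : Fin 4, (c k - 1).factorial :=
      Equiv.prod_comp (Equiv.addRight (1 : Fin 4)) fun k => (c k - 1).factorial
    rw [p1, p3, p2, p4, prod_mul_distrib, prod_pow, pow_two]
  · by_cases g2 : (xk q cl l 0 2).card = (xk q cl l 2 2).card
    · by_cases g3 : (xk q cl l 1 2).card = (xk q cl l 3 2).card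
      · have g1 : ∃ k : Fin 4, ¬ ((xk q cl l k 1).card + 1 = c k + c (k + 1) ∧
            (xk q cl l (k + 1) 3).card + 1 = c k + c (k + 1)) := by
          by_contra h
          push Not at h
          exact hcond ⟨h, g2, g3⟩
        obtain ⟨k, g1⟩ := g1
        have e1 : (cflX.Cr q cl l c (Sum.inl k)).card = 0 := by
          by_cases h : (xk q cl l k 1).card + 1 = c k + c (k + 1)
          · refine cflX.card_ne ?_ _
            rw [f1, f2]
            omega
          · rw [card_eq_zero]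
            show univ.filter _ = ∅
            rw [filter_eq_empty_iff]
            rintro e - ⟨-, h'⟩
            exact h h'
        rw [prod_eq_zero (mem_univ k) e1, zero_mul]
      · have e1 : (cflX.Cr q cl l c (Sum.inr 1)).card = 0 := cflX.card_ne (by rw [f5, f6]; exact g3) _
        rw [e1, mul_zero, mul_zero]
    · have e1 : (cflX.Cr q cl l c (Sum.inr 0)).card = 0 := cflX.card_ne (by rw [f3, f4]; exact g2) _
      rw [e1, zero_mul, mul_zero]

end Pool.Agent.ALM
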