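import Pool.Agent.Lib.MP_fc2a59_co.ALM.S.Stm

set_option autoImplicit false

namespace Pool.Agent.ALM

open Finset
open scoped Classical

theorem p_crec : S_crec := by
  intro v c
  cases v with
  | zero => simp
  | succ n =>
    have h1 : PowerSeries.coeff n (PowerSeries.derivative ℝ (phi ^ (c + 1))) =
        PowerSeries.coeff (n + 1) (phi ^ (c + 1)) * ((n : ℝ) + 1) :=
      PowerSeries.coeff_derivative _ _
    have h2 : PowerSeries.derivative ℝ (phi ^ (c + 1)) =
        ((c + 1 : ℕ) : PowerSeries ℝ) * (PowerSeries.derivative ℝ phi * phi ^ c) := by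
      rw [Derivation.leibniz_pow, Nat.add_sub_cancel, nsmul_eq_mul, smul_eq_mul]
      ring
    have h3 : PowerSeries.coeff n (((c + 1 : ℕ) : PowerSeries ℝ) *
        (PowerSeries.derivative ℝ phi * phi ^ c)) =
        ((c : ℝ) + 1) * ∑ k ∈ range (n + 1), (PowerSeries.coeff (k + 1) phi * ((k : ℝ) + 1)) *
          co (n - k) c := by
      rw [← nsmul_eq_mul, map_nsmul, nsmul_eq_mul, PowerSeries.coeff_mul,
        Finset.Nat.sum_antidiagonal_eq_sum_range_succ_mk]
      push_cast
      congr 1
      refine Finset.sum_congr rfl fun k _ => ?_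
      rw [PowerSeries.coeff_derivative]
      rfl
    have h4 : ∀ k : ℕ, PowerSeries.coeff (k + 1) phi = 3 ^ (k + 1) * (Nat.centralBinom (k + 1) : ℝ) := by
      intro k
      rw [phi, PowerSeries.coeff_mk, if_neg (Nat.succ_ne_zero k)]
    have h5 : ∑ s ∈ Icc 1 (n + 1), (s : ℝ) * (3 ^ s * (Nat.centralBinom s : ℝ)) * co (n + 1 - s) c =
        ∑ k ∈ range (n + 1), (PowerSeries.coeff (k + 1) phi * ((k : ℝ) + 1)) * co (n - k) c := by
      refine (Finset.sum_bij (fun (k : ℕ) (_ : k ∈ range (n + 1)) => k + 1) ?_ ?_ ?_ ?_).symm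
      · intro k hk
        have := Finset.mem_range.1 hk
        exact Finset.mem_Icc.2 ⟨by omega, by omega⟩
      · intro a _ b _ hab
        exact Nat.succ_injective hab
      · intro s hs
        have := Finset.mem_Icc.1 hs
        exact ⟨s - 1, Finset.mem_range.2 (by omega), by omega⟩
      · intro k hk
        rw [h4, Nat.add_sub_add_right]
        push_cast
        ring
    rw [h5, ← h3, ← h2, h1, co]
    push_cast
    ring

end Pool.Agent.ALM
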