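import Pool.Agent.Lib.MP_fc2a59_co.ALM.S.Stm

set_option autoImplicit false

/-! # [ALM S lab] labellings of points with two marked points in every block -/

namespace Pool.Agent.ALM

open Finset
open scoped Classical

namespace labX

variable {X : Type} [Fintype X]

/-- sets between `F` and the complement of `G` with given cardinality -/
theorem intv (F G : Finset X) (hFG : Disjoint F G) {p : ℕ} (hp : F.card ≤ p) :
    (univ.filter fun A : Finset X => F ⊆ A ∧ Disjoint A G ∧ A.card = p).card =
      (Fintype.card X - F.card - G.card).choose (p - F.card) := by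
  have h1 : (univ \ (F ∪ G)).card = Fintype.card X - F.card - G.card := by
    rw [card_sdiff_of_subset (subset_univ _), card_univ, card_union_of_disjoint hFG]
    omega
  rw [← h1, ← card_powersetCard]
  refine card_nbij' (fun A => A \ F) (fun B => B ∪ F) ?_ ?_ ?_ ?_
  · intro A hA
    rw [mem_coe, mem_filter] at hA
    obtain ⟨-, h2, h3, h4⟩ := hA
    rw [mem_coe, mem_powersetCard]
    constructor
    · intro x hx
      rw [mem_sdiff] at hx
      rw [mem_sdiff, mem_union, not_or]
      exact ⟨mem_univ _, hx.2, fun h => (disjoint_left.1 h3 hx.1) h⟩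
    · rw [card_sdiff_of_subset h2, h4]
  · intro B hB
    rw [mem_coe, mem_powersetCard] at hB
    obtain ⟨h2, h3⟩ := hB
    have h5 : ∀ x ∈ B, x ∉ F ∧ x ∉ G := by
      intro x hx
      have := h2 hx
      rw [mem_sdiff, mem_union, not_or] at this
      exact this.2
    rw [mem_coe, mem_filter]
    refine ⟨mem_univ _, subset_union_right, ?_, ?_⟩
    · rw [disjoint_union_left]
      exact ⟨disjoint_left.2 fun x hx => (h5 x hx).2, hFG⟩
    · rw [card_union_of_disjoint (disjoint_left.2 fun x hx => (h5 x hx).1), h3]
      omega
  · intro A hA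
    rw [mem_coe, mem_filter] at hA
    exact sdiff_union_of_subset hA.2.1
  · intro B hB
    rw [mem_coe, mem_powersetCard] at hB
    have h5 : Disjoint B F := by
      rw [disjoint_left]
      intro x hx
      have := hB.1 hx
      rw [mem_sdiff, mem_union, not_or] at this
      exact this.2.1
    show (B ∪ F) \ F = B
    rw [union_sdiff_right, sdiff_eq_self_of_disjoint h5]

/-- number of labellings with prescribed labels on two disjoint sets -/
theorem cnt (F G : Finset X) (hFG : Disjoint F G) {c p p' : ℕ} (hF : F.card = c) (hG : G.card = c)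
    (hp : c ≤ p) (hp' : c ≤ p') (hX : p + p' ≤ Fintype.card X) :
    (univ.filter fun l : X → Fin 3 => ((univ.filter fun x => l x = 0).card = p ∧
      (univ.filter fun x => l x = 1).card = p') ∧ (∀ x ∈ F, l x = 0) ∧ ∀ x ∈ G, l x = 1).card *
      ((p - c).factorial * (p' - c).factorial * (Fintype.card X - (p + p')).factorial) =
      (Fintype.card X - 2 * c).factorial := by
  have h1 : (univ.filter fun l : X → Fin 3 => ((univ.filter fun x => l x = 0).card = p ∧
      (univ.filter fun x => l x = 1).card = p') ∧ (∀ x ∈ F, l x = 0) ∧ ∀ x ∈ G, l x = 1).card =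
      ((univ.filter fun A : Finset X => F ⊆ A ∧ Disjoint A G ∧ A.card = p).sigma fun A =>
        univ.filter fun B : Finset X => G ⊆ B ∧ Disjoint B A ∧ B.card = p').card := by
    refine card_nbij' (fun l => ⟨univ.filter fun x => l x = 0, univ.filter fun x => l x = 1⟩)
      (fun s x => if x ∈ s.1 then 0 else if x ∈ s.2 then 1 else 2) ?_ ?_ ?_ ?_
    · intro l hl
      rw [mem_coe, mem_filter] at hl
      obtain ⟨-, ⟨h2, h3⟩, h4, h5⟩ := hl
      rw [mem_coe, mem_sigma, mem_filter, mem_filter]
      refine ⟨⟨mem_univ _, ?_, ?_, h2⟩, mem_univ _, ?_, ?_, h3⟩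
      · intro x hx
        rw [mem_filter]
        exact ⟨mem_univ _, h4 x hx⟩
      · rw [disjoint_left]
        intro x hx hx'
        rw [mem_filter] at hx
        rw [h5 x hx'] at hx
        exact absurd hx.2 (by decide)
      · intro x hx
        rw [mem_filter]
        exact ⟨mem_univ _, h5 x hx⟩
      · rw [disjoint_left]
        intro x hx hx'
        rw [mem_filter] at hx hx'
        rw [hx.2] at hx'
        exact absurd hx'.2 (by decide)
    · rintro ⟨A, B⟩ hs
      rw [mem_coe, mem_sigma, mem_filter, mem_filter] at hs
      obtain ⟨⟨-, h2, h3, h4⟩, -, h5, h6, h7⟩ := hs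
      have e1 : (univ.filter fun x => (if x ∈ A then (0 : Fin 3) else if x ∈ B then 1 else 2) = 0) = A := by
        ext x
        rw [mem_filter]
        constructor
        · rintro ⟨-, hx⟩
          by_contra hA
          rw [if_neg hA] at hx
          split at hx
          · exact absurd hx (by decide)
          · exact absurd hx (by decide)
        · intro hx
          exact ⟨mem_univ _, if_pos hx⟩
      have e2 : (univ.filter fun x => (if x ∈ A then (0 : Fin 3) else if x ∈ B then 1 else 2) = 1) = B := by
        ext x
        rw [mem_filter]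
        constructor
        · rintro ⟨-, hx⟩
          by_contra hB
          rw [if_neg hB] at hx
          split at hx
          · exact absurd hx (by decide)
          · exact absurd hx (by decide)
        · intro hx
          refine ⟨mem_univ _, ?_⟩
          rw [if_neg (disjoint_left.1 h6 hx), if_pos hx]
      rw [mem_coe, mem_filter]
      refine ⟨mem_univ _, ⟨?_, ?_⟩, ?_, ?_⟩
      · show (univ.filter fun x => (if x ∈ A then (0 : Fin 3) else if x ∈ B then 1 else 2) = 0).card = p
        rw [e1]
        exact h4
      · show (univ.filter fun x => (if x ∈ A then (0 : Fin 3) else if x ∈ B then 1 else 2) = 1).card = p'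
        rw [e2]
        exact h7
      · intro x hx
        show (if x ∈ A then (0 : Fin 3) else if x ∈ B then 1 else 2) = 0
        rw [if_pos (h2 hx)]
      · intro x hx
        show (if x ∈ A then (0 : Fin 3) else if x ∈ B then 1 else 2) = 1
        rw [if_neg (disjoint_right.1 h3 hx), if_pos (h5 hx)]
    · intro l _
      funext x
      show (if x ∈ univ.filter (fun x => l x = 0) then (0 : Fin 3) else
        if x ∈ univ.filter (fun x => l x = 1) then 1 else 2) = l x
      simp only [mem_filter, mem_univ, true_and]
      generalize l x = t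
      fin_cases t <;> simp
    · rintro ⟨A, B⟩ hs
      rw [mem_coe, mem_sigma, mem_filter, mem_filter] at hs
      obtain ⟨⟨-, h2, h3, h4⟩, -, h5, h6, h7⟩ := hs
      have e1 : (univ.filter fun x => (if x ∈ A then (0 : Fin 3) else if x ∈ B then 1 else 2) = 0) = A := by
        ext x
        rw [mem_filter]
        constructor
        · rintro ⟨-, hx⟩
          by_contra hA
          rw [if_neg hA] at hx
          split at hx
          · exact absurd hx (by decide)
          · exact absurd hx (by decide)
        · intro hx
          exact ⟨mem_univ _, if_pos hx⟩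
      have e2 : (univ.filter fun x => (if x ∈ A then (0 : Fin 3) else if x ∈ B then 1 else 2) = 1) = B := by
        ext x
        rw [mem_filter]
        constructor
        · rintro ⟨-, hx⟩
          by_contra hB
          rw [if_neg hB] at hx
          split at hx
          · exact absurd hx (by decide)
          · exact absurd hx (by decide)
        · intro hx
          refine ⟨mem_univ _, ?_⟩
          rw [if_neg (disjoint_left.1 h6 hx), if_pos hx]
      show (⟨univ.filter fun x => (if x ∈ A then (0 : Fin 3) else if x ∈ B then 1 else 2) = 0,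
        univ.filter fun x => (if x ∈ A then (0 : Fin 3) else if x ∈ B then 1 else 2) = 1⟩ :
          (_ : Finset X) × Finset X) = ⟨A, B⟩
      rw [e1, e2]
  have h2 : ((univ.filter fun A : Finset X => F ⊆ A ∧ Disjoint A G ∧ A.card = p).sigma fun A =>
        univ.filter fun B : Finset X => G ⊆ B ∧ Disjoint B A ∧ B.card = p').card =
      (Fintype.card X - c - c).choose (p - c) * (Fintype.card X - c - p).choose (p' - c) := by
    rw [card_sigma]
    have h3 : ∀ A ∈ (univ.filter fun A : Finset X => F ⊆ A ∧ Disjoint A G ∧ A.card = p),
        (univ.filter fun B : Finset X => G ⊆ B ∧ Disjoint B A ∧ B.card = p').card =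
          (Fintype.card X - c - p).choose (p' - c) := by
      intro A hA
      rw [mem_filter] at hA
      rw [intv G A hA.2.2.1.symm (by omega), hG, hA.2.2.2]
    rw [sum_congr rfl h3, sum_const, intv F G hFG (by omega), hF, hG, smul_eq_mul]
  rw [h1, h2]
  have h4 := Nat.choose_mul_factorial_mul_factorial
    (show p - c ≤ Fintype.card X - c - c by omega)
  have h5 := Nat.choose_mul_factorial_mul_factorial
    (show p' - c ≤ Fintype.card X - c - p by omega)
  have e1 : Fintype.card X - c - c - (p - c) = Fintype.card X - c - p := by omega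
  have e2 : Fintype.card X - c - p - (p' - c) = Fintype.card X - (p + p') := by omega
  have e3 : Fintype.card X - 2 * c = Fintype.card X - c - c := by omega
  rw [e1] at h4
  rw [e2] at h5
  rw [e3, ← h4, ← h5]
  ring

end labX

theorem p_lab : S_lab := by
  intro X K _ _ q p p' hp hp' hX
  set c := Fintype.card K with hc
  set N := Fintype.card X with hN
  set fac := (p - c).factorial * (p' - c).factorial * (N - (p + p')).factorial with hfac
  -- the pairs of marked points
  let fb : K → Finset X := fun k => univ.filter fun x => q x = k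
  let M : Finset (K → X × X) := Fintype.piFinset fun k => (fb k).offDiag
  let Ml : (X → Fin 3) → Finset (K → X × X) := fun l => Fintype.piFinset fun k =>
    (univ.filter fun x => q x = k ∧ l x = 0) ×ˢ (univ.filter fun x => q x = k ∧ l x = 1)
  let L : Finset (X → Fin 3) := univ.filter (fun l : X → Fin 3 =>
      (univ.filter fun x => l x = 0).card = p ∧ (univ.filter fun x => l x = 1).card = p')
  have hM : M.card = ∏ k : K, (univ.filter fun x => q x = k).card *
      ((univ.filter fun x => q x = k).card - 1) := by
    rw [Fintype.card_piFinset]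
    refine prod_congr rfl fun k _ => ?_
    rw [offDiag_card, Nat.mul_sub_one]
  have h1 : (∑ l ∈ L, ∏ k : K, (univ.filter fun x => q x = k ∧ l x = 0).card *
      (univ.filter fun x => q x = k ∧ l x = 1).card) = ∑ l ∈ L, (Ml l).card := by
    refine sum_congr rfl fun l _ => ?_
    rw [Fintype.card_piFinset]
    refine prod_congr rfl fun k _ => ?_
    rw [card_product]
  have hsub : ∀ l, Ml l ⊆ M := by
    intro l h hh
    rw [Fintype.mem_piFinset] at hh ⊢
    intro k
    have h2 := hh k
    rw [mem_product, mem_filter, mem_filter] at h2
    rw [mem_offDiag, mem_filter, mem_filter]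
    refine ⟨⟨mem_univ _, h2.1.2.1⟩, ⟨mem_univ _, h2.2.2.1⟩, ?_⟩
    intro he
    have h3 := h2.1.2.2
    rw [he, h2.2.2.2] at h3
    exact absurd h3 (by decide)
  have h2 : ∑ l ∈ L, (Ml l).card = ∑ h ∈ M, (L.filter fun l => h ∈ Ml l).card := by
    have e1 : ∀ l ∈ L, (Ml l).card = ∑ h ∈ M, if h ∈ Ml l then 1 else 0 := by
      intro l _
      rw [← card_filter]
      congr 1
      ext h
      rw [mem_filter]
      exact ⟨fun hh => ⟨hsub l hh, hh⟩, fun hh => hh.2⟩
    rw [sum_congr rfl e1, sum_comm]
    refine sum_congr rfl fun h _ => ?_
    rw [card_filter]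
  have h3 : ∀ h ∈ M, (L.filter fun l => h ∈ Ml l).card * fac = (N - 2 * c).factorial := by
    intro h hh
    rw [Fintype.mem_piFinset] at hh
    have hh' : ∀ k, q (h k).1 = k ∧ q (h k).2 = k ∧ (h k).1 ≠ (h k).2 := by
      intro k
      have := hh k
      rw [mem_offDiag, mem_filter, mem_filter] at this
      exact ⟨this.1.2, this.2.1.2, this.2.2⟩
    have i1 : Function.Injective fun k => (h k).1 := by
      intro k k' e
      have e' : (h k).1 = (h k').1 := e
      rw [← (hh' k).1, e', (hh' k').1]
    have i2 : Function.Injective fun k => (h k).2 := by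
      intro k k' e
      have e' : (h k).2 = (h k').2 := e
      rw [← (hh' k).2.1, e', (hh' k').2.1]
    have hd : Disjoint (univ.image fun k => (h k).1) (univ.image fun k => (h k).2) := by
      rw [disjoint_left]
      intro x hx hx'
      rw [mem_image] at hx hx'
      obtain ⟨k, -, rfl⟩ := hx
      obtain ⟨k', -, e⟩ := hx'
      have e1 : k' = k := by
        rw [← (hh' k').2.1, e, (hh' k).1]
      subst e1
      exact (hh' k').2.2 e.symm
    have h4 := labX.cnt _ _ hd (card_image_of_injective _ i1) (card_image_of_injective _ i2)
      (p := p) (p' := p') (by rw [card_univ]; exact hp) (by rw [card_univ]; exact hp') hX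
    rw [card_univ] at h4
    rw [← h4]
    congr 2
    ext l
    simp only [L, Ml, mem_filter, mem_univ, true_and, Fintype.mem_piFinset, mem_product, mem_image,
      forall_exists_index, forall_apply_eq_imp_iff]
    constructor
    · rintro ⟨e1, e2⟩
      exact ⟨e1, fun k => (e2 k).1.2, fun k => (e2 k).2.2⟩
    · rintro ⟨e1, e2, e3⟩
      exact ⟨e1, fun k => ⟨⟨(hh' k).1, e2 k⟩, (hh' k).2.1, e3 k⟩⟩
  show (∑ l ∈ L, ∏ k : K, (univ.filter fun x => q x = k ∧ l x = 0).card *
      (univ.filter fun x => q x = k ∧ l x = 1).card) * fac = _
  rw [h1, h2, sum_mul, sum_congr rfl h3, sum_const, smul_eq_mul, hM]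

end Pool.Agent.ALM
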