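import Pool.Agent.Lib.MP_fc2a59_co.ALM.S.Stm

set_option autoImplicit false

/-!
Project ALM, piece p_rec: recursion for the weighted number of forests.  The data are transported along
equivalences `e : X ≃ X1 ⊕ X2` (points) and `f : W ≃ W1 ⊕ W2` (blocks).
-/

namespace Pool.Agent.ALM

open Finset
open scoped Classical

namespace recX

section glue

variable {X X1 X2 W W1 W2 : Type} {b : X → W} {b1 : X1 → W1} {b2 : X2 → W2}
  {ρ : X → X} {ρ1 : X1 → X1} {ρ2 : X2 → X2}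

/-- the components of a disjoint union -/
private noncomputable def cmE (e : X ≃ X1 ⊕ X2) (f : W ≃ W1 ⊕ W2)
    (hb : ∀ x, Sum.map b1 b2 (e x) = f (b x)) (hρ : ∀ x, Sum.map ρ1 ρ2 (e x) = e (ρ x)) :
    Cm b ρ ≃ Cm b1 ρ1 ⊕ Cm b2 ρ2 where
  toFun := Quot.lift (fun w => Sum.map (Quot.mk (lk b1 ρ1)) (Quot.mk (lk b2 ρ2)) (f w)) (by
    rintro u v ⟨x, rfl, rfl⟩
    rw [← hb, ← hb, ← hρ]
    cases e x with
    | inl y => exact congrArg Sum.inl (Quot.sound ⟨y, rfl, rfl⟩)
    | inr y => exact congrArg Sum.inr (Quot.sound ⟨y, rfl, rfl⟩))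
  invFun := Sum.elim
    (Quot.lift (fun w1 => Quot.mk (lk b ρ) (f.symm (Sum.inl w1))) (by
      rintro u v ⟨y, rfl, rfl⟩
      refine Quot.sound ⟨e.symm (Sum.inl y), ?_, ?_⟩
      · apply f.injective
        rw [← hb]; simp
      · apply f.injective
        rw [← hb, ← hρ]; simp))
    (Quot.lift (fun w2 => Quot.mk (lk b ρ) (f.symm (Sum.inr w2))) (by
      rintro u v ⟨y, rfl, rfl⟩
      refine Quot.sound ⟨e.symm (Sum.inr y), ?_, ?_⟩
      · apply f.injective
        rw [← hb]; simp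
      · apply f.injective
        rw [← hb, ← hρ]; simp))
  left_inv := by
    intro K
    induction K using Quot.ind with
    | mk w =>
      change Sum.elim _ _ (Sum.map _ _ (f w)) = _
      rcases hw : f w with u | u
      · change Quot.mk (lk b ρ) (f.symm (Sum.inl u)) = _
        rw [← hw, Equiv.symm_apply_apply]
      · change Quot.mk (lk b ρ) (f.symm (Sum.inr u)) = _
        rw [← hw, Equiv.symm_apply_apply]
  right_inv := by
    rintro (K | K)
    · induction K using Quot.ind with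
      | mk w =>
        change Sum.map _ _ (f (f.symm (Sum.inl w))) = _
        rw [Equiv.apply_symm_apply]; rfl
    · induction K using Quot.ind with
      | mk w =>
        change Sum.map _ _ (f (f.symm (Sum.inr w))) = _
        rw [Equiv.apply_symm_apply]; rfl

private lemma cmE_mk (e : X ≃ X1 ⊕ X2) (f : W ≃ W1 ⊕ W2)
    (hb : ∀ x, Sum.map b1 b2 (e x) = f (b x)) (hρ : ∀ x, Sum.map ρ1 ρ2 (e x) = e (ρ x)) (w : W) :
    cmE e f hb hρ (Quot.mk _ w) = Sum.map (Quot.mk (lk b1 ρ1)) (Quot.mk (lk b2 ρ2)) (f w) := rfl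

private lemma nc_eq [Finite W] [Finite W1] [Finite W2] (e : X ≃ X1 ⊕ X2) (f : W ≃ W1 ⊕ W2)
    (hb : ∀ x, Sum.map b1 b2 (e x) = f (b x)) (hρ : ∀ x, Sum.map ρ1 ρ2 (e x) = e (ρ x)) :
    nc b ρ = nc b1 ρ1 + nc b2 ρ2 := by
  unfold nc
  rw [Nat.card_congr (cmE e f hb hρ)]
  exact Nat.card_sum

private lemma mv_eq [Fintype X] [Fintype X1] [Fintype X2] (e : X ≃ X1 ⊕ X2)
    (hρ : ∀ x, Sum.map ρ1 ρ2 (e x) = e (ρ x)) : mv ρ = mv ρ1 + mv ρ2 := by
  unfold mv
  rw [← Fintype.card_subtype, ← Fintype.card_subtype, ← Fintype.card_subtype, ← Fintype.card_sum]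
  refine Fintype.card_congr ?_
  have h1 : ∀ x, ρ x ≠ x ↔ Sum.map ρ1 ρ2 (e x) ≠ e x := by
    intro x; rw [hρ]; exact not_congr e.injective.eq_iff.symm
  refine (Equiv.subtypeEquiv e h1 : _ ≃ {y : X1 ⊕ X2 // Sum.map ρ1 ρ2 y ≠ y}).trans ?_
  refine
    { toFun := fun y => match y with
        | ⟨Sum.inl z, h⟩ => Sum.inl ⟨z, fun h' => h (congrArg Sum.inl h')⟩
        | ⟨Sum.inr z, h⟩ => Sum.inr ⟨z, fun h' => h (congrArg Sum.inr h')⟩
      invFun := fun y => match y with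
        | Sum.inl z => ⟨Sum.inl z.1, fun h' => z.2 (Sum.inl_injective h')⟩
        | Sum.inr z => ⟨Sum.inr z.1, fun h' => z.2 (Sum.inr_injective h')⟩
      left_inv := ?_
      right_inv := ?_ }
  · rintro ⟨z | z, h⟩ <;> rfl
  · rintro (z | z) <;> rfl

private lemma inv_iff (e : X ≃ X1 ⊕ X2)
    (hρ : ∀ x, Sum.map ρ1 ρ2 (e x) = e (ρ x)) : Inv ρ ↔ Inv ρ1 ∧ Inv ρ2 := by
  constructor
  · intro h
    constructor
    · intro y
      have h1 := h (e.symm (Sum.inl y))
      have h2 : Sum.map ρ1 ρ2 (Sum.map ρ1 ρ2 (Sum.inl y)) = Sum.inl y := by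
        have := congrArg e h1
        rwa [← hρ, ← hρ, Equiv.apply_symm_apply] at this
      exact Sum.inl_injective h2
    · intro y
      have h1 := h (e.symm (Sum.inr y))
      have h2 : Sum.map ρ1 ρ2 (Sum.map ρ1 ρ2 (Sum.inr y)) = Sum.inr y := by
        have := congrArg e h1
        rwa [← hρ, ← hρ, Equiv.apply_symm_apply] at this
      exact Sum.inr_injective h2
  · rintro ⟨h1, h2⟩ x
    apply e.injective
    rw [← hρ, ← hρ]
    rcases e x with y | y
    · exact congrArg Sum.inl (h1 y)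
    · exact congrArg Sum.inr (h2 y)

private lemma fp_inl [Fintype X] [Fintype X1] (e : X ≃ X1 ⊕ X2) (f : W ≃ W1 ⊕ W2)
    (hb : ∀ x, Sum.map b1 b2 (e x) = f (b x)) (hρ : ∀ x, Sum.map ρ1 ρ2 (e x) = e (ρ x))
    (K : Cm b ρ) (K1 : Cm b1 ρ1) (hK : cmE e f hb hρ K = Sum.inl K1) :
    fp b ρ K = fp b1 ρ1 K1 := by
  unfold fp
  symm
  refine Finset.card_bij (fun y _ => ⟨e.symm (Sum.inl y.1), ?_⟩) ?_ ?_ ?_
  · apply e.injective
    rw [← hρ, Equiv.apply_symm_apply]
    exact congrArg Sum.inl y.2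
  · intro y hy
    rw [mem_filter] at hy ⊢
    refine ⟨mem_univ _, (cmE e f hb hρ).injective ?_⟩
    unfold qm
    rw [hK, cmE_mk, ← hb]
    change Sum.map _ _ (Sum.map b1 b2 (e (e.symm (Sum.inl y.1)))) = _
    rw [Equiv.apply_symm_apply]
    exact congrArg Sum.inl hy.2
  · intro y _ y' _ h
    have h1 := congrArg (fun z : Fx ρ => e z.1) h
    simp only [Equiv.apply_symm_apply] at h1
    exact Subtype.ext (Sum.inl_injective h1)
  · intro x hx
    rw [mem_filter] at hx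
    have h1 := hx.2
    have h2 : Sum.map (Quot.mk (lk b1 ρ1)) (Quot.mk (lk b2 ρ2)) (Sum.map b1 b2 (e x.1)) = Sum.inl K1 := by
      rw [hb, ← hK, ← h1]; rfl
    rcases hy : e x.1 with y | y
    · rw [hy] at h2
      have h3 : ρ1 y = y := by
        have := hρ x.1
        rw [x.2, hy] at this
        exact Sum.inl_injective this
      refine ⟨⟨y, h3⟩, ?_, ?_⟩
      · rw [mem_filter]
        exact ⟨mem_univ _, Sum.inl_injective h2⟩
      · apply Subtype.ext
        change e.symm (Sum.inl y) = x.1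
        rw [← hy, Equiv.symm_apply_apply]
    · rw [hy] at h2
      exact absurd h2 (by simp)

private lemma fp_inr [Fintype X] [Fintype X2] (e : X ≃ X1 ⊕ X2) (f : W ≃ W1 ⊕ W2)
    (hb : ∀ x, Sum.map b1 b2 (e x) = f (b x)) (hρ : ∀ x, Sum.map ρ1 ρ2 (e x) = e (ρ x))
    (K : Cm b ρ) (K2 : Cm b2 ρ2) (hK : cmE e f hb hρ K = Sum.inr K2) :
    fp b ρ K = fp b2 ρ2 K2 := by
  unfold fp
  symm
  refine Finset.card_bij (fun y _ => ⟨e.symm (Sum.inr y.1), ?_⟩) ?_ ?_ ?_
  · apply e.injective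
    rw [← hρ, Equiv.apply_symm_apply]
    exact congrArg Sum.inr y.2
  · intro y hy
    rw [mem_filter] at hy ⊢
    refine ⟨mem_univ _, (cmE e f hb hρ).injective ?_⟩
    unfold qm
    rw [hK, cmE_mk, ← hb]
    change Sum.map _ _ (Sum.map b1 b2 (e (e.symm (Sum.inr y.1)))) = _
    rw [Equiv.apply_symm_apply]
    exact congrArg Sum.inr hy.2
  · intro y _ y' _ h
    have h1 := congrArg (fun z : Fx ρ => e z.1) h
    simp only [Equiv.apply_symm_apply] at h1
    exact Subtype.ext (Sum.inr_injective h1)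
  · intro x hx
    rw [mem_filter] at hx
    have h1 := hx.2
    have h2 : Sum.map (Quot.mk (lk b1 ρ1)) (Quot.mk (lk b2 ρ2)) (Sum.map b1 b2 (e x.1)) = Sum.inr K2 := by
      rw [hb, ← hK, ← h1]; rfl
    rcases hy : e x.1 with y | y
    · rw [hy] at h2
      exact absurd h2 (by simp)
    · rw [hy] at h2
      have h3 : ρ2 y = y := by
        have := hρ x.1
        rw [x.2, hy] at this
        exact Sum.inr_injective this
      refine ⟨⟨y, h3⟩, ?_, ?_⟩
      · rw [mem_filter]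
        exact ⟨mem_univ _, Sum.inr_injective h2⟩
      · apply Subtype.ext
        change e.symm (Sum.inr y) = x.1
        rw [← hy, Equiv.symm_apply_apply]

/-- the weight of a forest -/
private noncomputable def wt {X W : Type} [Fintype X] [Finite W] (b : X → W) (ρ : X → X) : ℕ :=
  ∏ K : Cm b ρ, fp b ρ K * (fp b ρ K - 1)

private lemma wt_eq [Fintype X] [Fintype X1] [Fintype X2] [Finite W] [Finite W1] [Finite W2]
    (e : X ≃ X1 ⊕ X2) (f : W ≃ W1 ⊕ W2)
    (hb : ∀ x, Sum.map b1 b2 (e x) = f (b x)) (hρ : ∀ x, Sum.map ρ1 ρ2 (e x) = e (ρ x)) :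
    wt b ρ = wt b1 ρ1 * wt b2 ρ2 := by
  unfold wt
  rw [Fintype.prod_equiv (cmE e f hb hρ) (fun K => fp b ρ K * (fp b ρ K - 1))
    (Sum.elim (fun K => fp b1 ρ1 K * (fp b1 ρ1 K - 1)) (fun K => fp b2 ρ2 K * (fp b2 ρ2 K - 1))) ?_]
  · rw [Fintype.prod_sum_type]; rfl
  · intro K
    rcases hK : cmE e f hb hρ K with K1 | K2
    · change _ = fp b1 ρ1 K1 * (fp b1 ρ1 K1 - 1)
      rw [fp_inl e f hb hρ K K1 hK]
    · change _ = fp b2 ρ2 K2 * (fp b2 ρ2 K2 - 1)
      rw [fp_inr e f hb hρ K K2 hK]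

end glue

private lemma card_fx {X : Type} [Fintype X] (ρ : X → X) :
    Fintype.card (Fx ρ) + mv ρ = Fintype.card X := by
  unfold mv
  rw [← Fintype.card_subtype, ← Fintype.card_sum]
  exact Fintype.card_congr (Equiv.sumCompl fun x => ρ x = x)

private lemma fp_one {X W : Type} [Fintype X] (b : X → W) (ρ : X → X) (K0 : Cm b ρ)
    (hs : Subsingleton (Cm b ρ)) : fp b ρ K0 + mv ρ = Fintype.card X := by
  rw [← card_fx ρ]
  unfold fp
  rw [Finset.filter_true_of_mem (fun x _ => hs.elim _ _), Finset.card_univ]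

/-- the weight of a tree -/
private lemma wt_tree {W : Type} [Fintype W] (ρ : Pt W → Pt W) (h : Tre Prod.fst ρ) :
    wt Prod.fst ρ = (Fintype.card W + 2) * (Fintype.card W + 1) := by
  obtain ⟨h1, h2, h3⟩ := h
  unfold nc at h2
  obtain ⟨hs, ⟨K0⟩⟩ := Nat.card_eq_one_iff_unique.mp h2
  have hf : fp Prod.fst ρ K0 = Fintype.card W + 2 := by
    have h4 := fp_one Prod.fst ρ K0 hs
    have h5 : Fintype.card (W × Fin 3) = 3 * Fintype.card W := by
      rw [Fintype.card_prod, Fintype.card_fin, mul_comm]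
    omega
  unfold wt
  rw [Finset.prod_eq_single K0 (fun K _ hK => absurd (hs.elim K K0) hK)
    (fun hK => absurd (mem_univ _) hK), hf]
  rfl

/-- the fibre over a set `U` of blocks -/
private lemma fibre (h3 : S_ncle) {W W1 W2 : Type} [Fintype W] [Fintype W1] [Fintype W2]
    (f : W ≃ W1 ⊕ W2) (w0 : W) (w1 : W1) (hw : f w0 = Sum.inl w1) (c : ℕ) (U : Finset W)
    (hU : ∀ w, w ∈ U ↔ ∃ u, f w = Sum.inl u) :
    ∑ ρ ∈ (univ.filter fun ρ : Pt W → Pt W => For Prod.fst ρ ∧ nc Prod.fst ρ = c + 1).filter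
        (fun ρ => (univ.filter fun w => Quot.mk (lk Prod.fst ρ) w = Quot.mk (lk Prod.fst ρ) w0) = U),
      wt Prod.fst ρ =
    (univ.filter fun ρ : Pt W1 → Pt W1 => Tre Prod.fst ρ).card *
      ((Fintype.card W1 + 2) * (Fintype.card W1 + 1)) * FF W2 c := by
  let e : Pt W ≃ Pt W1 ⊕ Pt W2 :=
    (Equiv.prodCongr f (Equiv.refl (Fin 3))).trans (Equiv.sumProdDistrib W1 W2 (Fin 3))
  have hb : ∀ x : Pt W, Sum.map (Prod.fst : Pt W1 → W1) (Prod.fst : Pt W2 → W2) (e x) = f x.1 := by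
    rintro ⟨w, i⟩
    change Sum.map _ _ (Equiv.sumProdDistrib W1 W2 (Fin 3) (f w, i)) = f w
    rcases f w with u | u <;> rfl
  have hcard : Fintype.card W = Fintype.card W1 + Fintype.card W2 := by
    rw [Fintype.card_congr f, Fintype.card_sum]
  let gl : (Pt W1 → Pt W1) × (Pt W2 → Pt W2) → (Pt W → Pt W) :=
    fun p x => e.symm (Sum.map p.1 p.2 (e x))
  have hgl : ∀ p x, Sum.map p.1 p.2 (e x) = e (gl p x) := by
    intro p x
    simp [gl]
  have hR : (univ.filter fun ρ : Pt W1 → Pt W1 => Tre Prod.fst ρ).card *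
      ((Fintype.card W1 + 2) * (Fintype.card W1 + 1)) * FF W2 c =
      ∑ p ∈ (univ.filter fun ρ : Pt W1 → Pt W1 => Tre Prod.fst ρ) ×ˢ
        (univ.filter fun ρ : Pt W2 → Pt W2 => For Prod.fst ρ ∧ nc Prod.fst ρ = c),
        ((Fintype.card W1 + 2) * (Fintype.card W1 + 1)) * wt Prod.fst p.2 := by
    rw [Finset.sum_product]
    simp only [Finset.sum_const, smul_eq_mul]
    rw [← Finset.mul_sum, mul_assoc]
    rfl
  rw [hR]
  symm
  refine Finset.sum_bij (fun p _ => gl p) ?_ ?_ ?_ ?_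
  · rintro ⟨ρ1, ρ2⟩ hp
    rw [mem_product, mem_filter, mem_filter] at hp
    obtain ⟨⟨_, ht1, ht2, ht3⟩, _, ⟨hf1, hf2⟩, hf3⟩ := hp
    have hρ := hgl (ρ1, ρ2)
    have hnc := nc_eq e f hb hρ
    have hmv := mv_eq e hρ
    change Inv ρ1 at ht1
    change nc Prod.fst ρ1 = 1 at ht2
    change mv ρ1 + 2 = 2 * Fintype.card W1 at ht3
    change Inv ρ2 at hf1
    change mv ρ2 + 2 * nc Prod.fst ρ2 = 2 * Fintype.card W2 at hf2
    change nc Prod.fst ρ2 = c at hf3
    simp only at hnc hmv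
    rw [mem_filter, mem_filter]
    refine ⟨⟨mem_univ _, ⟨(inv_iff e hρ).mpr ⟨ht1, hf1⟩, ?_⟩, ?_⟩, ?_⟩
    · omega
    · omega
    · ext w
      rw [mem_filter, hU]
      unfold nc at ht2
      obtain ⟨hs, _⟩ := Nat.card_eq_one_iff_unique.mp ht2
      constructor
      · rintro ⟨_, hw'⟩
        have h4 := congrArg (cmE e f hb hρ) hw'
        rw [cmE_mk, cmE_mk, hw] at h4
        rcases hfw : f w with u | u
        · exact ⟨u, rfl⟩
        · rw [hfw] at h4
          exact absurd h4 (by simp)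
      · rintro ⟨u, hu⟩
        refine ⟨mem_univ _, (cmE e f hb hρ).injective ?_⟩
        rw [cmE_mk, cmE_mk, hw, hu]
        exact congrArg Sum.inl (hs.elim _ _)
  · rintro ⟨ρ1, ρ2⟩ _ ⟨ρ1', ρ2'⟩ _ h
    have h4 : ∀ y, Sum.map ρ1 ρ2 y = Sum.map ρ1' ρ2' y := by
      intro y
      have h5 := congrFun h (e.symm y)
      have h6 := congrArg e h5
      rw [← hgl, ← hgl, Equiv.apply_symm_apply] at h6
      exact h6
    have h5 : ρ1 = ρ1' := funext fun y => Sum.inl_injective (h4 (Sum.inl y))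
    have h6 : ρ2 = ρ2' := funext fun y => Sum.inr_injective (h4 (Sum.inr y))
    rw [h5, h6]
  · intro ρ hρ0
    rw [mem_filter, mem_filter] at hρ0
    obtain ⟨⟨_, ⟨hi, hF⟩, hn⟩, hc⟩ := hρ0
    -- `U` is invariant
    have hinv : ∀ x : Pt W, (∃ u, f (ρ x).1 = Sum.inl u) ↔ ∃ u, f x.1 = Sum.inl u := by
      intro x
      rw [← hU, ← hU, ← hc, mem_filter, mem_filter]
      have : Quot.mk (lk Prod.fst ρ) x.1 = Quot.mk (lk Prod.fst ρ) (ρ x).1 :=
        Quot.sound ⟨x, rfl, rfl⟩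
      rw [this]
      exact ⟨fun h => ⟨mem_univ _, h.2⟩, fun h => ⟨mem_univ _, h.2⟩⟩
    have hel : ∀ x : Pt W, (∃ y, e x = Sum.inl y) ↔ ∃ u, f x.1 = Sum.inl u := by
      intro x
      rw [← hb]
      rcases e x with y | y
      · exact ⟨fun _ => ⟨_, rfl⟩, fun _ => ⟨_, rfl⟩⟩
      · constructor
        · rintro ⟨z, hz⟩; exact absurd hz (by simp)
        · rintro ⟨z, hz⟩; exact absurd hz (by simp)
    let ρ1 : Pt W1 → Pt W1 := fun y => Sum.elim id (fun _ => y) (e (ρ (e.symm (Sum.inl y))))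
    let ρ2 : Pt W2 → Pt W2 := fun y => Sum.elim (fun _ => y) id (e (ρ (e.symm (Sum.inr y))))
    have hρ : ∀ x, Sum.map ρ1 ρ2 (e x) = e (ρ x) := by
      intro x
      rcases hx : e x with y | y
      · have h4 : ∃ z, e (ρ x) = Sum.inl z := (hel _).mpr ((hinv x).mpr ((hel x).mp ⟨y, hx⟩))
        obtain ⟨z, hz⟩ := h4
        change Sum.inl (Sum.elim id (fun _ => y) (e (ρ (e.symm (Sum.inl y))))) = _
        rw [← hx, Equiv.symm_apply_apply, hz]; rfl
      · have h4 : ¬ ∃ z, e (ρ x) = Sum.inl z := by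
          intro h5
          obtain ⟨z, hz⟩ := (hel x).mpr ((hinv x).mp ((hel _).mp h5))
          rw [hx] at hz
          exact absurd hz (by simp)
        rcases hz : e (ρ x) with z | z
        · exact absurd ⟨z, hz⟩ h4
        change Sum.inr (Sum.elim (fun _ => y) id (e (ρ (e.symm (Sum.inr y))))) = _
        rw [← hx, Equiv.symm_apply_apply, hz]; rfl
    have hnc := nc_eq e f hb hρ
    have hmv := mv_eq e hρ
    obtain ⟨hi1, hi2⟩ := (inv_iff e hρ).mp hi
    have hn1 : nc (Prod.fst : Pt W1 → W1) ρ1 = 1 := by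
      unfold nc
      rw [Nat.card_eq_one_iff_unique]
      refine ⟨⟨?_⟩, ⟨Quot.mk _ w1⟩⟩
      have h4 : ∀ K : Cm (Prod.fst : Pt W1 → W1) ρ1, K = Quot.mk _ w1 := by
        intro K
        induction K using Quot.ind with
        | mk u =>
          have h5 : f.symm (Sum.inl u) ∈ U := by
            rw [hU]; exact ⟨u, f.apply_symm_apply _⟩
          rw [← hc, mem_filter] at h5
          have h6 := congrArg (cmE e f hb hρ) h5.2
          rw [cmE_mk, cmE_mk, hw, Equiv.apply_symm_apply] at h6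
          exact Sum.inl_injective h6
      intro K K'
      rw [h4 K, h4 K']
    have h5 := h3 _ _ Prod.fst ρ1 hi1
    have h6 := h3 _ _ Prod.fst ρ2 hi2
    refine ⟨(ρ1, ρ2), ?_, ?_⟩
    · rw [mem_product, mem_filter, mem_filter]
      refine ⟨⟨mem_univ _, hi1, hn1, ?_⟩, mem_univ _, ⟨hi2, ?_⟩, ?_⟩
      · change mv ρ1 + 2 = _
        omega
      · change mv ρ2 + 2 * nc Prod.fst ρ2 = _
        omega
      · change nc Prod.fst ρ2 = _
        omega
    · funext x
      change e.symm (Sum.map ρ1 ρ2 (e x)) = ρ x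
      rw [hρ, Equiv.symm_apply_apply]
  · rintro ⟨ρ1, ρ2⟩ hp
    rw [mem_product, mem_filter, mem_filter] at hp
    have hρ := hgl (ρ1, ρ2)
    rw [wt_eq e f hb hρ]
    change _ * wt Prod.fst ρ2 = wt Prod.fst ρ1 * wt Prod.fst ρ2
    rw [wt_tree ρ1 hp.1.2]

end recX

theorem p_rec (_h1 : S_blk) (_h2 : S_inv) (h3 : S_ncle) : S_rec := by
  intro W _ w0 c
  have hL : FF W (c + 1) = ∑ ρ ∈ univ.filter (fun ρ : Pt W → Pt W => For Prod.fst ρ ∧ nc Prod.fst ρ = c + 1),
    recX.wt Prod.fst ρ := rfl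
  rw [hL]
  rw [← Finset.sum_fiberwise_of_maps_to
    (t := (univ : Finset (Finset W)).filter (fun U => w0 ∈ U))
    (g := fun ρ : Pt W → Pt W =>
      (univ.filter fun w => Quot.mk (lk Prod.fst ρ) w = Quot.mk (lk Prod.fst ρ) w0)) ?_]
  · refine Finset.sum_congr rfl ?_
    intro U hU
    rw [mem_filter] at hU
    let f : W ≃ {w : W // w ∈ U} ⊕ {w : W // w ∉ U} := (Equiv.sumCompl fun w => w ∈ U).symm
    have h4 := recX.fibre h3 f w0 ⟨w0, hU.2⟩ ?_ c U ?_
    · rw [h4, Fintype.card_coe]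
      refine congrArg (fun k : ℕ => k * ((U.card + 2) * (U.card + 1)) * FF {w : W // w ∉ U} c)
        (congrArg Finset.card ?_)
      ext x
      simp
    · apply f.symm.injective
      rw [Equiv.symm_apply_apply]; rfl
    · intro w
      constructor
      · intro hw
        refine ⟨⟨w, hw⟩, ?_⟩
        apply f.symm.injective
        rw [Equiv.symm_apply_apply]; rfl
      · rintro ⟨u, hu⟩
        have h5 := congrArg f.symm hu
        rw [Equiv.symm_apply_apply] at h5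
        rw [h5]
        exact u.2
  · intro ρ _
    rw [mem_filter]
    refine ⟨mem_univ _, ?_⟩
    rw [mem_filter]
    exact ⟨mem_univ _, rfl⟩

end Pool.Agent.ALM
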