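import Pool.Agent.Lib.MP_fc2a59_co.ALM.S.Stm

set_option autoImplicit false

namespace Pool.Agent.ALM

open Finset
open scoped Classical

namespace tr2X

private lemma fib {W : Type} [Fintype W] (w : W) :
    (univ.filter fun x : Pt W => x.1 = w).card = 3 := by
  have h : (univ.filter fun x : Pt W => x.1 = w) = ({w} : Finset W) ×ˢ (univ : Finset (Fin 3)) := by
    ext ⟨a, i⟩
    simp [eq_comm]
  rw [h, Finset.card_product]
  simp

end tr2X

theorem p_tr2 (h1 : S_T) : S_tr2 := by
  intro W _ hW
  have hc : Fintype.card (Pt W) = 3 * Fintype.card W := by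
    rw [Fintype.card_prod, Fintype.card_fin]
    ring
  have h := (h1 (Pt W) W Prod.fst (by rw [hc]; omega) hW).2 (by rw [hc]; omega)
  rw [hc] at h
  have e1 : 3 * Fintype.card W + 2 - 2 * Fintype.card W = Fintype.card W + 2 := by omega
  have e2 : 3 * Fintype.card W - Fintype.card W = 2 * Fintype.card W := by omega
  rw [e1, e2] at h
  have e3 : (∏ w : W, (univ.filter fun x : Pt W => x.1 = w).card) = 3 ^ Fintype.card W := by
    rw [Finset.prod_congr rfl (fun w _ => tr2X.fib w), Finset.prod_const, Finset.card_univ]
  rw [← e3]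
  refine Eq.trans (congrArg (fun k => k * (Fintype.card W + 2).factorial) ?_) h
  apply congrArg Finset.card
  ext ρ
  simp

end Pool.Agent.ALM
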