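import Pool.Agent.Lib.MP_fc2a59_co.ALM.S.Stm

set_option autoImplicit false

namespace Pool.Agent.ALM

open Finset
open scoped Classical

namespace FORX

lemma co_zero (v : ℕ) : co v 0 = if v = 0 then 1 else 0 := by
  unfold co
  rw [pow_zero, PowerSeries.coeff_one]

lemma co_zero_succ (c : ℕ) : co 0 (c + 1) = 0 := by
  unfold co
  rw [PowerSeries.coeff_zero_eq_constantCoeff, map_pow]
  have : PowerSeries.constantCoeff (R := ℝ) phi = 0 := by
    rw [← PowerSeries.coeff_zero_eq_constantCoeff_apply]
    unfold phi
    rw [PowerSeries.coeff_mk]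
    simp
  rw [this, zero_pow (Nat.succ_ne_zero c)]

lemma nc_empty {W : Type} [IsEmpty W] (ρ : Pt W → Pt W) : nc Prod.fst ρ = 0 := by
  unfold nc
  have : IsEmpty (Cm (Prod.fst : Pt W → W) ρ) :=
    ⟨fun K => by obtain ⟨w, _⟩ := Quot.exists_rep K; exact isEmptyElim w⟩
  exact Nat.card_of_isEmpty

lemma nc_pos {W : Type} [Fintype W] (w : W) (ρ : Pt W → Pt W) : nc Prod.fst ρ ≠ 0 := by
  unfold nc
  have : Nonempty (Cm (Prod.fst : Pt W → W) ρ) := ⟨Quot.mk _ w⟩
  have : Finite (Cm (Prod.fst : Pt W → W) ρ) := inferInstance
  exact Nat.card_pos.ne'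

lemma FF_empty_zero {W : Type} [Fintype W] [IsEmpty W] : FF W 0 = 1 := by
  unfold FF
  rw [Finset.sum_eq_single_of_mem (id : Pt W → Pt W)]
  · have : IsEmpty (Cm (Prod.fst : Pt W → W) (id : Pt W → Pt W)) :=
      ⟨fun K => by obtain ⟨w, _⟩ := Quot.exists_rep K; exact isEmptyElim w⟩
    apply Finset.prod_of_isEmpty
  · rw [Finset.mem_filter]
    refine ⟨Finset.mem_univ _, ⟨fun x => rfl, ?_⟩, nc_empty _⟩
    rw [nc_empty]
    unfold mv
    simp
  · intro ρ _ hne
    exact absurd (funext fun x => isEmptyElim x.1) hne

lemma FF_empty_succ {W : Type} [Fintype W] [IsEmpty W] (c : ℕ) : FF W (c + 1) = 0 := by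
  unfold FF
  rw [Finset.filter_false_of_mem]
  · simp
  · intro ρ _ h
    rw [nc_empty] at h
    exact absurd h.2 (by omega)

lemma FF_zero {W : Type} [Fintype W] (w : W) : FF W 0 = 0 := by
  unfold FF
  rw [Finset.filter_false_of_mem]
  · simp
  · intro ρ _ h
    exact nc_pos w ρ h.2

lemma sum_sets {W : Type} [Fintype W] (w0 : W) (g : ℕ → ℝ) :
    ∑ U ∈ (univ : Finset (Finset W)).filter (fun U => w0 ∈ U), g U.card =
      ∑ t ∈ range (Fintype.card W), ((Fintype.card W - 1).choose t : ℝ) * g (t + 1) := by
  have hc : (univ.erase w0 : Finset W).card = Fintype.card W - 1 := by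
    rw [Finset.card_erase_of_mem (Finset.mem_univ _), Finset.card_univ]
  have hpos : 0 < Fintype.card W := Fintype.card_pos_iff.mpr ⟨w0⟩
  have h1 : ∑ U ∈ (univ.erase w0 : Finset W).powerset, g (U.card + 1) =
      ∑ t ∈ range (Fintype.card W), ((Fintype.card W - 1).choose t : ℝ) * g (t + 1) := by
    rw [Finset.sum_powerset_apply_card (fun t => g (t + 1)), hc]
    rw [Nat.sub_add_cancel hpos]
    apply Finset.sum_congr rfl
    intro t _
    rw [nsmul_eq_mul]
  rw [← h1]
  symm
  apply Finset.sum_bij (fun (U : Finset W) _ => insert w0 U)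
  · intro U _
    simp
  · intro U hU U' hU' h
    rw [Finset.mem_powerset] at hU hU'
    have a1 : w0 ∉ U := fun h => absurd (hU h) (by simp)
    have a2 : w0 ∉ U' := fun h => absurd (hU' h) (by simp)
    rw [← Finset.erase_insert a1, ← Finset.erase_insert a2, h]
  · intro U hU
    rw [Finset.mem_filter] at hU
    refine ⟨U.erase w0, ?_, Finset.insert_erase hU.2⟩
    rw [Finset.mem_powerset]
    exact Finset.erase_subset_erase _ (Finset.subset_univ _)
  · intro U hU
    rw [Finset.mem_powerset] at hU
    have a1 : w0 ∉ U := fun h => absurd (hU h) (by simp)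
    rw [Finset.card_insert_of_notMem a1]

lemma tree_term (h1 : S_tr2) {W : Type} [Fintype W] (U : Finset W) (hU : 0 < U.card) :
    (((univ.filter fun ρ : Pt {w : W // w ∈ U} → Pt {w : W // w ∈ U} => Tre Prod.fst ρ).card *
      ((U.card + 2) * (U.card + 1)) : ℕ) : ℝ) =
      (U.card.factorial : ℝ) * (3 ^ U.card * (Nat.centralBinom U.card : ℝ)) := by
  have h := h1 {w : W // w ∈ U} (by rw [Fintype.card_coe]; exact hU)
  rw [Fintype.card_coe] at h
  set T := (univ.filter fun ρ : Pt {w : W // w ∈ U} → Pt {w : W // w ∈ U} => Tre Prod.fst ρ).card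
    with hT
  have hcb : Nat.centralBinom U.card * (U.card.factorial * U.card.factorial) =
      (2 * U.card).factorial := by
    rw [Nat.centralBinom_eq_two_mul_choose]
    have := Nat.choose_mul_factorial_mul_factorial (show U.card ≤ 2 * U.card by omega)
    rw [show 2 * U.card - U.card = U.card by omega] at this
    rw [← this]
    ring
  have hf : (U.card + 2).factorial = (U.card + 2) * (U.card + 1) * U.card.factorial := by
    rw [Nat.factorial_succ, Nat.factorial_succ]
    ring
  rw [hf, ← hcb] at h
  have hne : U.card.factorial ≠ 0 := Nat.factorial_ne_zero _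
  have h2 : (T * ((U.card + 2) * (U.card + 1))) =
      U.card.factorial * (3 ^ U.card * Nat.centralBinom U.card) := by
    apply Nat.eq_of_mul_eq_mul_right (Nat.pos_of_ne_zero hne)
    calc T * ((U.card + 2) * (U.card + 1)) * U.card.factorial
        = T * ((U.card + 2) * (U.card + 1) * U.card.factorial) := by ring
      _ = 3 ^ U.card * (Nat.centralBinom U.card * (U.card.factorial * U.card.factorial)) := by
        rw [hT]
        refine Eq.trans (congrArg (fun k => k * ((U.card + 2) * (U.card + 1) * U.card.factorial)) ?_) h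
        apply congrArg Finset.card
        ext ρ
        simp
      _ = U.card.factorial * (3 ^ U.card * Nat.centralBinom U.card) * U.card.factorial := by ring
  rw [h2]
  push_cast
  ring

end FORX

theorem p_FOR (h1 : S_tr2) (h2 : S_rec) (h3 : S_crec) : S_FOR := by
  have key : ∀ v : ℕ, ∀ (W : Type) [Fintype W] (c : ℕ), Fintype.card W = v →
      (FF W c : ℝ) = (Fintype.card W).factorial / (c.factorial : ℝ) * co (Fintype.card W) c := by
    intro v
    induction v using Nat.strong_induction_on with
    | _ v ih =>
    intro W _ c hv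
    rcases isEmpty_or_nonempty W with hW | ⟨⟨w0⟩⟩
    · have h0 : Fintype.card W = 0 := Fintype.card_eq_zero
      rw [h0]
      cases c with
      | zero => rw [FORX.FF_empty_zero, FORX.co_zero]; simp
      | succ c => rw [FORX.FF_empty_succ, FORX.co_zero_succ]; simp
    · have hpos : 0 < Fintype.card W := Fintype.card_pos_iff.mpr ⟨w0⟩
      cases c with
      | zero =>
        rw [FORX.FF_zero w0, FORX.co_zero, if_neg hpos.ne']
        simp
      | succ c =>
        rw [h2 W w0 c, Nat.cast_sum]
        have e1 : ∀ U ∈ (univ : Finset (Finset W)).filter (fun U => w0 ∈ U),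
            (((univ.filter fun ρ : Pt {w : W // w ∈ U} → Pt {w : W // w ∈ U} => Tre Prod.fst ρ).card *
              ((U.card + 2) * (U.card + 1)) * FF {w : W // w ∉ U} c : ℕ) : ℝ) =
            (fun s : ℕ => (s.factorial : ℝ) * (3 ^ s * (Nat.centralBinom s : ℝ)) *
              (((v - s).factorial : ℝ) / (c.factorial : ℝ) * co (v - s) c)) U.card := by
          intro U hU
          rw [Finset.mem_filter] at hU
          have hUpos : 0 < U.card := Finset.card_pos.mpr ⟨w0, hU.2⟩
          have hcard : Fintype.card {w : W // w ∉ U} = v - U.card := by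
            rw [Fintype.card_subtype_compl, Fintype.card_coe, hv]
          have hle : U.card ≤ v := by
            rw [← hv]
            exact Finset.card_le_univ U
          have := ih (v - U.card) (by omega) {w : W // w ∉ U} c hcard
          rw [hcard] at this
          rw [Nat.cast_mul, FORX.tree_term h1 U hUpos]
          simp only []
          rw [← this]
        rw [Finset.sum_congr rfl e1]
        refine Eq.trans (Eq.trans (by congr) (FORX.sum_sets w0 (fun s : ℕ => (s.factorial : ℝ) *
          (3 ^ s * (Nat.centralBinom s : ℝ)) *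
              (((v - s).factorial : ℝ) / (c.factorial : ℝ) * co (v - s) c)))) ?_
        rw [hv]
        have hc3 := h3 v c
        have hrange : ∑ s ∈ Icc 1 v, (s : ℝ) * (3 ^ s * (Nat.centralBinom s : ℝ)) * co (v - s) c =
            ∑ t ∈ range v, ((t + 1 : ℕ) : ℝ) * (3 ^ (t + 1) * (Nat.centralBinom (t + 1) : ℝ)) *
              co (v - (t + 1)) c := by
          rw [Finset.range_eq_Ico, Finset.sum_Ico_add' (fun s : ℕ =>
            (s : ℝ) * (3 ^ s * (Nat.centralBinom s : ℝ)) * co (v - s) c) 0 v 1]
          apply Finset.sum_congr _ (fun _ _ => rfl)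
          ext s
          simp only [Finset.mem_Icc, Finset.mem_Ico]
          omega
        have hv0 : 0 < v := by omega
        have e2 : ∀ t ∈ range v, ((v - 1).choose t : ℝ) *
            (fun s : ℕ => (s.factorial : ℝ) * (3 ^ s * (Nat.centralBinom s : ℝ)) *
              (((v - s).factorial : ℝ) / (c.factorial : ℝ) * co (v - s) c)) (t + 1) =
            ((v - 1).factorial : ℝ) / (c.factorial : ℝ) *
              (((t + 1 : ℕ) : ℝ) * (3 ^ (t + 1) * (Nat.centralBinom (t + 1) : ℝ)) *
              co (v - (t + 1)) c) := by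
          intro t ht
          rw [Finset.mem_range] at ht
          have hch : (v - 1).choose t * t.factorial * (v - (t + 1)).factorial = (v - 1).factorial := by
            have := Nat.choose_mul_factorial_mul_factorial (show t ≤ v - 1 by omega)
            rw [show v - 1 - t = v - (t + 1) by omega] at this
            exact this
          have hch' : ((v - 1).choose t : ℝ) * (t.factorial : ℝ) * ((v - (t + 1)).factorial : ℝ) =
              ((v - 1).factorial : ℝ) := by exact_mod_cast hch
          simp only []
          rw [Nat.factorial_succ, ← hch']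
          push_cast
          ring
        rw [Finset.sum_congr rfl e2, ← Finset.mul_sum, ← hrange]
        have hc1 : ((c : ℝ) + 1) ≠ 0 := by positivity
        have hcf : (c.factorial : ℝ) ≠ 0 := by positivity
        have hvf : (v.factorial : ℝ) = (v : ℝ) * ((v - 1).factorial : ℝ) := by
          have := Nat.mul_factorial_pred hv0.ne'
          exact_mod_cast this.symm
        rw [hvf, Nat.factorial_succ]
        push_cast
        rw [div_mul_eq_mul_div, div_mul_eq_mul_div, div_eq_div_iff hcf (by positivity)]
        have : (c.factorial : ℝ) * ((v : ℝ) * co v (c + 1)) =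
          (c.factorial : ℝ) * ((c + 1) * ∑ s ∈ Icc 1 v,
            (s : ℝ) * (3 ^ s * (Nat.centralBinom s : ℝ)) * co (v - s) c) := by rw [hc3]
        linear_combination (-((v - 1).factorial : ℝ)) * this
  intro W _ c
  exact key (Fintype.card W) W c rfl

end Pool.Agent.ALM
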